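import Pool.Agent.MP_04a7d6_ag.Extend

/-!
# Checking a good solution over a prime field by computation with natural numbers
-/

open Finset

namespace Pool.Agent.MP_04a7d6_ag

/-- Digits in base 64. -/
def dig (D i : ℕ) : ℕ := (D >>> (6 * i)) % 64

/-- `∑_{i < n} f i`. -/
def sumTo (n : ℕ) (f : ℕ → ℕ) : ℕ := Nat.rec 0 (fun i s => s + f i) n

/-- `∀ i < n, f i`. -/
def allTo (n : ℕ) (f : ℕ → Bool) : Bool := Nat.rec true (fun i s => f i && s) n

/-- The pair `(∏ s_i, ∑ w_i ∏_{j ≠ i} s_j)` over the active `i < n`. -/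
def uGo (act : ℕ → Bool) (w s : ℕ → ℕ) (n : ℕ) : ℕ × ℕ :=
  Nat.rec (1, 0) (fun i pu => if act i then (pu.1 * s i, pu.2 * s i + w i * pu.1) else pu) n

theorem sumTo_eq (n : ℕ) (f : ℕ → ℕ) : sumTo n f = ∑ i ∈ range n, f i := by
  induction n with
  | zero => rfl
  | succ n ih =>
    rw [Finset.sum_range_succ, ← ih]
    rfl

theorem allTo_iff (n : ℕ) (f : ℕ → Bool) : allTo n f = true ↔ ∀ i < n, f i = true := by
  induction n with
  | zero => simp [allTo]
  | succ n ih =>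
    have : allTo (n + 1) f = (f n && allTo n f) := rfl
    rw [this, Bool.and_eq_true, ih]
    constructor
    · rintro ⟨h1, h2⟩ i hi
      rcases Nat.lt_succ_iff_lt_or_eq.1 hi with h | h
      · exact h2 i h
      · rw [h]; exact h1
    · intro h
      exact ⟨h n (Nat.lt_succ_self n), fun i hi => h i (Nat.lt_succ_of_lt hi)⟩

/-- Data for the check. -/
structure BD where
  /-- characteristic -/
  P : ℕ
  /-- number of marked points -/
  N : ℕ
  /-- number of coordinates -/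
  n1 : ℕ
  /-- number of further points -/
  r : ℕ
  /-- degree of the relations -/
  m : ℕ
  /-- separation degree -/
  b : ℕ
  /-- nodes -/
  tN : ℕ → ℕ
  /-- weights -/
  cN : ℕ → ℕ
  /-- points -/
  ptN : ℕ → ℕ
  /-- coordinates of the further points -/
  qN : ℕ → ℕ → ℕ
  /-- family -/
  fN : ℕ → ℕ → ℕ → ℕ
  /-- right inverse, weight part -/
  RN : ℕ → ℕ → ℕ → ℕ
  /-- right inverse, node part -/
  SN : ℕ → ℕ → ℕ → ℕ
  /-- first functionals -/
  UA : ℕ → ℕ → ℕ → ℕ
  /-- second functionals -/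
  UB : ℕ → ℕ → ℕ → ℕ
  /-- inverse of the separation matrix -/
  IN : ℕ → ℕ → ℕ → ℕ → ℕ

namespace BD

variable (d : BD)

/-- coordinates of the point under a marked point -/
def pN (a k : ℕ) : ℕ :=
  if d.ptN a < d.n1 then (if k = d.ptN a then 1 else 0) else d.qN ((d.ptN a - d.n1) % d.r) k

/-- nodes are distinct -/
def ckT : Bool := allTo d.N fun a => allTo d.N fun a' =>
  if a = a' then true else !((d.tN a % d.P) == (d.tN a' % d.P))

/-- weights are nonzero -/
def ckC : Bool := allTo d.N fun a => !((d.cN a % d.P) == 0)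

/-- relations -/
def ckRel : Bool := allTo (d.m + 1) fun e => allTo d.n1 fun k =>
  (sumTo d.N fun a => d.cN a * d.tN a ^ e * d.pN a k) % d.P == 0

/-- right inverse of the Jacobian, one block -/
def ckJ (e : ℕ) : Bool := allTo d.n1 fun k => allTo (d.m + 1) fun e' => allTo d.n1 fun k' =>
  (sumTo d.N fun a => if d.pN a k = 0 then 0 else
    d.pN a k * (d.tN a ^ e * d.RN a e' k' + d.cN a * (e * d.tN a ^ (e - 1)) * d.SN a e' k')) % d.P
  == (if e = e' then (if k = k' then 1 else 0) else 0)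

/-- active marked points -/
def actN (x y a : ℕ) : Bool :=
  if d.ptN a < d.n1 then
    (d.ptN a == d.fN x y 1 % d.n1) || ((d.ptN a == d.fN x y 2 % d.n1) ||
      (d.ptN a == d.fN x y 3 % d.n1))
  else !((d.ptN a - d.n1) % d.r == d.fN x y 0 % d.r)

/-- weights of the functional `q_k x_i - q_i x_k` -/
def wN (x y l a : ℕ) : ℕ :=
  d.cN a * (d.qN (d.fN x y 0 % d.r) (d.fN x y 3 % d.n1) * d.pN a (d.fN x y l % d.n1) +
    (d.P - 1) * (d.qN (d.fN x y 0 % d.r) (d.fN x y l % d.n1) * d.pN a (d.fN x y 3 % d.n1)))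

/-- computed value of a functional -/
def uN (x y l z : ℕ) : ℕ :=
  (uGo (d.actN x y) (d.wN x y l) (fun i => z + (d.P - 1) * d.tN i) d.N).2

/-- table of functional values is right -/
def ckU : Bool := allTo (d.b + 1) fun x => allTo (d.b + 1) fun y => if x < y then
  (allTo (d.b + 1) fun z => (d.uN x y 1 z % d.P == d.UA x y z % d.P) &&
    (d.uN x y 2 z % d.P == d.UB x y z % d.P)) else true

/-- inverse of the separation matrix -/
def ckI : Bool := allTo (d.b + 1) fun x => allTo (d.b + 1) fun y => if x < y then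
  (allTo (d.b + 1) fun x' => allTo (d.b + 1) fun y' => if x' < y' then
    ((sumTo (d.b + 1) fun u => sumTo (d.b + 1) fun v => if u < v then
      (d.UA x y u * d.UB x y v + (d.P - 1) * (d.UA x y v * d.UB x y u)) * d.IN u v x' y'
      else 0) % d.P == (if x = x' then (if y = y' then 1 else 0) else 0)) else true) else true

/-! ### Abstract data -/

variable [NeZero d.r] [NeZero d.n1]

/-- the point map -/
def pt (a : Fin d.N) : Fin d.n1 ⊕ Fin d.r :=
  if h : d.ptN a < d.n1 then Sum.inl ⟨d.ptN a, h⟩ else Sum.inr (Fin.ofNat d.r (d.ptN a - d.n1))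

/-- the further points -/
def q (j : Fin d.r) (k : Fin d.n1) : ZMod d.P := (d.qN j k : ZMod d.P)

/-- weights -/
def c (a : Fin d.N) : ZMod d.P := (d.cN a : ZMod d.P)

/-- nodes -/
def t (a : Fin d.N) : ZMod d.P := (d.tN a : ZMod d.P)

/-- family -/
def fam (x : Pairs (d.b + 1)) : Fin d.r × Fin d.n1 × Fin d.n1 × Fin d.n1 :=
  (Fin.ofNat d.r (d.fN x.1.1 x.1.2 0), Fin.ofNat d.n1 (d.fN x.1.1 x.1.2 1),
    Fin.ofNat d.n1 (d.fN x.1.1 x.1.2 2), Fin.ofNat d.n1 (d.fN x.1.1 x.1.2 3))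

omit [NeZero d.n1] in
theorem nrm_pt (a : Fin d.N) (k : Fin d.n1) : nrm d.q (d.pt a) k = (d.pN a k : ZMod d.P) := by
  unfold pt pN
  by_cases h : d.ptN a < d.n1
  · simp only [h, dite_true, if_true, nrm, Sum.elim_inl, Fin.ext_iff]
    by_cases hk : (k : ℕ) = d.ptN a <;> simp [hk]
  · simp only [h, dite_false, if_false, nrm, Sum.elim_inr, q]
    simp [Fin.ofNat]

omit [NeZero d.r] [NeZero d.n1] in
theorem natCast_eq_zero_of_mod {P x : ℕ} (h : (x % P == 0) = true) : (x : ZMod P) = 0 := by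
  have h1 : x % P = 0 := by simpa using h
  rw [ZMod.natCast_eq_zero_iff]
  exact Nat.dvd_of_mod_eq_zero h1

omit [NeZero d.r] [NeZero d.n1] in
theorem natCast_eq_of_mod {P x y : ℕ} (h : (x % P == y % P) = true) :
    (x : ZMod P) = (y : ZMod P) := by
  have h1 : x % P = y % P := by simpa using h
  rw [ZMod.natCast_eq_natCast_iff']
  exact h1

variable [Fact d.P.Prime]

omit [NeZero d.r] [NeZero d.n1] in
theorem t_inj (h : d.ckT = true) : Function.Injective d.t := by
  intro a a' haa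
  by_contra hne
  rw [ckT, allTo_iff] at h
  have h1 := h a a.2
  rw [allTo_iff] at h1
  have h2 := h1 a' a'.2
  rw [if_neg (fun h => hne (Fin.ext h))] at h2
  have h3 : (d.tN a : ZMod d.P) = d.tN a' := haa
  rw [ZMod.natCast_eq_natCast_iff'] at h3
  simp [h3] at h2

omit [NeZero d.r] [NeZero d.n1] in
theorem c_ne (h : d.ckC = true) (a : Fin d.N) : d.c a ≠ 0 := by
  intro h0
  rw [ckC, allTo_iff] at h
  have h2 := h a a.2
  have h3 : (d.cN a : ZMod d.P) = 0 := h0
  rw [ZMod.natCast_eq_zero_iff] at h3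
  simp [Nat.mod_eq_zero_of_dvd h3] at h2

omit [NeZero d.n1] in
theorem rel_of_ck (h : d.ckRel = true) : Rel d.m d.pt (nrm d.q) d.c d.t := by
  intro e k
  rw [ckRel, allTo_iff] at h
  have h1 := h e e.2
  rw [allTo_iff] at h1
  have h2 := natCast_eq_zero_of_mod (h1 k k.2)
  rw [sumTo_eq, Finset.sum_range] at h2
  rw [← h2, Nat.cast_sum]
  refine Finset.sum_congr rfl fun a _ => ?_
  rw [nrm_pt]
  simp [c, t]

omit [NeZero d.r] [NeZero d.n1] in
theorem one_lt : 1 < d.P := (Fact.out : d.P.Prime).one_lt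

omit [NeZero d.n1] in
theorem li_of_ck (h : ∀ e < d.m + 1, d.ckJ e = true) :
    LinearIndependent (ZMod d.P) (jacMat d.m d.pt (nrm d.q) d.c d.t).row := by
  let B : Matrix (Fin d.N ⊕ Fin d.N) (Fin (d.m + 1) × Fin d.n1) (ZMod d.P) := fun j s =>
    Sum.elim (fun a : Fin d.N => (d.RN a s.1 s.2 : ZMod d.P))
      (fun a : Fin d.N => (d.SN a s.1 s.2 : ZMod d.P)) j
  have hB : jacMat d.m d.pt (nrm d.q) d.c d.t * B = 1 := by
    ext x s
    rw [Matrix.mul_apply, Fintype.sum_sum_type, ← Finset.sum_add_distrib]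
    have h1 := h x.1 x.1.2
    rw [ckJ, allTo_iff] at h1
    have h2 := h1 x.2 x.2.2
    rw [allTo_iff] at h2
    have h3 := h2 s.1 s.1.2
    rw [allTo_iff] at h3
    have h4 := h3 s.2 s.2.2
    have h5 : (((sumTo d.N fun a => if d.pN a x.2 = 0 then 0 else
        d.pN a x.2 * (d.tN a ^ (x.1 : ℕ) * d.RN a s.1 s.2 +
          d.cN a * ((x.1 : ℕ) * d.tN a ^ ((x.1 : ℕ) - 1)) * d.SN a s.1 s.2) : ℕ)) : ZMod d.P) =
        ((if (x.1 : ℕ) = s.1 then (if (x.2 : ℕ) = s.2 then 1 else 0) else 0 : ℕ) : ZMod d.P) := by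
      apply natCast_eq_of_mod
      have h6 : (if (x.1 : ℕ) = s.1 then (if (x.2 : ℕ) = s.2 then 1 else 0) else 0 : ℕ) % d.P =
          (if (x.1 : ℕ) = s.1 then (if (x.2 : ℕ) = s.2 then 1 else 0) else 0 : ℕ) := by
        apply Nat.mod_eq_of_lt
        have := d.one_lt
        split_ifs <;> omega
      rw [h6]
      exact h4
    have h7 : (1 : Matrix (Fin (d.m + 1) × Fin d.n1) (Fin (d.m + 1) × Fin d.n1) (ZMod d.P)) x s =
        ((if (x.1 : ℕ) = s.1 then (if (x.2 : ℕ) = s.2 then 1 else 0) else 0 : ℕ) : ZMod d.P) := by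
      rw [Matrix.one_apply]
      by_cases e1 : x.1 = s.1
      · by_cases e2 : x.2 = s.2
        · rw [if_pos (Prod.ext e1 e2), if_pos (by rw [e1]), if_pos (by rw [e2])]; simp
        · rw [if_neg (fun h => e2 (by rw [h])), if_pos (by rw [e1]),
            if_neg (fun h => e2 (Fin.ext h))]; simp
      · rw [if_neg (fun h => e1 (by rw [h])), if_neg (fun h => e1 (Fin.ext h))]; simp
    rw [h7, ← h5, sumTo_eq, Finset.sum_range, Nat.cast_sum]
    refine Finset.sum_congr rfl fun a _ => ?_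
    have h8 : ((if d.pN a x.2 = 0 then 0 else
        d.pN a x.2 * (d.tN a ^ (x.1 : ℕ) * d.RN a s.1 s.2 +
          d.cN a * ((x.1 : ℕ) * d.tN a ^ ((x.1 : ℕ) - 1)) * d.SN a s.1 s.2) : ℕ)) =
        d.pN a x.2 * (d.tN a ^ (x.1 : ℕ) * d.RN a s.1 s.2 +
          d.cN a * ((x.1 : ℕ) * d.tN a ^ ((x.1 : ℕ) - 1)) * d.SN a s.1 s.2) := by
      split_ifs with h0
      · rw [h0, zero_mul]
      · rfl
    rw [h8]
    simp only [jacMat, Sum.elim_inl, Sum.elim_inr, nrm_pt, B, c, t]
    push_cast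
    ring
  rw [Fintype.linearIndependent_iff]
  intro g hg x
  have h1 : Matrix.vecMul g (jacMat d.m d.pt (nrm d.q) d.c d.t) = 0 := by
    funext j
    have := congrFun hg j
    simpa [Matrix.vecMul, dotProduct, Finset.sum_apply, Matrix.row] using this
  have h2 : Matrix.vecMul g (jacMat d.m d.pt (nrm d.q) d.c d.t * B) = 0 := by
    rw [← Matrix.vecMul_vecMul, h1, Matrix.zero_vecMul]
  rw [hB, Matrix.vecMul_one] at h2
  exact congrFun h2 x

omit [NeZero d.r] [NeZero d.n1] [Fact d.P.Prime] in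
theorem interpVal_insert {R ι : Type*} [CommRing R] [DecidableEq ι] (t : ι → R) {s : Finset ι}
    {a : ι} (ha : a ∉ s) (w : ι → R) (x : R) :
    interpVal t (insert a s) w x =
      interpVal t s w x * (x - t a) + w a * ∏ b ∈ s, (x - t b) := by
  rw [interpVal, Finset.sum_insert ha, Finset.erase_insert ha, interpVal, Finset.sum_mul, add_comm]
  congr 1
  refine Finset.sum_congr rfl fun b hb => ?_
  have hba : b ≠ a := fun h => ha (h ▸ hb)
  rw [Finset.erase_insert_of_ne hba.symm, Finset.prod_insert (fun h => ha (Finset.mem_of_mem_erase h))]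
  ring

omit [NeZero d.r] [NeZero d.n1] in
theorem uGo_spec (act : ℕ → Bool) (w : ℕ → ℕ) (z n : ℕ) :
    ((uGo act w (fun i => z + (d.P - 1) * d.tN i) n).1 : ZMod d.P) =
      ∏ i ∈ (range n).filter (fun i => act i = true), ((z : ZMod d.P) - (d.tN i : ZMod d.P)) ∧
    ((uGo act w (fun i => z + (d.P - 1) * d.tN i) n).2 : ZMod d.P) =
      interpVal (fun i => (d.tN i : ZMod d.P)) ((range n).filter (fun i => act i = true))
        (fun i => (w i : ZMod d.P)) (z : ZMod d.P) := by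
  have hneg : ((d.P - 1 : ℕ) : ZMod d.P) = -1 := by
    rw [Nat.cast_sub d.one_lt.le, ZMod.natCast_self]
    simp
  induction n with
  | zero => simp [uGo, interpVal]
  | succ n ih =>
    have h1 : uGo act w (fun i => z + (d.P - 1) * d.tN i) (n + 1) =
        if act n then ((uGo act w (fun i => z + (d.P - 1) * d.tN i) n).1 *
            (z + (d.P - 1) * d.tN n),
          (uGo act w (fun i => z + (d.P - 1) * d.tN i) n).2 * (z + (d.P - 1) * d.tN n) +
            w n * (uGo act w (fun i => z + (d.P - 1) * d.tN i) n).1)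
        else uGo act w (fun i => z + (d.P - 1) * d.tN i) n := rfl
    rw [h1, Finset.range_add_one, Finset.filter_insert]
    by_cases hact : act n = true
    · rw [if_pos hact, if_pos hact]
      have hn : n ∉ (range n).filter (fun i => act i = true) := by simp
      constructor
      · rw [Finset.prod_insert hn, ← ih.1]
        push_cast [hneg]
        ring
      · rw [interpVal_insert _ hn, ← ih.1, ← ih.2]
        push_cast [hneg]
        ring
    · rw [if_neg hact, if_neg hact]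
      exact ih

omit [Fact d.P.Prime] in
theorem act_iff (x : Pairs (d.b + 1)) (a : Fin d.N) :
    ActivePt (d.fam x) (d.pt a) ↔ d.actN x.1.1 x.1.2 a = true := by
  unfold pt actN
  by_cases h : d.ptN a < d.n1
  · simp [h, ActivePt, fam, Fin.ext_iff, Fin.ofNat]
  · simp [h, ActivePt, fam, Fin.ext_iff, Fin.ofNat]

omit [Fact d.P.Prime] in
theorem actSet_map (x : Pairs (d.b + 1)) :
    (actSet d.pt (d.fam x)).map Fin.valEmbedding =
      (range d.N).filter (fun i => d.actN x.1.1 x.1.2 i = true) := by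
  ext i
  simp only [actSet, mem_map, mem_filter, mem_univ, true_and, mem_range, Fin.valEmbedding_apply,
    act_iff]
  constructor
  · rintro ⟨a, ha, rfl⟩
    exact ⟨a.2, ha⟩
  · rintro ⟨hi, ha⟩
    exact ⟨⟨i, hi⟩, ha, rfl⟩

theorem uVal_eq (x : Pairs (d.b + 1)) (l z : ℕ) (i : Fin d.n1)
    (hi : i = Fin.ofNat d.n1 (d.fN x.1.1 x.1.2 l)) :
    uVal d.pt (nrm d.q) d.c d.t (actSet d.pt (d.fam x))
      (fun2 (nrm d.q) (d.fam x).1 i (d.fam x).2.2.2) (z : ZMod d.P) =
      (d.uN x.1.1 x.1.2 l z : ZMod d.P) := by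
  have hneg : ((d.P - 1 : ℕ) : ZMod d.P) = -1 := by
    rw [Nat.cast_sub d.one_lt.le, ZMod.natCast_self]
    simp
  rw [uN, (d.uGo_spec _ _ z d.N).2, ← actSet_map, interpVal_map, uVal]
  congr 1
  funext a
  rw [dot_fun2_nrm, nrm_pt, nrm_pt]
  subst hi
  simp only [Function.comp_apply, Fin.valEmbedding_apply, wN, c, q, fam, Fin.val_ofNat]
  push_cast [hneg]
  ring

theorem det_of_ck (hU : d.ckU = true) (hI : d.ckI = true) :
    (sepM d.pt (nrm d.q) d.c d.t d.fam).det ≠ 0 := by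
  have hneg : ((d.P - 1 : ℕ) : ZMod d.P) = -1 := by
    rw [Nat.cast_sub d.one_lt.le, ZMod.natCast_self]
    simp
  rw [ckU, allTo_iff] at hU
  have hUA : ∀ (x : Pairs (d.b + 1)) (z : Fin (d.b + 1)),
      (d.uN x.1.1 x.1.2 1 z : ZMod d.P) = (d.UA x.1.1 x.1.2 z : ZMod d.P) ∧
      (d.uN x.1.1 x.1.2 2 z : ZMod d.P) = (d.UB x.1.1 x.1.2 z : ZMod d.P) := by
    intro x z
    have h1 := hU x.1.1 x.1.1.2
    rw [allTo_iff] at h1
    have h2 := h1 x.1.2 x.1.2.2
    rw [if_pos (by exact x.2), allTo_iff] at h2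
    have h3 := h2 z z.2
    rw [Bool.and_eq_true] at h3
    exact ⟨natCast_eq_of_mod h3.1, natCast_eq_of_mod h3.2⟩
  have hM : ∀ x z : Pairs (d.b + 1), sepM d.pt (nrm d.q) d.c d.t d.fam x z =
      (d.UA x.1.1 x.1.2 z.1.1 : ZMod d.P) * (d.UB x.1.1 x.1.2 z.1.2 : ZMod d.P) -
      (d.UA x.1.1 x.1.2 z.1.2 : ZMod d.P) * (d.UB x.1.1 x.1.2 z.1.1 : ZMod d.P) := by
    intro x z
    simp only [sepM, sepMatrix]
    rw [d.uVal_eq x 1 z.1.1 (d.fam x).2.1 rfl, d.uVal_eq x 1 z.1.2 (d.fam x).2.1 rfl,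
      d.uVal_eq x 2 z.1.1 (d.fam x).2.2.1 rfl, d.uVal_eq x 2 z.1.2 (d.fam x).2.2.1 rfl,
      (hUA x z.1.1).1, (hUA x z.1.2).1, (hUA x z.1.1).2, (hUA x z.1.2).2]
  apply Matrix.det_ne_zero_of_right_inverse
    (B := Matrix.of fun z x => (d.IN z.1.1 z.1.2 x.1.1 x.1.2 : ZMod d.P))
  ext x x'
  rw [Matrix.mul_apply]
  simp only [Matrix.of_apply]
  rw [ckI, allTo_iff] at hI
  have h1 := hI x.1.1 x.1.1.2
  rw [allTo_iff] at h1
  have h2 := h1 x.1.2 x.1.2.2
  rw [if_pos (by exact x.2), allTo_iff] at h2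
  have h3 := h2 x'.1.1 x'.1.1.2
  rw [allTo_iff] at h3
  have h4 := h3 x'.1.2 x'.1.2.2
  rw [if_pos (by exact x'.2)] at h4
  have h6 : (if (x.1.1 : ℕ) = x'.1.1 then (if (x.1.2 : ℕ) = x'.1.2 then 1 else 0) else 0 : ℕ)
      % d.P = (if (x.1.1 : ℕ) = x'.1.1 then (if (x.1.2 : ℕ) = x'.1.2 then 1 else 0) else 0) := by
    apply Nat.mod_eq_of_lt
    have := d.one_lt
    split_ifs <;> omega
  rw [← h6] at h4
  have h5 := natCast_eq_of_mod h4
  have h7 : (1 : Matrix (Pairs (d.b + 1)) (Pairs (d.b + 1)) (ZMod d.P)) x x' =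
      ((if (x.1.1 : ℕ) = x'.1.1 then (if (x.1.2 : ℕ) = x'.1.2 then 1 else 0) else 0 : ℕ) :
        ZMod d.P) := by
    rw [Matrix.one_apply]
    by_cases e1 : x.1.1 = x'.1.1
    · by_cases e2 : x.1.2 = x'.1.2
      · rw [if_pos (Subtype.ext (Prod.ext e1 e2)), if_pos (by rw [e1]), if_pos (by rw [e2])]; simp
      · rw [if_neg (fun h => e2 (by rw [h])), if_pos (by rw [e1]),
          if_neg (fun h => e2 (Fin.ext h))]; simp
    · rw [if_neg (fun h => e1 (by rw [h])), if_neg (fun h => e1 (Fin.ext h))]; simp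
  rw [h7, ← h5, sumTo_eq, Finset.sum_range]
  simp only [sumTo_eq, Finset.sum_range]
  have h8 : ∀ f : Fin (d.b + 1) → Fin (d.b + 1) → ZMod d.P,
      ∑ z : Pairs (d.b + 1), f z.1.1 z.1.2 = ∑ u, ∑ v, if u < v then f u v else 0 := by
    intro f
    rw [← Finset.sum_product', Finset.univ_product_univ, ← Finset.sum_filter,
      ← Finset.sum_subtype_eq_sum_filter (s := univ) (f := fun q : Fin (d.b + 1) × Fin (d.b + 1) =>
        f q.1 q.2) (p := fun q : Fin (d.b + 1) × Fin (d.b + 1) => q.1 < q.2)]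
    exact Finset.sum_congr (by ext q; simp) fun q _ => rfl
  have h9 := h8 (fun u v => ((d.UA x.1.1 x.1.2 u : ZMod d.P) * (d.UB x.1.1 x.1.2 v) -
    (d.UA x.1.1 x.1.2 v) * (d.UB x.1.1 x.1.2 u)) * (d.IN u v x'.1.1 x'.1.2 : ZMod d.P))
  refine (Finset.sum_congr rfl fun z _ => by rw [hM]).trans (h9.trans ?_)
  rw [Nat.cast_sum]
  refine Finset.sum_congr rfl fun u _ => ?_
  rw [Nat.cast_sum]
  refine Finset.sum_congr rfl fun v _ => ?_
  by_cases huv : u < v
  · rw [if_pos huv, if_pos (by exact huv)]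
    push_cast [hneg]
    ring
  · rw [if_neg huv, if_neg (by exact huv), Nat.cast_zero]

/-- The base solution is good. -/
theorem good_of_ck (h1 : d.ckT = true) (h2 : d.ckC = true) (h3 : d.ckRel = true)
    (h4 : ∀ e < d.m + 1, d.ckJ e = true) (h5 : d.ckU = true) (h6 : d.ckI = true) :
    Good d.m d.pt (nrm d.q) d.c d.t d.fam :=
  ⟨d.t_inj h1, d.c_ne h2, d.rel_of_ck h3, condT_of_li (d.li_of_ck h4), d.det_of_ck h5 h6⟩

end BD

end Pool.Agent.MP_04a7d6_ag
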