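import Mathlib

/-!
# (-1)-curves on blow-ups of projective space at points

Everything is expressed through a parametrisation `F = (F_0, …, F_n)` of a rational curve in
`ℙⁿ` by binary forms `F_k ∈ ℂ[u, v]` (type `MvPolynomial (Fin 2) ℂ`).
-/

open MvPolynomial
open scoped LinearAlgebra.Projectivization

namespace Pool.Agent.MP_04a7d6_ag

/-- The value `F(z) ∈ ℂⁿ⁺¹` of a vector of binary forms at `z = (z₀, z₁)`. -/
noncomputable def formVal {κ : Type*} (F : κ → MvPolynomial (Fin 2) ℂ) (z : Fin 2 → ℂ) : κ → ℂ :=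
  fun k => eval z (F k)

/-- The value at `z` of the `j`-th partial derivative (`j = 0, 1`) of a vector of binary forms. -/
noncomputable def formDeriv {κ : Type*} (F : κ → MvPolynomial (Fin 2) ℂ) (z : Fin 2 → ℂ)
    (j : Fin 2) : κ → ℂ :=
  fun k => eval z (pderiv j (F k))

/-- The span of the two partial derivatives of `F` at `z`: for an immersion this is the plane in
`ℂⁿ⁺¹` whose projectivisation is the tangent line of the parametrised curve at `z`. -/
noncomputable def tangentPlane {κ : Type*} (F : κ → MvPolynomial (Fin 2) ℂ) (z : Fin 2 → ℂ) :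
    Submodule ℂ (κ → ℂ) :=
  Submodule.span ℂ (Set.range (formDeriv F z))

/-- `IsMinusOneCurve p δ μ F`: the binary forms `F = (F_0, …, F_n)` of degree `δ` parametrise a
curve in `ℙⁿ` whose proper transform `C` in the blow-up `X` of `ℙⁿ` at the points `[p_i]` is a
`(-1)`-curve of class `δ h - ∑ μ_i e_i`.

* `immersion`: `∂F/∂u(z)`, `∂F/∂v(z)` are independent for every `z ≠ 0`, that is, `F` has no zero on
  `ℙ¹` and the map `φ = [F] : ℙ¹ → ℙⁿ` is an immersion;
* `multiplicity`: exactly `μ_i` points of `ℙ¹` are mapped to `[p_i]` (so, `φ` being an immersion,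
  the lift of `φ` to `X` meets `E_i` transversally in `μ_i` points, and `C · E_i = μ_i`);
* `embedding`: if two different points of `ℙ¹` have the same image in `ℙⁿ`, the image is one of
  the `[p_i]` and the two tangent lines of `φ` there are different (so the lift of `φ` to `X` is
  injective, and `C ≅ ℙ¹` is smooth);
* `normal`: the normal bundle. The conormal bundle `N_φ^∨` is the bundle of those
  `b ∈ 𝒪(-δ)ⁿ⁺¹` with `b · ∂F/∂u = b · ∂F/∂v = 0`; there are `n - 1` sections of it with values in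
  forms of degree `d`, where `d + δ + 1 = ∑ μ_i`, independent at every point. Hence
  `N_φ ≅ 𝒪(d + δ)ⁿ⁻¹` and `N_{C/X} = N_φ(-∑ μ_i) ≅ 𝒪(-1)ⁿ⁻¹`. -/
structure IsMinusOneCurve {n s : ℕ} (p : Fin s → Fin (n + 1) → ℂ) (δ : ℕ) (μ : Fin s → ℕ)
    (F : Fin (n + 1) → MvPolynomial (Fin 2) ℂ) : Prop where
  homogeneous : ∀ k, (F k).IsHomogeneous δ
  immersion : ∀ z : Fin 2 → ℂ, z ≠ 0 → LinearIndependent ℂ (formDeriv F z)
  multiplicity : ∀ i, {Z : ℙ ℂ (Fin 2 → ℂ) | formVal F Z.rep ∈ Submodule.span ℂ {p i}}.encard = μ i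
  embedding : ∀ Z W : ℙ ℂ (Fin 2 → ℂ), Z ≠ W →
    formVal F W.rep ∈ Submodule.span ℂ {formVal F Z.rep} →
      (∃ i, formVal F Z.rep ∈ Submodule.span ℂ {p i}) ∧
        tangentPlane F Z.rep ≠ tangentPlane F W.rep
  normal : ∃ (d : ℕ) (b : Fin (n - 1) → Fin (n + 1) → MvPolynomial (Fin 2) ℂ),
    d + δ + 1 = ∑ i, μ i ∧ (∀ i k, (b i k).IsHomogeneous d) ∧
      (∀ i, ∀ j : Fin 2, ∑ k, b i k * pderiv j (F k) = 0) ∧
        ∀ z : Fin 2 → ℂ, z ≠ 0 → LinearIndependent ℂ (fun i => formVal (b i) z)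

/-- A curve class `δ h - ∑ μ_i e_i`, written as the pair `(δ, μ)`. -/
abbrev CurveClass (s : ℕ) : Type := ℤ × (Fin s → ℤ)

/-- The standard Cremona transformation of `ℙⁿ` based at the points indexed by `Γ`, acting on curve
classes: with `t = δ - ∑_{i ∈ Γ} μ_i` it sends `(δ, μ)` to `(δ + (n - 1) t, μ + t · 1_Γ)`. -/
def cremona (n : ℕ) {s : ℕ} (Γ : Finset (Fin s)) (c : CurveClass s) : CurveClass s :=
  (c.1 + ((n : ℤ) - 1) * (c.1 - ∑ i ∈ Γ, c.2 i),
    fun i => if i ∈ Γ then c.2 i + (c.1 - ∑ i ∈ Γ, c.2 i) else c.2 i)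

/-- The Weyl group `W^n_s`: the group of permutations of the set of curve classes generated by the
standard Cremona transformations based at `n + 1` of the `s` points. -/
def weylGroup (n s : ℕ) : Subgroup (Equiv.Perm (CurveClass s)) :=
  Subgroup.closure {σ | ∃ Γ : Finset (Fin s), Γ.card = n + 1 ∧ ∀ c, σ c = cremona n Γ c}

/-- The class `h - e_i - e_j` of the line through two of the points. -/
def lineClass {s : ℕ} (i j : Fin s) : CurveClass s :=
  (1, fun k => if k = i ∨ k = j then 1 else 0)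

/-- The class `c` lies in the `W^n_s`-orbit of a class `h - e_i - e_j`, `i ≠ j` (the `(-1)`-Weyl
lines are the effective such classes). -/
def InLineOrbit (n : ℕ) {s : ℕ} (c : CurveClass s) : Prop :=
  ∃ i j : Fin s, i ≠ j ∧ ∃ σ ∈ weylGroup n s, c = σ (lineClass i j)

end Pool.Agent.MP_04a7d6_ag
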