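import Pool.Agent.MP_04a7d6_ag.Separate
import Pool.Agent.MP_04a7d6_ag.Defs

/-!
# From a solution of the residue system to a (-1)-curve
-/

open MvPolynomial Finset
open scoped LinearAlgebra.Projectivization

namespace Pool.Agent.MP_04a7d6_ag

theorem mem_span_singleton_iff {κ : Type*} (v w : κ → ℂ) :
    v ∈ Submodule.span ℂ {w} ↔ ∃ x : ℂ, ∀ k, v k = x * w k := by
  rw [Submodule.mem_span_singleton]
  constructor
  · rintro ⟨x, rfl⟩
    exact ⟨x, fun k => rfl⟩
  · rintro ⟨x, hx⟩
    exact ⟨x, (funext hx).symm⟩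

theorem cross_ne_zero_of_ne {Z W : ℙ ℂ (Fin 2 → ℂ)} (h : Z ≠ W) :
    Z.rep 0 * W.rep 1 - Z.rep 1 * W.rep 0 ≠ 0 := by
  intro hc
  apply h
  have hz := Z.rep_nonzero
  have hw := W.rep_nonzero
  rw [← Projectivization.mk_rep Z, ← Projectivization.mk_rep W]
  rw [Projectivization.mk_eq_mk_iff' ℂ _ _ hz hw]
  -- find scalar `a` with `a • W.rep = Z.rep`
  by_cases h1 : W.rep 1 = 0
  · have h0 : W.rep 0 ≠ 0 := by
      intro h0
      apply hw
      funext i
      fin_cases i
      · simpa using h0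
      · simpa using h1
    have h2 : Z.rep 1 = 0 := by
      rw [h1, mul_zero, zero_sub, neg_eq_zero] at hc
      exact (mul_eq_zero.1 hc).resolve_right h0
    refine ⟨Z.rep 0 / W.rep 0, ?_⟩
    funext i
    fin_cases i
    · simp [h0]
    · simp [h1, h2]
  · refine ⟨Z.rep 1 / W.rep 1, ?_⟩
    funext i
    fin_cases i
    · simp only [Fin.zero_eta, Pi.smul_apply, smul_eq_mul]
      field_simp
      linear_combination -hc
    · simp [h1]

/-- Main construction: a good solution of the residue system gives a `(-1)`-curve. -/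
theorem isMinusOneCurve_of_solution {n s : ℕ} {ι : Type*} [Fintype ι] [DecidableEq ι]
    (pt : ι → Fin s) (p : Fin s → Fin (n + 1) → ℂ) (c t : ι → ℂ) {m δ b : ℕ}
    (hδ : δ ≠ 0) (hN : Fintype.card ι = m + δ + 2) (hnum : (m + 1) * (n + 1) = 2 * (m + δ))
    (ht : Function.Injective t) (hc : ∀ a, c a ≠ 0) (hrel : Rel m pt p c t)
    (hT : CondT m pt p t) {Row : Type*} {act : Row → Finset ι} {α β : Row → Fin (n + 1) → ℂ}
    (hS : Sep pt p c t m b Row act α β)
    (hp : ∀ i j, ∀ x y : ℂ, y ≠ 0 → (∀ k, x * p i k = y * p j k) → i = j)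
    (μ : Fin s → ℕ) (hμ : ∀ i, (univ.filter fun a => pt a = i).card = μ i)
    (hμ0 : ∀ i, μ i ≠ 0) :
    IsMinusOneCurve p δ μ (curve pt p c t δ) := by
  obtain ⟨δ', rfl⟩ := Nat.exists_eq_succ_of_ne_zero hδ
  have hF : ∀ k, (curve pt p c t (δ' + 1) k).IsHomogeneous (δ' + 1) := fun k =>
    curve_homog pt p c t k
  have hTf := form_of_condT pt p c t ht hc hN hδ hrel hT
  have hnum' : (m + 1) * Fintype.card (Fin (n + 1)) = 2 * (m + δ' + 1) := by
    rw [Fintype.card_fin, hnum]; rfl
  have himm : ∀ z : Fin 2 → ℂ, z ≠ 0 →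
      LinearIndependent ℂ (formDeriv (curve pt p c t (δ' + 1)) z) := fun z hz =>
    immersion _ hF hTf hnum' hz
  have hsurj : ∀ i, ∃ a, pt a = i := by
    intro i
    have := hμ0 i
    rw [← hμ i] at this
    obtain ⟨a, ha⟩ := Finset.card_ne_zero.1 this
    exact ⟨a, (Finset.mem_filter.1 ha).2⟩
  have hfib : ∀ i, ∀ w : Fin 2 → ℂ, w ≠ 0 →
      (formVal (curve pt p c t (δ' + 1)) w ∈ Submodule.span ℂ {p i} ↔
        ∃ a, pt a = i ∧ w 0 = t a * w 1) := by
    intro i w hw
    rw [mem_span_singleton_iff]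
    exact fibre pt p c t hN hrel ht hc hS hp (hsurj i) hw
  refine ⟨hF, himm, ?_, ?_, ?_⟩
  · -- multiplicity
    intro i
    have hne : ∀ a : ι, (![t a, 1] : Fin 2 → ℂ) ≠ 0 := by
      intro a h
      have := congrFun h 1
      simp at this
    have hset : {Z : ℙ ℂ (Fin 2 → ℂ) |
        formVal (curve pt p c t (δ' + 1)) Z.rep ∈ Submodule.span ℂ {p i}} =
        (fun a : ι => Projectivization.mk ℂ (![t a, 1] : Fin 2 → ℂ) (hne a)) ''
          ((univ.filter fun a => pt a = i : Finset ι) : Set ι) := by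
      ext Z
      rw [Set.mem_ofPred_eq, hfib i _ Z.rep_nonzero]
      constructor
      · rintro ⟨a, ha, hza⟩
        refine ⟨a, by simpa using ha, ?_⟩
        rw [← Projectivization.mk_rep Z, Projectivization.mk_eq_mk_iff' ℂ _ _ _ Z.rep_nonzero]
        have hz1 : Z.rep 1 ≠ 0 := by
          intro h1
          apply Z.rep_nonzero
          funext i
          fin_cases i
          · simpa [h1] using hza
          · simpa using h1
        refine ⟨(Z.rep 1)⁻¹, ?_⟩
        funext i
        fin_cases i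
        · simp [hza, hz1, mul_comm]
        · simp [hz1]
      · rintro ⟨a, ha, rfl⟩
        refine ⟨a, by simpa using ha, ?_⟩
        obtain ⟨u, hu⟩ := Projectivization.exists_smul_eq_mk_rep ℂ (![t a, 1] : Fin 2 → ℂ) (hne a)
        rw [← hu]
        simp [Units.smul_def, mul_comm]
    rw [hset, Set.InjOn.encard_image]
    · rw [Set.encard_coe_eq_coe_finsetCard, hμ i]
    · intro a _ a' _ h
      rw [Projectivization.mk_eq_mk_iff' ℂ] at h
      obtain ⟨x, hx⟩ := h
      have h1 := congrFun hx 1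
      have h0 := congrFun hx 0
      simp at h1 h0
      rw [h1, one_mul] at h0
      exact ht h0.symm
  · -- embedding
    intro Z W hZW hpar
    have hcross := cross_ne_zero_of_ne hZW
    have hWne : ∃ k, eval W.rep (curve pt p c t (δ' + 1) k) ≠ 0 := by
      by_contra hall
      push Not at hall
      -- contradiction with immersion by Euler
      have hli := Fintype.linearIndependent_iff.1 (himm W.rep W.rep_nonzero) (fun j => W.rep j)
        (by
          funext k
          have hE := (hF k).sum_X_mul_pderiv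
          have := congrArg (eval W.rep) hE
          rw [map_sum] at this
          simp only [map_mul, eval_X, map_nsmul, hall k, smul_zero] at this
          simpa [formDeriv, Finset.sum_apply] using this)
      exact W.rep_nonzero (funext hli)
    obtain ⟨x, hx⟩ := (mem_span_singleton_iff _ _).1 hpar
    obtain ⟨a, y, hy⟩ := marked_of_parallel pt p c t hN hrel ht hc hS hcross hWne x hx
    have hZi : formVal (curve pt p c t (δ' + 1)) Z.rep ∈ Submodule.span ℂ {p (pt a)} :=
      (mem_span_singleton_iff _ _).2 ⟨y, hy⟩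
    refine ⟨⟨pt a, hZi⟩, ?_⟩
    obtain ⟨a1, ha1, hz1⟩ := (hfib (pt a) Z.rep Z.rep_nonzero).1 hZi
    have hWi : formVal (curve pt p c t (δ' + 1)) W.rep ∈ Submodule.span ℂ {p (pt a)} :=
      (mem_span_singleton_iff _ _).2 ⟨x * y, fun k => by
        rw [mul_assoc, ← hy k]; exact hx k⟩
    obtain ⟨a2, ha2, hw2⟩ := (hfib (pt a) W.rep W.rep_nonzero).1 hWi
    have hne1 : ∀ (z : Fin 2 → ℂ) (a : ι), z ≠ 0 → z 0 = t a * z 1 → z 1 ≠ 0 := by
      intro z a hz hza h1
      apply hz
      funext i
      fin_cases i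
      · simpa [h1] using hza
      · simpa using h1
    have htan := tangent_ne pt p c t hN hrel ht hS hcross (ha1.trans ha2.symm) hz1 hw2
      (hne1 _ _ Z.rep_nonzero hz1) (hne1 _ _ W.rep_nonzero hw2)
    intro heq
    apply htan
    have hmem : formDeriv (curve pt p c t (δ' + 1)) W.rep 0 ∈
        tangentPlane (curve pt p c t (δ' + 1)) W.rep := Submodule.subset_span ⟨0, rfl⟩
    rw [← heq] at hmem
    exact hmem
  · -- normal bundle
    have hcard : Fintype.card (Fin (n + 1)) - 2 = n - 1 := by simp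
    have hfr := frame _ hF hTf hnum'
    rw [hcard] at hfr
    obtain ⟨b, hb1, hb2, hb3⟩ := hfr
    refine ⟨m + 1, b, ?_, hb1, hb2, hb3⟩
    have hsum : ∑ i, μ i = Fintype.card ι := by
      rw [← Finset.card_univ, Finset.card_eq_sum_card_fiberwise (f := pt) (t := univ)
        (fun a _ => Finset.mem_coe.2 (Finset.mem_univ _))]
      exact Finset.sum_congr rfl fun i _ => (hμ i).symm
    rw [hsum, hN]
    omega

end Pool.Agent.MP_04a7d6_ag
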