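import Pool.Agent.MP_04a7d6_ag.Forms

/-!
# Curves with prescribed residues

`interp t s w = ∑_{a ∈ s} w_a ∏_{b ∈ s, b ≠ a} (X - t_b)`.
-/

open Polynomial Finset

namespace Pool.Agent.MP_04a7d6_ag

section ring

variable {R : Type*} [CommRing R] {ι : Type*} [DecidableEq ι]

/-- The value `∑_{a ∈ s} w_a ∏_{b ∈ s, b ≠ a} (x - t_b)`. -/
def interpVal (t : ι → R) (s : Finset ι) (w : ι → R) (x : R) : R :=
  ∑ a ∈ s, w a * ∏ b ∈ s.erase a, (x - t b)

theorem map_interpVal {S : Type*} [CommRing S] (f : R →+* S) (t : ι → R) (s : Finset ι)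
    (w : ι → R) (x : R) :
    f (interpVal t s w x) = interpVal (fun a => f (t a)) s (fun a => f (w a)) (f x) := by
  simp [interpVal, map_sum, map_prod]

/-- The polynomial `∑_{a ∈ s} w_a ∏_{b ∈ s, b ≠ a} (X - t_b)`. -/
noncomputable def interp (t : ι → R) (s : Finset ι) (w : ι → R) : R[X] :=
  ∑ a ∈ s, C (w a) * ∏ b ∈ s.erase a, (X - C (t b))

theorem eval_interp (t : ι → R) (s : Finset ι) (w : ι → R) (x : R) :
    (interp t s w).eval x = interpVal t s w x := by
  simp [interp, interpVal, eval_finsetSum, eval_prod]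

theorem eval_interp_node (t : ι → R) (s : Finset ι) (w : ι → R) {a : ι} (ha : a ∈ s) :
    (interp t s w).eval (t a) = w a * ∏ b ∈ s.erase a, (t a - t b) := by
  rw [eval_interp, interpVal, Finset.sum_eq_single a]
  · intro b _ hb
    rw [Finset.prod_eq_zero (i := a), mul_zero]
    · exact Finset.mem_erase.2 ⟨hb.symm, ha⟩
    · ring
  · intro h; exact absurd ha h

theorem interp_factor (t : ι → R) {s u : Finset ι} (hsu : s ⊆ u) (w : ι → R)
    (hw : ∀ a ∈ u, a ∉ s → w a = 0) :
    interp t u w = (∏ b ∈ u \ s, (X - C (t b))) * interp t s w := by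
  rw [interp, interp, Finset.mul_sum, ← Finset.sum_subset hsu]
  · refine Finset.sum_congr rfl fun a ha => ?_
    have : u.erase a = (u \ s) ∪ (s.erase a) := by
      ext b
      simp only [mem_erase, mem_union, mem_sdiff]
      constructor
      · rintro ⟨h1, h2⟩
        by_cases hb : b ∈ s
        · exact Or.inr ⟨h1, hb⟩
        · exact Or.inl ⟨h2, hb⟩
      · rintro (⟨h1, h2⟩ | ⟨h1, h2⟩)
        · exact ⟨fun h => h2 (h ▸ ha), h1⟩
        · exact ⟨h1, hsu h2⟩
    rw [this, Finset.prod_union]
    · ring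
    · rw [Finset.disjoint_left]
      intro b hb hb'
      exact (mem_sdiff.1 hb).2 (mem_of_mem_erase hb')
  · intro a hau has
    rw [hw a hau has]
    simp

theorem interp_sum {κ : Type*} (u : Finset κ) (t : ι → R) (s : Finset ι) (w : κ → ι → R)
    (α : κ → R) :
    ∑ k ∈ u, C (α k) * interp t s (w k) = interp t s (fun a => ∑ k ∈ u, α k * w k a) := by
  simp only [interp, Finset.mul_sum]
  rw [Finset.sum_comm]
  refine Finset.sum_congr rfl fun a _ => ?_
  rw [map_sum, Finset.sum_mul]
  refine Finset.sum_congr rfl fun k _ => ?_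
  rw [C_mul]
  ring

theorem natDegree_interp_le (t : ι → R) (s : Finset ι) (w : ι → R) :
    (interp t s w).natDegree ≤ s.card - 1 := by
  refine natDegree_sum_le_of_forall_le _ _ fun a ha => ?_
  refine (natDegree_C_mul_le _ _).trans ?_
  refine (natDegree_prod_le _ _).trans ?_
  rw [← Finset.card_erase_of_mem ha]
  refine (Finset.sum_le_card_nsmul (s.erase a) _ 1 fun i _ => natDegree_X_sub_C_le _).trans ?_
  simp

theorem X_mul_interp (t : ι → R) (s : Finset ι) (w : ι → R) (h : ∑ a ∈ s, w a = 0) :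
    X * interp t s w = interp t s (fun a => w a * t a) := by
  have h1 : X * interp t s w - interp t s (fun a => w a * t a) =
      C (∑ a ∈ s, w a) * ∏ b ∈ s, (X - C (t b)) := by
    rw [interp, interp, Finset.mul_sum, ← Finset.sum_sub_distrib, map_sum, Finset.sum_mul]
    refine Finset.sum_congr rfl fun a ha => ?_
    rw [← Finset.mul_prod_erase s _ ha, C_mul]
    ring
  rw [h, C_0, zero_mul] at h1
  exact sub_eq_zero.1 h1

theorem X_pow_mul_interp (t : ι → R) (s : Finset ι) (w : ι → R) (m : ℕ)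
    (h : ∀ e ≤ m, ∑ a ∈ s, w a * t a ^ e = 0) :
    X ^ (m + 1) * interp t s w = interp t s (fun a => w a * t a ^ (m + 1)) := by
  induction m with
  | zero =>
    have := X_mul_interp t s w (by simpa using h 0 le_rfl)
    simpa using this
  | succ m ih =>
    rw [pow_succ', mul_assoc, ih (fun e he => h e (by omega)),
      X_mul_interp t s _ (h (m + 1) le_rfl)]
    congr 1
    ext a
    ring

theorem natDegree_interp_of_rel [IsDomain R] (t : ι → R) (s : Finset ι) (w : ι → R) {m δ : ℕ}
    (hs : s.card = m + δ + 2) (h : ∀ e ≤ m, ∑ a ∈ s, w a * t a ^ e = 0) :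
    (interp t s w).natDegree ≤ δ := by
  by_cases h0 : interp t s w = 0
  · simp [h0]
  have h1 := X_pow_mul_interp t s w m h
  have h2 := natDegree_interp_le t s (fun a => w a * t a ^ (m + 1))
  rw [← h1, natDegree_mul (pow_ne_zero _ X_ne_zero) h0, natDegree_X_pow, hs] at h2
  omega

omit [DecidableEq ι] in
theorem natDegree_prod_nodes [Nontrivial R] (t : ι → R) (s : Finset ι) :
    (∏ b ∈ s, (X - C (t b))).natDegree = s.card := by
  rw [natDegree_prod_of_monic _ _ fun b _ => monic_X_sub_C _]
  simp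

theorem natDegree_interp_of_factor [IsDomain R] (t : ι → R) {s u : Finset ι} (hsu : s ⊆ u)
    (w : ι → R) (hw : ∀ a ∈ u, a ∉ s → w a = 0) {δ b : ℕ}
    (hd : (interp t u w).natDegree ≤ δ) (hb : δ ≤ b + (u \ s).card) :
    (interp t s w).natDegree ≤ b := by
  by_cases h0 : interp t s w = 0
  · simp [h0]
  rw [interp_factor t hsu w hw, natDegree_mul _ h0, natDegree_prod_nodes] at hd
  · omega
  · exact (monic_prod_of_monic _ _ fun b _ => monic_X_sub_C _).ne_zero

end ring

end Pool.Agent.MP_04a7d6_ag
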