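import Pool.Agent.MP_04a7d6_ag.Frame
import Pool.Agent.MP_04a7d6_ag.Interp

/-!
# The curve attached to a solution of the residue system
-/

open MvPolynomial Finset

namespace Pool.Agent.MP_04a7d6_ag

section nodeForm

variable {K : Type*} [Field K] {ι : Type*} [DecidableEq ι]

/-- The product of the linear forms `u - t_b v`, `b ∈ s`. -/
noncomputable def nodeForm (t : ι → K) (s : Finset ι) : MvPolynomial (Fin 2) K :=
  ∏ b ∈ s, (X 0 - C (t b) * X 1)

omit [DecidableEq ι] in
theorem nodeForm_eq (t : ι → K) (s : Finset ι) :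
    (∏ b ∈ s, (Polynomial.X - Polynomial.C (t b))).homogenize s.card = nodeForm t s := by
  have h := Polynomial.homogenize_finsetProd (s := s)
    (p := fun b => (Polynomial.X - Polynomial.C (t b))) (n := fun _ => 1)
    (fun i _ => Polynomial.natDegree_X_sub_C_le _)
  simp only [Finset.sum_const, smul_eq_mul, mul_one] at h
  rw [h, nodeForm]
  refine Finset.prod_congr rfl fun b _ => ?_
  rw [Polynomial.homogenize_sub, Polynomial.homogenize_X one_ne_zero, Polynomial.homogenize_C]
  simp

omit [DecidableEq ι] in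
theorem eval_nodeForm (t : ι → K) (s : Finset ι) (z : Fin 2 → K) :
    eval z (nodeForm t s) = ∏ b ∈ s, (z 0 - t b * z 1) := by
  simp [nodeForm, map_prod]

omit [DecidableEq ι] in
theorem eval_nodeForm_eq_zero {t : ι → K} {s : Finset ι} {z : Fin 2 → K}
    (h : eval z (nodeForm t s) = 0) : ∃ b ∈ s, z 0 = t b * z 1 := by
  rw [eval_nodeForm, Finset.prod_eq_zero_iff] at h
  obtain ⟨b, hb, h⟩ := h
  exact ⟨b, hb, sub_eq_zero.1 h⟩

omit [DecidableEq ι] in
theorem eval_nodeForm_ne_zero {t : ι → K} (ht : Function.Injective t) {s : Finset ι}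
    {z : Fin 2 → K} {a : ι} (ha : a ∉ s) (hz : z 0 = t a * z 1) (hz1 : z 1 ≠ 0) :
    eval z (nodeForm t s) ≠ 0 := by
  intro h
  obtain ⟨b, hb, h⟩ := eval_nodeForm_eq_zero h
  rw [hz] at h
  have := ht (mul_right_cancel₀ hz1 h)
  exact ha (this ▸ hb)

theorem eval_pderiv_nodeForm_ne_zero {t : ι → K} (ht : Function.Injective t) {s : Finset ι}
    {z : Fin 2 → K} {a : ι} (ha : a ∈ s) (hz : z 0 = t a * z 1) (hz1 : z 1 ≠ 0) :
    eval z (pderiv 0 (nodeForm t s)) ≠ 0 := by
  have h1 : nodeForm t s = (X 0 - C (t a) * X 1) * nodeForm t (s.erase a) := by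
    exact (Finset.mul_prod_erase s
      (fun b => (X 0 - C (t b) * X 1 : MvPolynomial (Fin 2) K)) ha).symm
  rw [h1, Derivation.leibniz]
  have h2 : eval z (X 0 - C (t a) * X 1 : MvPolynomial (Fin 2) K) = 0 := by
    simp [hz]
  have h3 : pderiv (0 : Fin 2) (X 0 - C (t a) * X 1 : MvPolynomial (Fin 2) K) = 1 := by
    rw [map_sub, Derivation.leibniz]
    simp [pderiv_X]
  rw [h3, map_add, smul_eq_mul, smul_eq_mul, map_mul, map_mul, h2, zero_mul, zero_add, map_one,
    mul_one]
  exact eval_nodeForm_ne_zero ht (Finset.notMem_erase a s) hz hz1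

end nodeForm

section curve

variable {K : Type*} [Field K] {κ Pt ι : Type*} [Fintype κ] [Fintype ι] [DecidableEq ι]

/-- The curve of degree `δ` attached to `(c, t)`. -/
noncomputable def curve (pt : ι → Pt) (p : Pt → κ → K) (c t : ι → K) (δ : ℕ) :
    κ → MvPolynomial (Fin 2) K :=
  fun k => (interp t univ (fun a => c a * p (pt a) k)).homogenize δ

/-- The residue relations. -/
def Rel {R : Type*} [CommRing R] (m : ℕ) (pt : ι → Pt) (p : Pt → κ → R) (c t : ι → R) : Prop :=
  ∀ e : Fin (m + 1), ∀ k, ∑ a, c a * t a ^ (e : ℕ) * p (pt a) k = 0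

/-- The transversality condition. -/
def CondT (m : ℕ) (pt : ι → Pt) (p : Pt → κ → K) (t : ι → K) : Prop :=
  ∀ g : κ → Polynomial K, (∀ k, (g k).natDegree ≤ m) →
    (∀ a, ∑ k, (g k).eval (t a) * p (pt a) k = 0) →
    (∀ a, ∑ k, (Polynomial.derivative (g k)).eval (t a) * p (pt a) k = 0) → g = 0

variable (pt : ι → Pt) (p : Pt → κ → K) (c t : ι → K) {m δ : ℕ}

omit [Fintype κ] in
theorem curve_homog (k : κ) : (curve pt p c t δ k).IsHomogeneous δ :=
  Polynomial.isHomogeneous_homogenize _

omit [Fintype κ] in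
theorem natDegree_coord (hN : Fintype.card ι = m + δ + 2) (hrel : Rel m pt p c t) (k : κ) :
    (interp t univ (fun a => c a * p (pt a) k)).natDegree ≤ δ := by
  refine natDegree_interp_of_rel t univ _ (m := m) (by simpa using hN) fun e he => ?_
  have := hrel ⟨e, by omega⟩ k
  rw [← this]
  exact Finset.sum_congr rfl fun a _ => by ring

/-- the nonzero factor at a node -/
noncomputable def nodeFac (c t : ι → K) (a : ι) : K := c a * ∏ b ∈ univ.erase a, (t a - t b)

theorem nodeFac_ne_zero {c t : ι → K} (ht : Function.Injective t) (hc : ∀ a, c a ≠ 0) (a : ι) :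
    nodeFac c t a ≠ 0 := by
  refine mul_ne_zero (hc a) (Finset.prod_ne_zero_iff.2 fun b hb => ?_)
  exact sub_ne_zero.2 fun h => (Finset.mem_erase.1 hb).1 (ht h).symm

omit [Fintype κ] in
theorem eval_curve_node (hN : Fintype.card ι = m + δ + 2) (hrel : Rel m pt p c t) (k : κ)
    (a : ι) {z : Fin 2 → K} (hz : z 0 = t a * z 1) (hz1 : z 1 ≠ 0) :
    eval z (curve pt p c t δ k) = z 1 ^ δ * nodeFac c t a * p (pt a) k := by
  rw [curve, Polynomial.eval_homogenize (natDegree_coord pt p c t hN hrel k) z hz1]
  rw [hz, mul_div_cancel_right₀ _ hz1, eval_interp_node _ _ _ (Finset.mem_univ a), nodeFac]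
  ring

variable [CharZero K]

/-- Condition (T) in terms of forms. -/
theorem form_of_condT (ht : Function.Injective t) (hc : ∀ a, c a ≠ 0)
    (hN : Fintype.card ι = m + δ + 2) (hδ : δ ≠ 0) (hrel : Rel m pt p c t)
    (hT : CondT m pt p t)
    (g : κ → MvPolynomial (Fin 2) K) (hg : ∀ k, (g k).IsHomogeneous m)
    (h : ∀ j, ∑ k, g k * pderiv j (curve pt p c t δ k) = 0) : g = 0 := by
  have h1 : ∑ k, g k * curve pt p c t δ k = 0 := by
    have hE : ∀ k, ∑ j, X j * pderiv j (curve pt p c t δ k) = δ • curve pt p c t δ k :=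
      fun k => (curve_homog pt p c t k).sum_X_mul_pderiv
    have h2 : δ • ∑ k, g k * curve pt p c t δ k = 0 := by
      calc δ • ∑ k, g k * curve pt p c t δ k
          = ∑ k, g k * (δ • curve pt p c t δ k) := by
            rw [Finset.smul_sum]
            exact Finset.sum_congr rfl fun k _ => (mul_smul_comm _ _ _).symm
        _ = ∑ k, g k * ∑ j, X j * pderiv j (curve pt p c t δ k) := by
            exact Finset.sum_congr rfl fun k _ => by rw [hE k]
        _ = ∑ j, X j * ∑ k, g k * pderiv j (curve pt p c t δ k) := by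
            simp only [Finset.mul_sum]
            rw [Finset.sum_comm]
            exact Finset.sum_congr rfl fun j _ => Finset.sum_congr rfl fun k _ => by ring
        _ = 0 := by simp [h]
    rw [nsmul_eq_mul] at h2
    refine (mul_eq_zero.1 h2).resolve_left ?_
    exact_mod_cast hδ
  have h3 : ∑ k, pderiv 0 (g k) * curve pt p c t δ k = 0 := by
    have := congrArg (pderiv (0 : Fin 2)) h1
    rw [map_sum, map_zero] at this
    simp only [Derivation.leibniz, smul_eq_mul] at this
    rw [Finset.sum_add_distrib, h 0, zero_add] at this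
    rw [← this]
    exact Finset.sum_congr rfl fun k _ => by ring
  have hnode : ∀ (q : κ → MvPolynomial (Fin 2) K), ∑ k, q k * curve pt p c t δ k = 0 →
      ∀ a, ∑ k, (dehom (q k)).eval (t a) * p (pt a) k = 0 := by
    intro q hq a
    have h4 := congrArg (eval ![t a, 1]) hq
    rw [map_sum, map_zero] at h4
    have h5 : ∀ k, eval ![t a, 1] (q k * curve pt p c t δ k) =
        nodeFac c t a * ((dehom (q k)).eval (t a) * p (pt a) k) := by
      intro k
      rw [map_mul, eval_curve_node pt p c t hN hrel k a (z := ![t a, 1]) (by simp) (by simp),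
        eval_dehom]
      simp
      ring
    rw [Finset.sum_congr rfl fun k _ => h5 k, ← Finset.mul_sum] at h4
    exact (mul_eq_zero.1 h4).resolve_left (nodeFac_ne_zero ht hc a)
  have h6 : (fun k => dehom (g k)) = 0 := by
    refine hT _ (fun k => natDegree_dehom (hg k)) (hnode g h1) fun a => ?_
    have := hnode _ h3 a
    rw [← this]
    exact Finset.sum_congr rfl fun k _ => by rw [derivative_dehom]
  funext k
  exact eq_zero_of_dehom (hg k) (congrFun h6 k)

/-! ### Separation of points -/

/-- The form cut out on the curve by a functional `α`, divided by its inactive zeros. -/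
noncomputable def uForm (pt : ι → Pt) (p : Pt → κ → K) (c t : ι → K) (b : ℕ) (s : Finset ι)
    (α : κ → K) : MvPolynomial (Fin 2) K :=
  (interp t s (fun a => c a * ∑ k, α k * p (pt a) k)).homogenize b

omit [CharZero K] in
theorem functional_curve (hN : Fintype.card ι = m + δ + 2) (hrel : Rel m pt p c t)
    {b : ℕ} {s : Finset ι} (hs : s.card = m + b + 2) {α : κ → K}
    (hα : ∀ a ∉ s, ∑ k, α k * p (pt a) k = 0) :
    ∑ k, C (α k) * curve pt p c t δ k = nodeForm t (univ \ s) * uForm pt p c t b s α := by
  have hcard : (univ \ s).card + s.card = m + δ + 2 := by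
    rw [Finset.card_sdiff_add_card_eq_card (Finset.subset_univ s), Finset.card_univ, hN]
  have hδ : δ = (univ \ s).card + b := by omega
  have h1 : interp t univ (fun a => c a * ∑ k, α k * p (pt a) k) =
      ∑ k, Polynomial.C (α k) * interp t univ (fun a => c a * p (pt a) k) := by
    rw [interp_sum]
    congr 1
    funext a
    rw [Finset.mul_sum]
    exact Finset.sum_congr rfl fun k _ => by ring
  have h2 : (interp t univ (fun a => c a * ∑ k, α k * p (pt a) k)).natDegree ≤ δ := by
    rw [h1]
    refine Polynomial.natDegree_sum_le_of_forall_le _ _ fun k _ => ?_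
    exact (Polynomial.natDegree_C_mul_le _ _).trans (natDegree_coord pt p c t hN hrel k)
  have hw : ∀ a ∈ (univ : Finset ι), a ∉ s → c a * ∑ k, α k * p (pt a) k = 0 :=
    fun a _ ha => by rw [hα a ha, mul_zero]
  have h3 := natDegree_interp_of_factor t (Finset.subset_univ s) _ hw h2 (b := b) (by omega)
  have h4 : ∑ k, C (α k) * curve pt p c t δ k =
      (interp t univ (fun a => c a * ∑ k, α k * p (pt a) k)).homogenize δ := by
    rw [h1, Polynomial.homogenize_finsetSum]
    exact Finset.sum_congr rfl fun k _ => by rw [Polynomial.homogenize_C_mul]; rfl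
  rw [h4, interp_factor t (Finset.subset_univ s) _ hw]
  conv_lhs => rw [hδ]
  rw [Polynomial.homogenize_mul _ _ (natDegree_prod_nodes t _).le h3, nodeForm_eq]
  rfl

/-- Separation data: a family of pairs of functionals together with active sets. -/
structure Sep (pt : ι → Pt) (p : Pt → κ → K) (c t : ι → K) (m b : ℕ) (Row : Type*)
    (act : Row → Finset ι) (α β : Row → κ → K) : Prop where
  act_congr : ∀ r a a', pt a = pt a' → (a ∈ act r ↔ a' ∈ act r)
  card_act : ∀ r, (act r).card = m + b + 2
  van_α : ∀ r, ∀ a ∉ act r, ∑ k, α r k * p (pt a) k = 0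
  van_β : ∀ r, ∀ a ∉ act r, ∑ k, β r k * p (pt a) k = 0
  sep : ∀ z w : Fin 2 → K, z 0 * w 1 - z 1 * w 0 ≠ 0 → ∃ r,
    eval z (uForm pt p c t b (act r) (α r)) * eval w (uForm pt p c t b (act r) (β r)) -
    eval w (uForm pt p c t b (act r) (α r)) * eval z (uForm pt p c t b (act r) (β r)) ≠ 0

omit [CharZero K] in
theorem functional_eval (hN : Fintype.card ι = m + δ + 2) (hrel : Rel m pt p c t)
    {b : ℕ} {s : Finset ι} (hs : s.card = m + b + 2) {α : κ → K}
    (hα : ∀ a ∉ s, ∑ k, α k * p (pt a) k = 0) (z : Fin 2 → K) :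
    ∑ k, α k * eval z (curve pt p c t δ k) =
      eval z (nodeForm t (univ \ s)) * eval z (uForm pt p c t b s α) := by
  rw [← map_mul, ← functional_curve pt p c t hN hrel hs hα]
  simp

omit [CharZero K] in
theorem functional_eval_pderiv (hN : Fintype.card ι = m + δ + 2) (hrel : Rel m pt p c t)
    {b : ℕ} {s : Finset ι} (hs : s.card = m + b + 2) {α : κ → K}
    (hα : ∀ a ∉ s, ∑ k, α k * p (pt a) k = 0) (z : Fin 2 → K)
    (hz : eval z (nodeForm t (univ \ s)) = 0) (j : Fin 2) :
    ∑ k, α k * eval z (pderiv j (curve pt p c t δ k)) =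
      eval z (pderiv j (nodeForm t (univ \ s))) * eval z (uForm pt p c t b s α) := by
  have h := congrArg (fun q => eval z (pderiv j q)) (functional_curve pt p c t hN hrel hs hα)
  simp only [Derivation.leibniz, smul_eq_mul, map_add, map_mul, hz, zero_mul, zero_add] at h
  rw [mul_comm (eval z (pderiv j _)), ← h, map_sum, map_sum]
  refine Finset.sum_congr rfl fun k _ => ?_
  rw [Derivation.leibniz]
  simp

omit [CharZero K] [Fintype ι] [DecidableEq ι] in
theorem zero_cross {z w : Fin 2 → K} {a : ι} (hz : z 0 = t a * z 1) (hw : w 0 = t a * w 1) :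
    z 0 * w 1 - z 1 * w 0 = 0 := by
  rw [hz, hw]; ring

variable {b : ℕ} {Row : Type*} {act : Row → Finset ι} {α β : Row → κ → K}

omit [CharZero K] in
/-- Two values of the curve on a common line: a node form vanishes. -/
theorem parallel_node (hN : Fintype.card ι = m + δ + 2) (hrel : Rel m pt p c t)
    (hS : Sep pt p c t m b Row act α β) (r : Row) (z w : Fin 2 → K) (v : κ → K) (x y : K)
    (hz : ∀ k, eval z (curve pt p c t δ k) = x * v k)
    (hw : ∀ k, eval w (curve pt p c t δ k) = y * v k)
    (hr : eval z (uForm pt p c t b (act r) (α r)) * eval w (uForm pt p c t b (act r) (β r)) -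
      eval w (uForm pt p c t b (act r) (α r)) * eval z (uForm pt p c t b (act r) (β r)) ≠ 0) :
    eval z (nodeForm t (univ \ act r)) * eval w (nodeForm t (univ \ act r)) = 0 := by
  have e1 := functional_eval pt p c t hN hrel (hS.card_act r) (hS.van_α r) z
  have e2 := functional_eval pt p c t hN hrel (hS.card_act r) (hS.van_β r) z
  have e3 := functional_eval pt p c t hN hrel (hS.card_act r) (hS.van_α r) w
  have e4 := functional_eval pt p c t hN hrel (hS.card_act r) (hS.van_β r) w
  have s1 : ∀ (α : κ → K), ∑ k, α k * eval z (curve pt p c t δ k) = x * ∑ k, α k * v k := by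
    intro α
    rw [Finset.mul_sum]
    exact Finset.sum_congr rfl fun k _ => by rw [hz k]; ring
  have s2 : ∀ (α : κ → K), ∑ k, α k * eval w (curve pt p c t δ k) = y * ∑ k, α k * v k := by
    intro α
    rw [Finset.mul_sum]
    exact Finset.sum_congr rfl fun k _ => by rw [hw k]; ring
  rw [s1] at e1 e2
  rw [s2] at e3 e4
  refine (mul_eq_zero.1 ?_).resolve_right hr
  linear_combination (-(x * ∑ k, α r k * v k)) * e4 -
    (eval w (nodeForm t (univ \ act r)) * eval w (uForm pt p c t b (act r) (β r))) * e1
    + (y * ∑ k, α r k * v k) * e2 +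
      (eval z (nodeForm t (univ \ act r)) * eval z (uForm pt p c t b (act r) (β r))) * e3

omit [CharZero K] [Fintype κ] in
theorem node_of_zero (hN : Fintype.card ι = m + δ + 2) (hrel : Rel m pt p c t)
    (ht : Function.Injective t) (hc : ∀ a, c a ≠ 0) {s : Finset ι} {z : Fin 2 → K} (hz0 : z ≠ 0)
    (h : eval z (nodeForm t s) = 0) :
    ∃ a ∈ s, z 0 = t a * z 1 ∧ z 1 ≠ 0 ∧ ∃ y : K, y ≠ 0 ∧
      ∀ k, eval z (curve pt p c t δ k) = y * p (pt a) k := by
  obtain ⟨a, ha, hza⟩ := eval_nodeForm_eq_zero h
  have hz1 : z 1 ≠ 0 := by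
    intro h1
    apply hz0
    funext i
    fin_cases i
    · simpa [h1] using hza
    · simpa using h1
  exact ⟨a, ha, hza, hz1, z 1 ^ δ * nodeFac c t a,
    mul_ne_zero (pow_ne_zero _ hz1) (nodeFac_ne_zero ht hc a),
    fun k => eval_curve_node pt p c t hN hrel k a hza hz1⟩

omit [CharZero K] in
/-- The fibre of the curve over a marked point. -/
theorem fibre (hN : Fintype.card ι = m + δ + 2) (hrel : Rel m pt p c t)
    (ht : Function.Injective t) (hc : ∀ a, c a ≠ 0)
    (hS : Sep pt p c t m b Row act α β)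
    (hp : ∀ i j, ∀ x y : K, y ≠ 0 → (∀ k, x * p i k = y * p j k) → i = j)
    {i : Pt} (hi : ∃ a, pt a = i) {w : Fin 2 → K} (hw0 : w ≠ 0) :
    (∃ x : K, ∀ k, eval w (curve pt p c t δ k) = x * p i k) ↔
      ∃ a, pt a = i ∧ w 0 = t a * w 1 := by
  constructor
  · rintro ⟨x, hx⟩
    obtain ⟨a, ha⟩ := hi
    by_cases hcr : t a * w 1 = w 0
    · exact ⟨a, ha, hcr.symm⟩
    have hcross : (![t a, 1] : Fin 2 → K) 0 * w 1 - (![t a, 1] : Fin 2 → K) 1 * w 0 ≠ 0 := by
      simpa [sub_eq_zero] using hcr
    obtain ⟨r, hr⟩ := hS.sep ![t a, 1] w hcross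
    have hza : ∀ k, eval ![t a, 1] (curve pt p c t δ k) = nodeFac c t a * p i k := by
      intro k
      rw [eval_curve_node pt p c t hN hrel k a (z := ![t a, 1]) (by simp) (by simp), ha]
      simp
    have key : eval w (nodeForm t (univ \ act r)) = 0 := by
      by_cases hact : a ∈ act r
      · have h1 := parallel_node pt p c t hN hrel hS r ![t a, 1] w (p i) _ _ hza hx hr
        refine (mul_eq_zero.1 h1).resolve_left ?_
        exact eval_nodeForm_ne_zero ht (a := a) (by simp [hact]) (by simp) (by simp)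
      · by_contra hne
        have e3 := functional_eval pt p c t hN hrel (hS.card_act r) (hS.van_α r) w
        have e4 := functional_eval pt p c t hN hrel (hS.card_act r) (hS.van_β r) w
        have v3 := hS.van_α r a hact
        have v4 := hS.van_β r a hact
        rw [ha] at v3 v4
        have s2 : ∀ (α : κ → K), ∑ k, α k * eval w (curve pt p c t δ k) =
            x * ∑ k, α k * p i k := by
          intro α
          rw [Finset.mul_sum]
          exact Finset.sum_congr rfl fun k _ => by rw [hx k]; ring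
        rw [s2, v3, mul_zero] at e3
        rw [s2, v4, mul_zero] at e4
        have u3 := (mul_eq_zero.1 e3.symm).resolve_left hne
        have u4 := (mul_eq_zero.1 e4.symm).resolve_left hne
        apply hr
        rw [u3, u4]; ring
    obtain ⟨a', -, hwa, -, y, hy, hy'⟩ := node_of_zero pt p c t hN hrel ht hc hw0 key
    refine ⟨a', ?_, hwa⟩
    exact (hp i (pt a') x y hy fun k => by rw [← hx k, hy' k]).symm
  · rintro ⟨a, ha, hwa⟩
    have hw1 : w 1 ≠ 0 := by
      intro h1
      apply hw0
      funext i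
      fin_cases i
      · simpa [h1] using hwa
      · simpa using h1
    exact ⟨_, fun k => by rw [eval_curve_node pt p c t hN hrel k a hwa hw1, ha]⟩

omit [CharZero K] in
/-- Two different parameters with the same image: the image is a marked point. -/
theorem marked_of_parallel (hN : Fintype.card ι = m + δ + 2) (hrel : Rel m pt p c t)
    (ht : Function.Injective t) (hc : ∀ a, c a ≠ 0)
    (hS : Sep pt p c t m b Row act α β)
    {z w : Fin 2 → K} (hcross : z 0 * w 1 - z 1 * w 0 ≠ 0)
    (hv : ∃ k, eval w (curve pt p c t δ k) ≠ 0)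
    (x : K) (hx : ∀ k, eval w (curve pt p c t δ k) = x * eval z (curve pt p c t δ k)) :
    ∃ a, ∃ y : K, ∀ k, eval z (curve pt p c t δ k) = y * p (pt a) k := by
  have hz0 : z ≠ 0 := by rintro rfl; simp at hcross
  have hw0 : w ≠ 0 := by rintro rfl; simp at hcross
  obtain ⟨r, hr⟩ := hS.sep z w hcross
  have h1 := parallel_node pt p c t hN hrel hS r z w
    (fun k => eval z (curve pt p c t δ k)) 1 x (fun k => (one_mul _).symm) hx hr
  rcases mul_eq_zero.1 h1 with h | h
  · obtain ⟨a, -, -, -, y, -, hy'⟩ := node_of_zero pt p c t hN hrel ht hc hz0 h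
    exact ⟨a, y, hy'⟩
  · obtain ⟨a, -, -, -, y, -, hy'⟩ := node_of_zero pt p c t hN hrel ht hc hw0 h
    have hx0 : x ≠ 0 := by
      rintro rfl
      obtain ⟨k, hk⟩ := hv
      exact hk (by rw [hx k, zero_mul])
    refine ⟨a, x⁻¹ * y, fun k => ?_⟩
    have := hx k
    rw [hy' k] at this
    rw [mul_assoc, this, inv_mul_cancel_left₀ hx0]

omit [CharZero K] in
/-- Different branches through a marked point have different tangent lines. -/
theorem tangent_ne (hN : Fintype.card ι = m + δ + 2) (hrel : Rel m pt p c t)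
    (ht : Function.Injective t)
    (hS : Sep pt p c t m b Row act α β)
    {z w : Fin 2 → K} (hcross : z 0 * w 1 - z 1 * w 0 ≠ 0) {a a' : ι} (haa : pt a = pt a')
    (hza : z 0 = t a * z 1) (hwa : w 0 = t a' * w 1) (hz1 : z 1 ≠ 0) (hw1 : w 1 ≠ 0) :
    (fun k => eval w (pderiv 0 (curve pt p c t δ k))) ∉
      Submodule.span K (Set.range fun j : Fin 2 => fun k : κ =>
        eval z (pderiv j (curve pt p c t δ k))) := by
  intro hmem
  obtain ⟨x, hx⟩ := (Submodule.mem_span_range_iff_exists_fun K).1 hmem
  obtain ⟨r, hr⟩ := hS.sep z w hcross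
  have hvz : ∀ k, eval z (curve pt p c t δ k) = (z 1 ^ δ * nodeFac c t a) * p (pt a) k :=
    fun k => eval_curve_node pt p c t hN hrel k a hza hz1
  have hvw : ∀ k, eval w (curve pt p c t δ k) = (w 1 ^ δ * nodeFac c t a') * p (pt a) k :=
    fun k => by rw [haa]; exact eval_curve_node pt p c t hN hrel k a' hwa hw1
  by_cases hact : a ∈ act r
  · have hact' : a' ∈ act r := (hS.act_congr r a a' haa).1 hact
    have h1 := parallel_node pt p c t hN hrel hS r z w (p (pt a)) _ _ hvz hvw hr
    rcases mul_eq_zero.1 h1 with h | h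
    · exact eval_nodeForm_ne_zero ht (a := a) (by simp [hact]) hza hz1 h
    · exact eval_nodeForm_ne_zero ht (a := a') (by simp [hact']) hwa hw1 h
  · have hact' : a' ∉ act r := fun h => hact ((hS.act_congr r a a' haa).2 h)
    have hz0 : eval z (nodeForm t (univ \ act r)) = 0 := by
      rw [eval_nodeForm, Finset.prod_eq_zero (i := a) (by simp [hact])]
      rw [hza, sub_self]
    have hw0 : eval w (nodeForm t (univ \ act r)) = 0 := by
      rw [eval_nodeForm, Finset.prod_eq_zero (i := a') (by simp [hact'])]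
      rw [hwa, sub_self]
    have hd : eval w (pderiv 0 (nodeForm t (univ \ act r))) ≠ 0 :=
      eval_pderiv_nodeForm_ne_zero ht (a := a') (by simp [hact']) hwa hw1
    have e1 := fun j => functional_eval_pderiv pt p c t hN hrel (hS.card_act r) (hS.van_α r) z hz0 j
    have e2 := fun j => functional_eval_pderiv pt p c t hN hrel (hS.card_act r) (hS.van_β r) z hz0 j
    have e3 := functional_eval_pderiv pt p c t hN hrel (hS.card_act r) (hS.van_α r) w hw0 0
    have e4 := functional_eval_pderiv pt p c t hN hrel (hS.card_act r) (hS.van_β r) w hw0 0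
    have s1 : ∀ (α : κ → K), ∑ k, α k * eval w (pderiv 0 (curve pt p c t δ k)) =
        ∑ j, x j * ∑ k, α k * eval z (pderiv j (curve pt p c t δ k)) := by
      intro α
      have h2 : ∀ k, eval w (pderiv 0 (curve pt p c t δ k)) =
          ∑ j, x j * eval z (pderiv j (curve pt p c t δ k)) := by
        intro k
        have := congrFun hx k
        simp only [Finset.sum_apply, Pi.smul_apply, smul_eq_mul] at this
        exact this.symm
      simp only [h2, Finset.mul_sum]
      rw [Finset.sum_comm]
      exact Finset.sum_congr rfl fun j _ => Finset.sum_congr rfl fun k _ => by ring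
    have f1 : ∑ j, x j * ∑ k, α r k * eval z (pderiv j (curve pt p c t δ k)) =
        (∑ j, x j * eval z (pderiv j (nodeForm t (univ \ act r)))) *
          eval z (uForm pt p c t b (act r) (α r)) := by
      rw [Finset.sum_mul]
      exact Finset.sum_congr rfl fun j _ => by rw [e1 j]; ring
    have f2 : ∑ j, x j * ∑ k, β r k * eval z (pderiv j (curve pt p c t δ k)) =
        (∑ j, x j * eval z (pderiv j (nodeForm t (univ \ act r)))) *
          eval z (uForm pt p c t b (act r) (β r)) := by
      rw [Finset.sum_mul]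
      exact Finset.sum_congr rfl fun j _ => by rw [e2 j]; ring
    rw [s1, f1] at e3
    rw [s1, f2] at e4
    apply hr
    refine (mul_eq_zero.1 ?_).resolve_left hd
    linear_combination (-eval z (uForm pt p c t b (act r) (α r))) * e4 +
      eval z (uForm pt p c t b (act r) (β r)) * e3

end curve

end Pool.Agent.MP_04a7d6_ag
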