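import Pool.Agent.MP_04a7d6_ag.Quad

/-!
# Extension of good solutions by one coordinate point
-/

open Finset

namespace Pool.Agent.MP_04a7d6_ag

section nrm

variable {R : Type*} [CommRing R] {κ ρ : Type*} [DecidableEq κ]

/-- Normalised points: the coordinate points and the points `q`. -/
def nrm (q : ρ → κ → R) : κ ⊕ ρ → κ → R := Sum.elim (fun l k => if k = l then 1 else 0) q

variable [Fintype κ]

theorem xi_nrm (q : ρ → κ → R) (i k : κ) : xi (nrm q) i k = if i = k then 1 else 0 := by
  have : ptMat (nrm q) = 1 := by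
    ext k l
    simp [ptMat, nrm, Matrix.one_apply]
  rw [xi, this, Matrix.adjugate_one, Matrix.one_apply]

theorem fun2_nrm (q : ρ → κ → R) (r : ρ) (i k l : κ) :
    fun2 (nrm q) r i k l = q r k * (if i = l then 1 else 0) - q r i * (if k = l then 1 else 0) := by
  simp only [fun2, xi_nrm]
  simp [nrm]

theorem dot_fun2_nrm (q : ρ → κ → R) (r : ρ) (i k : κ) (x : κ → R) :
    ∑ l, fun2 (nrm q) r i k l * x l = q r k * x i - q r i * x k := by
  simp [fun2_nrm, sub_mul, Finset.sum_sub_distrib]

end nrm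

section ext

variable {K : Type*} [Field K] {n1 r k : ℕ} {ι : Type*}

/-- Extended points. -/
def extPt (k : ℕ) (pt : ι → Fin n1 ⊕ Fin r) : ι ⊕ Fin k → Fin (n1 + 1) ⊕ Fin r :=
  Sum.elim (fun a => Sum.map Fin.succ id (pt a)) (fun _ => Sum.inl 0)

/-- Extended coordinates. -/
def extQ (q : Fin r → Fin n1 → K) (y : Fin r → K) : Fin r → Fin (n1 + 1) → K :=
  fun j => Fin.cons (y j) (q j)

/-- Extended family. -/
def extFam {n : ℕ} (fam : Pairs n → Fin r × Fin n1 × Fin n1 × Fin n1) :
    Pairs n → Fin r × Fin (n1 + 1) × Fin (n1 + 1) × Fin (n1 + 1) :=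
  fun x => ((fam x).1, (fam x).2.1.succ, (fam x).2.2.1.succ, (fam x).2.2.2.succ)

theorem nrm_ext_succ (q : Fin r → Fin n1 → K) (y : Fin r → K) (x : Fin n1 ⊕ Fin r) (l : Fin n1) :
    nrm (extQ q y) (Sum.map Fin.succ id x) l.succ = nrm q x l := by
  cases x <;> simp [nrm, extQ]

theorem nrm_ext_zero (q : Fin r → Fin n1 → K) (y : Fin r → K) (x : Fin n1 ⊕ Fin r) :
    nrm (extQ q y) (Sum.map Fin.succ id x) 0 = Sum.elim (fun _ => 0) y x := by
  cases x with
  | inl l => simp [nrm, (Fin.succ_ne_zero l).symm]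
  | inr j => simp [nrm, extQ]

theorem actSet_ext [Fintype ι] [DecidableEq ι] (pt : ι → Fin n1 ⊕ Fin r)
    (f : Fin r × Fin n1 × Fin n1 × Fin n1) :
    actSet (extPt k pt) (f.1, f.2.1.succ, f.2.2.1.succ, f.2.2.2.succ) =
      (actSet pt f).map ⟨Sum.inl, Sum.inl_injective⟩ := by
  ext a
  simp only [actSet, mem_filter, mem_univ, true_and, mem_map, Function.Embedding.coeFn_mk]
  cases a with
  | inl a =>
    simp only [extPt, Sum.elim_inl, Sum.inl.injEq, exists_eq_right]
    cases h : pt a <;> simp [ActivePt]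
  | inr τ =>
    simp only [extPt, Sum.elim_inr, reduceCtorEq, and_false, exists_false, iff_false]
    simp [ActivePt, (Fin.succ_ne_zero _).symm]

theorem interpVal_map {ι' : Type*} [DecidableEq ι] [DecidableEq ι'] (f : ι ↪ ι') (t : ι' → K)
    (s : Finset ι) (w : ι' → K) (x : K) :
    interpVal t (s.map f) w x = interpVal (t ∘ f) s (w ∘ f) x := by
  rw [interpVal, interpVal, Finset.sum_map]
  refine Finset.sum_congr rfl fun a _ => ?_
  rw [← Finset.map_erase, Finset.prod_map]
  rfl

theorem uVal_ext [Fintype ι] [DecidableEq ι] (pt : ι → Fin n1 ⊕ Fin r) (q : Fin r → Fin n1 → K)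
    (y : Fin r → K) (c t : ι → K) (ω s : Fin k → K) (j : Fin r) (i l : Fin n1) (x : K)
    (A : Finset ι) :
    uVal (extPt k pt) (nrm (extQ q y)) (Sum.elim c ω) (Sum.elim t s)
      (A.map ⟨Sum.inl, Sum.inl_injective⟩) (fun2 (nrm (extQ q y)) j i.succ l.succ) x =
    uVal pt (nrm q) c t A (fun2 (nrm q) j i l) x := by
  rw [uVal, uVal, interpVal_map]
  congr 1
  funext a
  simp only [Function.comp_apply, Function.Embedding.coeFn_mk, Sum.elim_inl, dot_fun2_nrm, extPt,
    nrm_ext_succ]
  simp [extQ]

theorem good_extend [Fintype ι] [DecidableEq ι] {n m : ℕ} (hm : m + 1 = 2 * k)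
    (pt : ι → Fin n1 ⊕ Fin r) (q : Fin r → Fin n1 → K) (c t : ι → K)
    (fam : Pairs n → Fin r × Fin n1 × Fin n1 × Fin n1) (h : Good m pt (nrm q) c t fam)
    (y : Fin r → K) (ω s : Fin k → K) (hs : Function.Injective s) (hω : ∀ τ, ω τ ≠ 0)
    (hst : ∀ τ a, s τ ≠ t a)
    (hrel : ∀ e < 2 * k, ∑ j, y j * (∑ a, if pt a = Sum.inr j then c a * t a ^ e else 0) +
      ∑ τ, ω τ * s τ ^ e = 0) :
    Good m (extPt k pt) (nrm (extQ q y)) (Sum.elim c ω) (Sum.elim t s) (extFam fam) := by
  refine ⟨?_, ?_, ?_, ?_, ?_⟩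
  · intro a b hab
    cases a <;> cases b <;> simp only [Sum.elim_inl, Sum.elim_inr] at hab
    · rw [h.inj hab]
    · exact absurd hab.symm (hst _ _)
    · exact absurd hab (hst _ _)
    · rw [hs hab]
  · intro a
    cases a
    · exact h.ne _
    · exact hω _
  · intro e l
    rw [Fintype.sum_sum_type]
    simp only [Sum.elim_inl, Sum.elim_inr, extPt]
    refine Fin.cases ?_ (fun l => ?_) l
    · simp only [nrm_ext_zero]
      have h1 := hrel e (by have := e.2; omega)
      refine Eq.trans ?_ h1
      congr 1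
      · simp only [Finset.mul_sum]
        rw [Finset.sum_comm]
        refine Finset.sum_congr rfl fun a _ => ?_
        cases hpa : pt a with
        | inl l => simp
        | inr j => simp [mul_comm]
      · simp [nrm]
    · simp only [nrm_ext_succ]
      have h1 := h.rel e l
      rw [h1, zero_add]
      refine Finset.sum_eq_zero fun τ _ => ?_
      simp [nrm, Fin.succ_ne_zero]
  · intro g hg h1 h2
    have h10 : ∀ (f : Fin (n1 + 1) → K), ∑ l, f l * nrm (extQ q y) (Sum.inl 0) l = f 0 := by
      intro f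
      simp [nrm]
    have hg0 : g 0 = 0 := by
      refine double_zeros hs ?_ (fun τ => ?_) (fun τ => ?_)
      · rw [Fintype.card_fin]
        have := hg 0
        omega
      · have := h1 (Sum.inr τ)
        simp only [extPt, Sum.elim_inr] at this
        rwa [h10 (fun l => (g l).eval (s τ))] at this
      · have := h2 (Sum.inr τ)
        simp only [extPt, Sum.elim_inr] at this
        rwa [h10 (fun l => (Polynomial.derivative (g l)).eval (s τ))] at this
    have hgs : (fun l : Fin n1 => g l.succ) = 0 := by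
      refine h.condT _ (fun l => hg _) (fun a => ?_) (fun a => ?_)
      · have := h1 (Sum.inl a)
        rw [Fin.sum_univ_succ, hg0] at this
        simpa [extPt, nrm_ext_succ] using this
      · have := h2 (Sum.inl a)
        rw [Fin.sum_univ_succ, hg0] at this
        simpa [extPt, nrm_ext_succ] using this
    funext l
    refine Fin.cases hg0 (fun l => ?_) l
    exact congrFun hgs l
  · have : sepM (extPt k pt) (nrm (extQ q y)) (Sum.elim c ω) (Sum.elim t s) (extFam fam) =
        sepM pt (nrm q) c t fam := by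
      ext x z
      simp only [sepM, sepMatrix, extFam, actSet_ext, uVal_ext]
    rw [this]
    exact h.det

end ext

/-- The inductive statement. -/
def Stage (K : Type) [Field K] (r m b : ℕ) (L : Fin r → ℕ → K) (n1 N : ℕ)
    (μ : Fin n1 ⊕ Fin r → ℕ) : Prop :=
  ∃ (ι : Type) (_ : Fintype ι) (_ : DecidableEq ι) (pt : ι → Fin n1 ⊕ Fin r)
    (q : Fin r → Fin n1 → K) (c t : ι → K)
    (fam : Pairs (b + 1) → Fin r × Fin n1 × Fin n1 × Fin n1),
    Good m pt (nrm q) c t fam ∧ Fintype.card ι = N ∧
    (∀ x, (actSet pt (fam x)).card = m + b + 2) ∧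
    (∀ i, (univ.filter fun a => pt a = i).card = μ i) ∧
    (∀ j e, (∑ a, if pt a = Sum.inr j then c a * t a ^ e else 0) = L j e)

theorem Stage.extend {K : Type} [Field K] {r m b k : ℕ} {L : Fin r → ℕ → K} {n1 N : ℕ}
    {μ : Fin n1 ⊕ Fin r → ℕ} (h : Stage K r m b L n1 N μ) (hm : m + 1 = 2 * k)
    (hq : ∀ S : Finset K, ∃ (y : Fin r → K) (ω s : Fin k → K), IsQuad L y ω s ∧ ∀ τ, s τ ∉ S) :
    Stage K r m b L (n1 + 1) (N + k)
      (Sum.elim (Fin.cons k (fun l => μ (Sum.inl l))) (fun j => μ (Sum.inr j))) := by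
  classical
  obtain ⟨ι, _, _, pt, q, c, t, fam, hG, hN, hact, hμ, hL⟩ := h
  obtain ⟨y, ω, s, hQ, hav⟩ := hq (univ.image t)
  refine ⟨ι ⊕ Fin k, inferInstance, inferInstance, extPt k pt, extQ q y, Sum.elim c ω,
    Sum.elim t s, extFam fam, ?_, ?_, ?_, ?_, ?_⟩
  · refine good_extend hm pt q c t fam hG y ω s hQ.inj hQ.ne ?_ ?_
    · intro τ a hτ
      exact hav τ (Finset.mem_image.2 ⟨a, Finset.mem_univ a, hτ.symm⟩)
    · intro e he
      simp only [hL]
      exact hQ.rel e he
  · rw [Fintype.card_sum, hN, Fintype.card_fin]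
  · intro x
    rw [extFam, actSet_ext, Finset.card_map]
    exact hact x
  · intro i
    have hsplit : (univ.filter fun a => extPt k pt a = i).card =
        (univ.filter fun a : ι => Sum.map Fin.succ id (pt a) = i).card +
        (univ.filter fun _ : Fin k => (Sum.inl 0 : Fin (n1 + 1) ⊕ Fin r) = i).card := by
      rw [← Finset.card_map (⟨Sum.inl, Sum.inl_injective⟩ : ι ↪ ι ⊕ Fin k),
        ← Finset.card_map (⟨Sum.inr, Sum.inr_injective⟩ : Fin k ↪ ι ⊕ Fin k),
        ← Finset.card_union_of_disjoint]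
      · congr 1
        ext a
        simp only [mem_filter, mem_univ, true_and, mem_union, mem_map,
          Function.Embedding.coeFn_mk]
        cases a <;> simp [extPt]
      · rw [Finset.disjoint_left]
        intro a ha hb
        simp only [mem_map, mem_filter, mem_univ, true_and, Function.Embedding.coeFn_mk] at ha hb
        obtain ⟨a1, -, rfl⟩ := ha
        obtain ⟨b1, -, hb1⟩ := hb
        cases hb1
    rw [hsplit]
    cases i with
    | inl l =>
      refine Fin.cases ?_ (fun l => ?_) l
      · have h1 : (univ.filter fun a : ι => Sum.map Fin.succ id (pt a) =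
            (Sum.inl 0 : Fin (n1 + 1) ⊕ Fin r)) = ∅ := by
          rw [Finset.filter_eq_empty_iff]
          intro a _
          cases pt a <;> simp [Fin.succ_ne_zero]
        rw [h1]
        simp
      · have h1 : (univ.filter fun a : ι => Sum.map Fin.succ id (pt a) =
            (Sum.inl l.succ : Fin (n1 + 1) ⊕ Fin r)) = univ.filter fun a => pt a = Sum.inl l := by
          refine Finset.filter_congr fun a _ => ?_
          cases pt a <;> simp
        rw [h1, hμ]
        simp [(Fin.succ_ne_zero l).symm]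
    | inr j =>
      have h1 : (univ.filter fun a : ι => Sum.map Fin.succ id (pt a) =
          (Sum.inr j : Fin (n1 + 1) ⊕ Fin r)) = univ.filter fun a => pt a = Sum.inr j := by
        refine Finset.filter_congr fun a _ => ?_
        cases pt a <;> simp
      rw [h1, hμ]
      simp
  · intro j e
    rw [Fintype.sum_sum_type, ← hL j e]
    have h2 : ∑ a : Fin k, (if extPt k pt (Sum.inr a) = Sum.inr j then
        Sum.elim c ω (Sum.inr a) * Sum.elim t s (Sum.inr a) ^ e else 0) = 0 :=
      Finset.sum_eq_zero fun a _ => by simp [extPt]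
    rw [h2, add_zero]
    refine Finset.sum_congr rfl fun a _ => ?_
    cases hpa : pt a <;> simp [extPt, hpa]

end Pool.Agent.MP_04a7d6_ag
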