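import Mathlib

/-!
# Binary forms

Basic linear algebra of binary forms `MvPolynomial (Fin 2) K`.
-/

open MvPolynomial

namespace Pool.Agent.MP_04a7d6_ag

variable {K : Type*} [Field K]

/-- dehomogenisation -/
noncomputable abbrev dehom (q : MvPolynomial (Fin 2) K) : Polynomial K :=
  aeval ![Polynomial.X, 1] q

theorem eval_dehom (q : MvPolynomial (Fin 2) K) (x : K) :
    (dehom q).eval x = eval ![x, 1] q := by
  have h : ((Polynomial.evalRingHom x).comp
      (aeval ![Polynomial.X, 1] : MvPolynomial (Fin 2) K →ₐ[K] Polynomial K).toRingHom) =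
      eval₂Hom (RingHom.id K) ![x, 1] := by
    apply MvPolynomial.ringHom_ext
    · intro r; simp
    · intro i; fin_cases i <;> simp
  exact congrArg (fun f => f q) h

theorem derivative_dehom (q : MvPolynomial (Fin 2) K) :
    Polynomial.derivative (dehom q) = dehom (pderiv 0 q) := by
  induction q using MvPolynomial.induction_on with
  | C a => simp
  | add p q hp hq => simp only [dehom, map_add] at *; rw [hp, hq]
  | mul_X p i hp =>
    simp only [dehom, map_mul, Derivation.leibniz, smul_eq_mul, map_add,
      Polynomial.derivative_mul] at *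
    rw [hp]
    fin_cases i <;> simp [pderiv_X] <;> ring

theorem natDegree_dehom {q : MvPolynomial (Fin 2) K} {d : ℕ} (hq : q.IsHomogeneous d) :
    (dehom q).natDegree ≤ d := by
  rw [dehom, q.as_sum, map_sum]
  refine Polynomial.natDegree_sum_le_of_forall_le _ _ fun m hm => ?_
  have hmd : m.weight 1 = d := hq (by simpa using hm)
  have h0 : m 0 + m 1 = d := by
    rw [← hmd]
    simp [Finsupp.weight_apply, Finsupp.sum_fintype, Fin.sum_univ_two]
  rw [aeval_monomial]
  simp only [Finsupp.prod_fintype, pow_zero, implies_true, Fin.prod_univ_two, Matrix.cons_val_zero,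
    Matrix.cons_val_one, one_pow, mul_one]
  refine (Polynomial.natDegree_mul_le).trans ?_
  simp only [← Polynomial.C_eq_algebraMap, Polynomial.natDegree_C, Polynomial.natDegree_X_pow]
  omega

theorem homogenize_dehom {q : MvPolynomial (Fin 2) K} {d : ℕ} (hq : q.IsHomogeneous d) :
    (dehom q).homogenize d = q :=
  Polynomial.homogenize_eq_of_isHomogeneous hq rfl

theorem eq_zero_of_dehom {q : MvPolynomial (Fin 2) K} {d : ℕ} (hq : q.IsHomogeneous d)
    (h : dehom q = 0) : q = 0 := by
  rw [← homogenize_dehom hq, h, Polynomial.homogenize_zero]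

/-- Forms of degree `d` and polynomials of degree `< d + 1`. -/
noncomputable def formEquiv (d : ℕ) :
    homogeneousSubmodule (Fin 2) K d ≃ₗ[K] Polynomial.degreeLT K (d + 1) where
  toFun q := ⟨dehom q.1, by
    rw [Polynomial.mem_degreeLT]
    have := natDegree_dehom q.2
    exact lt_of_le_of_lt Polynomial.degree_le_natDegree (by exact_mod_cast Nat.lt_succ_of_le this)⟩
  map_add' p q := by ext1; simp [dehom]
  map_smul' r q := by ext1; simp [dehom]
  invFun p := ⟨p.1.homogenize d, Polynomial.isHomogeneous_homogenize _⟩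
  left_inv q := by ext1; exact homogenize_dehom q.2
  right_inv p := by
    ext1
    have : p.1.natDegree ≤ d := by
      by_cases h : p.1 = 0
      · simp [h]
      · have := (Polynomial.mem_degreeLT.1 p.2)
        rw [Polynomial.degree_eq_natDegree h] at this
        exact Nat.lt_succ_iff.1 (by exact_mod_cast this)
    exact Polynomial.aeval_homogenize_X_one _ this

theorem finrank_forms (d : ℕ) :
    Module.finrank K (homogeneousSubmodule (Fin 2) K d) = d + 1 := by
  rw [(formEquiv d).finrank_eq, (Polynomial.degreeLTEquiv K (d + 1)).finrank_eq]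
  simp

instance finite_forms (d : ℕ) : Module.Finite K (homogeneousSubmodule (Fin 2) K d) :=
  Module.Finite.equiv ((formEquiv d).trans (Polynomial.degreeLTEquiv K (d + 1))).symm

/-- The linear form vanishing at `z`. -/
noncomputable def lin (z : Fin 2 → K) : MvPolynomial (Fin 2) K :=
  C (z 1) * X 0 - C (z 0) * X 1

theorem lin_homog (z : Fin 2 → K) : (lin z).IsHomogeneous 1 :=
  ((isHomogeneous_C_mul_X _ _).sub (isHomogeneous_C_mul_X _ _))

theorem lin_ne_zero {z : Fin 2 → K} (hz : z ≠ 0) : lin z ≠ 0 := by
  intro h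
  apply hz
  have h0 := congrArg (eval ![1, 0]) h
  have h1 := congrArg (eval ![0, 1]) h
  simp [lin] at h0 h1
  ext i
  fin_cases i
  · simpa using h1
  · simpa using h0

/-- Some form of degree `d` does not vanish at `z`. -/
theorem exists_form_ne {z : Fin 2 → K} (hz : z ≠ 0) (d : ℕ) :
    ∃ q : MvPolynomial (Fin 2) K, q.IsHomogeneous d ∧ eval z q ≠ 0 := by
  have : ∃ i, z i ≠ 0 := by
    by_contra h
    push Not at h
    exact hz (funext h)
  obtain ⟨i, hi⟩ := this
  exact ⟨X i ^ d, by simpa using isHomogeneous_X_pow i d, by simpa using pow_ne_zero _ hi⟩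

/-- A form of positive degree vanishing at `z ≠ 0` is divisible by the linear form at `z`. -/
theorem exists_factor {z : Fin 2 → K} (hz : z ≠ 0) {d : ℕ} {q : MvPolynomial (Fin 2) K}
    (hq : q.IsHomogeneous (d + 1)) (h0 : eval z q = 0) :
    ∃ g : MvPolynomial (Fin 2) K, g.IsHomogeneous d ∧ q = lin z * g := by
  classical
  -- multiplication by `lin z`
  let L : homogeneousSubmodule (Fin 2) K d →ₗ[K] homogeneousSubmodule (Fin 2) K (d + 1) :=
    { toFun := fun g => ⟨lin z * g.1, by
        have := (lin_homog z).mul g.2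
        rwa [add_comm] at this⟩
      map_add' := fun a b => by ext1; simp [mul_add]
      map_smul' := fun r a => by ext1; simp }
  let E : homogeneousSubmodule (Fin 2) K (d + 1) →ₗ[K] K :=
    (aeval z : MvPolynomial (Fin 2) K →ₐ[K] K).toLinearMap.comp
      (homogeneousSubmodule (Fin 2) K (d + 1)).subtype
  have hE : ∀ g, E g = eval z g.1 := fun g => by
    simp [E, MvPolynomial.coe_aeval_eq_eval]
  have hLinj : Function.Injective L := by
    rw [← LinearMap.ker_eq_bot, LinearMap.ker_eq_bot']
    intro g hg
    have : lin z * g.1 = 0 := congrArg Subtype.val hg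
    ext1
    exact (mul_eq_zero.1 this).resolve_left (lin_ne_zero hz)
  have hEsurj : Function.Surjective E := by
    obtain ⟨f, hf, hf0⟩ := exists_form_ne hz (d + 1)
    refine (LinearMap.surjective_of_ne_zero (f := E) ?_)
    intro h
    exact hf0 (by rw [← hE ⟨f, hf⟩, h]; rfl)
  have hle : LinearMap.range L ≤ LinearMap.ker E := by
    rintro _ ⟨g, rfl⟩
    rw [LinearMap.mem_ker, hE]
    simp [L, lin, mul_comm]
  have hfr : Module.finrank K (LinearMap.range L) = Module.finrank K (LinearMap.ker E) := by
    rw [LinearMap.finrank_range_of_inj hLinj, finrank_forms]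
    have h1 := E.finrank_range_add_finrank_ker
    rw [LinearMap.range_eq_top.2 hEsurj, finrank_top, Module.finrank_self, finrank_forms] at h1
    omega
  have heq := Submodule.eq_of_le_of_finrank_eq hle hfr
  have hmem : (⟨q, hq⟩ : homogeneousSubmodule (Fin 2) K (d + 1)) ∈ LinearMap.ker E := by
    rw [LinearMap.mem_ker, hE]
    exact h0
  rw [← heq] at hmem
  obtain ⟨g, hg⟩ := hmem
  exact ⟨g.1, g.2, (congrArg Subtype.val hg).symm⟩

end Pool.Agent.MP_04a7d6_ag
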