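import Pool.Agent.MP_04a7d6_ag.Forms

/-!
# Immersion and conormal frame from injectivity in degree `m`
-/

open MvPolynomial

namespace Pool.Agent.MP_04a7d6_ag

variable {K : Type*} [Field K] {κ : Type*} [Fintype κ]

theorem exists_li_ker {M N : Type*} [AddCommGroup M] [Module K M] [AddCommGroup N] [Module K N]
    [Module.Finite K M] (f : M →ₗ[K] N) {r : ℕ} (h : r + Module.finrank K N ≤ Module.finrank K M)
    [Module.Finite K N] :
    ∃ v : Fin r → M, LinearIndependent K v ∧ ∀ i, f (v i) = 0 := by
  have hdim : r ≤ Module.finrank K (LinearMap.ker f) := by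
    have h1 := f.finrank_range_add_finrank_ker
    have h2 := Submodule.finrank_le (LinearMap.range f)
    omega
  obtain ⟨v, hv⟩ := exists_linearIndependent_of_le_finrank hdim
  refine ⟨fun i => (v i).1, ?_, fun i => LinearMap.mem_ker.1 (v i).2⟩
  exact hv.map' (LinearMap.ker f).subtype (Submodule.ker_subtype _)

/-- The map `g ↦ (∑ g_k ∂_j F_k)_j` on vectors of forms of degree `d`. -/
noncomputable def Phi (F : κ → MvPolynomial (Fin 2) K) {δ : ℕ}
    (hF : ∀ k, (F k).IsHomogeneous (δ + 1)) (d : ℕ) :
    (κ → homogeneousSubmodule (Fin 2) K d) →ₗ[K]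
      (Fin 2 → homogeneousSubmodule (Fin 2) K (d + δ)) where
  toFun g j := ⟨∑ k, (g k).1 * pderiv j (F k), by
    refine IsHomogeneous.sum _ _ _ fun k _ => ?_
    exact (g k).2.mul (by simpa using (hF k).pderiv (i := j))⟩
  map_add' a b := by
    ext j : 2
    simp [add_mul, Finset.sum_add_distrib]
  map_smul' r a := by
    ext j : 2
    simp [Finset.smul_sum]

theorem Phi_apply (F : κ → MvPolynomial (Fin 2) K) {δ : ℕ}
    (hF : ∀ k, (F k).IsHomogeneous (δ + 1)) (d : ℕ)
    (g : κ → homogeneousSubmodule (Fin 2) K d) (j : Fin 2) :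
    (Phi F hF d g j).1 = ∑ k, (g k).1 * pderiv j (F k) := rfl

variable (F : κ → MvPolynomial (Fin 2) K) {δ m : ℕ} (hF : ∀ k, (F k).IsHomogeneous (δ + 1))
  (hT : ∀ g : κ → MvPolynomial (Fin 2) K, (∀ k, (g k).IsHomogeneous m) →
    (∀ j, ∑ k, g k * pderiv j (F k) = 0) → g = 0)

include hT in
theorem Phi_injective : Function.Injective (Phi F hF m) := by
  rw [← LinearMap.ker_eq_bot, LinearMap.ker_eq_bot']
  intro g hg
  have := hT (fun k => (g k).1) (fun k => (g k).2) (fun j => by
    rw [← Phi_apply F hF m g j, hg]; rfl)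
  ext k : 2
  exact congrFun this k

theorem finrank_source (d : ℕ) :
    Module.finrank K (κ → homogeneousSubmodule (Fin 2) K d) = Fintype.card κ * (d + 1) := by
  rw [Module.finrank_pi_fintype]
  simp [finrank_forms]

theorem finrank_target (d : ℕ) :
    Module.finrank K (Fin 2 → homogeneousSubmodule (Fin 2) K d) = 2 * (d + 1) := by
  rw [Module.finrank_pi_fintype]
  simp [finrank_forms]

include hF hT in
/-- The map is an immersion. -/
theorem immersion (hnum : (m + 1) * Fintype.card κ = 2 * (m + δ + 1))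
    {z : Fin 2 → K} (hz : z ≠ 0) :
    LinearIndependent K (fun j : Fin 2 => fun k : κ => eval z (pderiv j (F k))) := by
  have hsurj : Function.Surjective (Phi F hF m) := by
    refine (LinearMap.injective_iff_surjective_of_finrank_eq_finrank ?_).1
      (Phi_injective F hF hT)
    rw [finrank_source, finrank_target, ← hnum]
    ring
  rw [Fintype.linearIndependent_iff]
  intro c hc j0
  obtain ⟨q, hq, hq0⟩ := exists_form_ne hz (m + δ)
  -- the vector of forms equal to `q` at place `j0`
  obtain ⟨g, hg⟩ := hsurj (fun j => if j = j0 then ⟨q, hq⟩ else 0)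
  have h1 : ∑ j, c j * eval z (Phi F hF m g j).1 = 0 := by
    simp only [Phi_apply, map_sum, map_mul, Finset.mul_sum]
    rw [Finset.sum_comm]
    refine Finset.sum_eq_zero fun k _ => ?_
    have := congrFun hc k
    simp only [Finset.sum_apply, Pi.smul_apply, smul_eq_mul, Pi.zero_apply] at this
    calc ∑ j, c j * (eval z (g k).1 * eval z (pderiv j (F k)))
        = eval z (g k).1 * ∑ j, c j * eval z (pderiv j (F k)) := by
          rw [Finset.mul_sum]
          exact Finset.sum_congr rfl fun j _ => by ring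
      _ = 0 := by rw [this, mul_zero]
  rw [hg, Finset.sum_eq_single j0] at h1
  · simp only [if_true] at h1
    exact (mul_eq_zero.1 h1).resolve_right hq0
  · intro j _ hj
    simp [hj]
  · simp

include hF hT in
/-- A pointwise independent family of syzygies of degree `m + 1`. -/
theorem frame (hnum : (m + 1) * Fintype.card κ = 2 * (m + δ + 1)) :
    ∃ b : Fin (Fintype.card κ - 2) → κ → MvPolynomial (Fin 2) K,
      (∀ i k, (b i k).IsHomogeneous (m + 1)) ∧
      (∀ i j, ∑ k, b i k * pderiv j (F k) = 0) ∧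
      ∀ z : Fin 2 → K, z ≠ 0 → LinearIndependent K (fun i => fun k => eval z (b i k)) := by
  obtain ⟨v, hv, hv0⟩ := exists_li_ker (Phi F hF (m + 1)) (r := Fintype.card κ - 2) (by
    rw [finrank_target, finrank_source]
    have h3 : Fintype.card κ * (m + 1 + 1) = (m + 1) * Fintype.card κ + Fintype.card κ := by ring
    rw [h3, hnum]
    have h4 : 2 ≤ Fintype.card κ := by
      by_contra h
      have : (m + 1) * Fintype.card κ ≤ (m + 1) * 1 := Nat.mul_le_mul_left _ (by omega)
      omega
    omega)
  have hsyz : ∀ u : κ → homogeneousSubmodule (Fin 2) K (m + 1), Phi F hF (m + 1) u = 0 →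
      ∀ j, ∑ k, (u k).1 * pderiv j (F k) = 0 := by
    intro u hu j
    rw [← Phi_apply F hF (m + 1) u j, hu]
    rfl
  refine ⟨fun i k => (v i k).1, fun i k => (v i k).2, fun i j => hsyz _ (hv0 i) j,
    fun z hz => ?_⟩
  rw [Fintype.linearIndependent_iff]
  intro c hc
  -- the combination
  have hwex : ∃ w : κ → homogeneousSubmodule (Fin 2) K (m + 1), w = ∑ i, c i • v i := ⟨_, rfl⟩
  obtain ⟨w, hw⟩ := hwex
  have hwPhi : Phi F hF (m + 1) w = 0 := by
    rw [hw, map_sum]
    exact Finset.sum_eq_zero fun i _ => by rw [map_smul, hv0, smul_zero]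
  have hwk : ∀ k, ((w k).1 : MvPolynomial (Fin 2) K) = ∑ i, C (c i) * (v i k).1 := by
    intro k
    rw [hw]
    simp [Finset.sum_apply, MvPolynomial.smul_eq_C_mul]
  have hw0 : ∀ k, eval z (w k).1 = 0 := by
    intro k
    rw [hwk]
    have := congrFun hc k
    simpa [Finset.sum_apply] using this
  have hfac : ∀ k, ∃ g : MvPolynomial (Fin 2) K, g.IsHomogeneous m ∧ (w k).1 = lin z * g :=
    fun k => exists_factor hz (w k).2 (hw0 k)
  choose g hg1 hg2 using hfac
  have hgz : g = 0 := by
    refine hT g hg1 fun j => ?_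
    have h3 := hsyz w hwPhi j
    have h4 : lin z * ∑ k, g k * pderiv j (F k) = 0 := by
      rw [Finset.mul_sum, ← h3]
      refine Finset.sum_congr rfl fun k _ => ?_
      rw [hg2 k, mul_assoc]
    exact (mul_eq_zero.1 h4).resolve_left (lin_ne_zero hz)
  have hw1 : w = 0 := by
    funext k
    apply Subtype.ext
    rw [hg2 k, hgz]
    simp
  exact (Fintype.linearIndependent_iff.1 hv) c (by rw [← hw, hw1])

end Pool.Agent.MP_04a7d6_ag
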