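import Pool.Agent.MP_04a7d6_ag.Generic

/-!
# (-1)-curves through general points from one good solution
-/

open MvPolynomial Finset

namespace Pool.Agent.MP_04a7d6_ag

/-- The polynomial whose non-vanishing says that two points are different. -/
noncomputable def minor {s n : ℕ} (i j : Fin s) : MvPolynomial (Fin s × Fin (n + 2)) ℂ :=
  X (i, 0) * X (j, 1) - X (i, 1) * X (j, 0)

theorem minor_ne_zero {s n : ℕ} {i j : Fin s} (h : i ≠ j) :
    (minor i j : MvPolynomial (Fin s × Fin (n + 2)) ℂ) ≠ 0 := by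
  intro h0
  have h1 := congrArg (eval (fun x : Fin s × Fin (n + 2) =>
    if x = (i, 0) ∨ x = (j, 1) then (1 : ℂ) else 0)) h0
  simp [minor, h, h.symm] at h1

/-- **General existence theorem.** -/
theorem general_curve {K : Type} [Field K] {n r m δ b : ℕ} {ι : Type} [Fintype ι] [DecidableEq ι]
    (pt : ι → Fin (n + 2) ⊕ Fin r) (p : Fin (n + 2) ⊕ Fin r → Fin (n + 2) → K) (c t : ι → K)
    (fam : Pairs (b + 1) → Fin r × Fin (n + 2) × Fin (n + 2) × Fin (n + 2))
    (h : Good m pt p c t fam) (hb : b ≠ 0) (hδ : δ ≠ 0)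
    (hN : Fintype.card ι = m + δ + 2) (hnum : (m + 1) * (n + 2) = 2 * (m + δ))
    (hcard : ∀ x, (actSet pt (fam x)).card = m + b + 2)
    (μ : Fin (n + 2) ⊕ Fin r → ℕ) (hμ : ∀ i, (univ.filter fun a => pt a = i).card = μ i)
    (hμ0 : ∀ i, μ i ≠ 0) :
    ∃ G : MvPolynomial (Fin (n + 2 + r) × Fin (n + 2)) ℂ, G ≠ 0 ∧
      ∀ q : Fin (n + 2 + r) → Fin (n + 2) → ℂ, eval (fun x => q x.1 x.2) G ≠ 0 →
        ∃ F, IsMinusOneCurve q δ (μ ∘ finSumFinEquiv.symm) F := by
  classical
  obtain ⟨G, hG0, hG⟩ := good_spread pt p c t fam h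
  refine ⟨rename (fun x : (Fin (n + 2) ⊕ Fin r) × Fin (n + 2) => (finSumFinEquiv x.1, x.2))
      (map (Int.castRingHom ℂ) G) *
      ∏ i : Fin (n + 2 + r), ∏ j ∈ univ.erase i, minor i j, ?_, ?_⟩
  · refine mul_ne_zero ?_ ?_
    · intro h0
      apply hG0
      apply map_injective (Int.castRingHom ℂ) (Int.cast_injective)
      rw [map_zero]
      apply rename_injective (fun x : (Fin (n + 2) ⊕ Fin r) × Fin (n + 2) =>
        (finSumFinEquiv x.1, x.2))
      · intro x y hxy
        simp only [Prod.mk.injEq, EmbeddingLike.apply_eq_iff_eq] at hxy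
        exact Prod.ext hxy.1 hxy.2
      · rw [h0, map_zero]
    · exact Finset.prod_ne_zero_iff.2 fun i _ => Finset.prod_ne_zero_iff.2 fun j hj =>
        minor_ne_zero (Finset.mem_erase.1 hj).1.symm
  · intro q hq
    rw [map_mul, map_prod] at hq
    have hq1 := left_ne_zero_of_mul hq
    have hq2 := right_ne_zero_of_mul hq
    have hmin : ∀ i j, i ≠ j → q i 0 * q j 1 - q i 1 * q j 0 ≠ 0 := by
      intro i j hij
      have h1 := (Finset.prod_ne_zero_iff.1 hq2) i (Finset.mem_univ i)
      rw [map_prod] at h1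
      have h2 := (Finset.prod_ne_zero_iff.1 h1) j (Finset.mem_erase.2 ⟨hij.symm, mem_univ j⟩)
      simpa [minor] using h2
    have hq3 : aeval (fun x : (Fin (n + 2) ⊕ Fin r) × Fin (n + 2) =>
        (fun i k => q (finSumFinEquiv i) k) x.1 x.2) G ≠ 0 := by
      intro h0
      apply hq1
      rw [eval_rename, eval_map, ← h0, aeval_def]
      rfl
    obtain ⟨c', t', hgood⟩ := hG ℂ (fun i k => q (finSumFinEquiv i) k) hq3
    refine ⟨curve (fun a => finSumFinEquiv (pt a)) q c' t' δ, ?_⟩
    refine isMinusOneCurve_of_solution (fun a => finSumFinEquiv (pt a)) q c' t' (m := m) (b := b)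
      hδ hN hnum hgood.inj hgood.ne hgood.rel hgood.condT
      (Row := Pairs (b + 1)) (act := fun x => actSet pt (fam x))
      (α := fun x => fun2 (fun i k => q (finSumFinEquiv i) k) (fam x).1 (fam x).2.1
        (fam x).2.2.2)
      (β := fun x => fun2 (fun i k => q (finSumFinEquiv i) k) (fam x).1 (fam x).2.2.1
        (fam x).2.2.2) ?_ ?_ _ ?_ ?_
    · refine ⟨?_, hcard, ?_, ?_, ?_⟩
      · intro x a a' haa
        have : pt a = pt a' := finSumFinEquiv.injective haa
        simp [actSet, this]
      · intro x a ha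
        exact van_fun2_i pt (fun i k => q (finSumFinEquiv i) k) (fam x) a ha
      · intro x a ha
        exact van_fun2_j pt (fun i k => q (finSumFinEquiv i) k) (fam x) a ha
      · intro z w hzw
        exact sep_of_det pt (fun i k => q (finSumFinEquiv i) k) c' t' hb hN hgood.rel
          (fun x => actSet pt (fam x)) _ _ hcard
          (fun x a ha => van_fun2_i pt (fun i k => q (finSumFinEquiv i) k) (fam x) a ha)
          (fun x a ha => van_fun2_j pt (fun i k => q (finSumFinEquiv i) k) (fam x) a ha)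
          hgood.det hzw
    · intro i j x y hy hxy
      by_contra hij
      apply hmin i j hij
      have h0 := hxy 0
      have h1 := hxy 1
      have : y * (q i 0 * q j 1 - q i 1 * q j 0) = 0 := by
        linear_combination (q i 1) * h0 - (q i 0) * h1
      exact (mul_eq_zero.1 this).resolve_left hy
    · intro i
      rw [Function.comp_apply, ← hμ]
      congr 1
      ext a
      simp [Equiv.eq_symm_apply]
    · intro i
      exact hμ0 _

end Pool.Agent.MP_04a7d6_ag
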