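import Mathlib

/-!
# Spreading out solutions of a square-like polynomial system

If a system of polynomial equations over a domain `A` has, over some field, a solution at which the
Jacobian has full row rank and an auxiliary polynomial `D` does not vanish, then over every
algebraically closed field, and for every specialisation of `A` outside the zero locus of one
nonzero `G : A`, there is such a solution.
-/

open MvPolynomial

namespace Pool.Agent.MP_04a7d6_ag

/-- A matrix over a field with linearly independent rows has an invertible maximal minor. -/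
theorem exists_pivot {K : Type*} [Field K] {ρ σ : Type*} [Fintype ρ] [DecidableEq ρ]
    [Fintype σ] (M : Matrix ρ σ K) (h : LinearIndependent K M.row) :
    ∃ a : ρ → σ, Function.Injective a ∧ (M.submatrix id a).det ≠ 0 := by
  classical
  have hr : M.rank = Fintype.card ρ := h.rank_matrix
  obtain ⟨κ, a, ha, hspan, hli⟩ := exists_linearIndependent' K M.col
  have hfin : Finite κ := Finite.of_injective a ha
  have : Fintype κ := Fintype.ofFinite κ
  have hcard : Fintype.card κ = Fintype.card ρ := by
    rw [← hr, Matrix.rank_eq_finrank_span_cols, ← hspan]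
    rw [finrank_span_eq_card hli]
  obtain ⟨e⟩ := Fintype.card_eq.1 hcard
  refine ⟨a ∘ e.symm, ha.comp e.symm.injective, ?_⟩
  have h2 : LinearIndependent K (M.submatrix id (a ∘ e.symm)).col := by
    have : (M.submatrix id (a ∘ e.symm)).col = (M.col ∘ a) ∘ e.symm := by
      ext i j; rfl
    rw [this]
    exact hli.comp _ e.symm.injective
  have h3 := Matrix.linearIndependent_cols_iff_isUnit.1 h2
  have h4 := (Matrix.isUnit_iff_isUnit_det _).1 h3
  exact h4.ne_zero

theorem rows_of_minor {K : Type*} [Field K] {ρ σ : Type*} [Fintype ρ] [DecidableEq ρ]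
    [Fintype σ] (M : Matrix ρ σ K) (a : ρ → σ) (h : (M.submatrix id a).det ≠ 0) :
    LinearIndependent K M.row := by
  have h3 : IsUnit (M.submatrix id a) :=
    (Matrix.isUnit_iff_isUnit_det _).2 (isUnit_iff_ne_zero.2 h)
  have h4 := Matrix.linearIndependent_rows_iff_isUnit.2 h3
  let f : (σ → K) →ₗ[K] (ρ → K) := LinearMap.funLeft K K a
  have : (M.submatrix id a).row = f ∘ M.row := by
    ext i j; rfl
  rw [this] at h4
  exact h4.of_comp f

section smooth

variable {A : Type} [CommRing A] {σ ρ : Type} [Fintype σ] [Fintype ρ] [DecidableEq ρ]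

/-- The localised quotient algebra is standard smooth. -/
theorem standardSmooth (v : ρ → MvPolynomial σ A) (a : ρ → σ) (ha : Function.Injective a)
    (D : MvPolynomial σ A) (T : Type) [CommRing T]
    [Algebra (MvPolynomial σ A ⧸ Ideal.span (Set.range v)) T]
    [Algebra A T] [IsScalarTower A (MvPolynomial σ A ⧸ Ideal.span (Set.range v)) T]
    [IsLocalization.Away (Ideal.Quotient.mk (Ideal.span (Set.range v))
      ((Matrix.of fun i j => pderiv (a i) (v j)).det * D)) T] :
    Algebra.IsStandardSmooth A T := by
  classical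
  let P : Algebra.PreSubmersivePresentation A
    (MvPolynomial σ A ⧸ Ideal.span (Set.range v)) σ ρ :=
      Algebra.PreSubmersivePresentation.naive a ha
  let Q := Algebra.PreSubmersivePresentation.localizationAway T
    (Ideal.Quotient.mk (Ideal.span (Set.range v))
      ((Matrix.of fun i j => pderiv (a i) (v j)).det * D))
  have hP : P.jacobian = Ideal.Quotient.mk (Ideal.span (Set.range v))
      ((Matrix.of fun i j => pderiv (a i) (v j)).det) := by
    rw [Algebra.PreSubmersivePresentation.jacobian_eq_jacobiMatrix_det]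
    rw [Algebra.Generators.algebraMap_apply]
    have h1 : P.jacobiMatrix = (Matrix.of fun i j => pderiv (a i) (v j)) := by
      ext i j : 2
      rw [Algebra.PreSubmersivePresentation.jacobiMatrix_naive]
      rfl
    rw [h1]
    have h2 : ∀ x : MvPolynomial σ A, aeval P.val x = Ideal.Quotient.mk _ x := by
      intro x
      have : (aeval P.val : MvPolynomial σ A →ₐ[A] _) =
          (Ideal.Quotient.mkₐ A (Ideal.span (Set.range v))) := by
        ext i
        simp [P, Algebra.PreSubmersivePresentation.naive]
      rw [this]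
      rfl
    exact h2 _
  have hJ : IsUnit (Q.comp P).jacobian := by
    rw [Algebra.PreSubmersivePresentation.comp_jacobian_eq_jacobian_smul_jacobian,
      Algebra.smul_def, IsUnit.mul_iff]
    constructor
    · rw [hP]
      have := IsLocalization.Away.algebraMap_isUnit (S := T)
        (Ideal.Quotient.mk (Ideal.span (Set.range v))
          ((Matrix.of fun i j => pderiv (a i) (v j)).det * D))
      rw [map_mul, map_mul] at this
      exact (IsUnit.mul_iff.1 this).1
    · exact (Algebra.SubmersivePresentation.localizationAway T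
        (Ideal.Quotient.mk (Ideal.span (Set.range v))
          ((Matrix.of fun i j => pderiv (a i) (v j)).det * D))).jacobian_isUnit
  let R : Algebra.SubmersivePresentation A T (Unit ⊕ σ) (Unit ⊕ ρ) :=
    { toPreSubmersivePresentation := Q.comp P
      jacobian_isUnit := hJ }
  exact R.isStandardSmooth

end smooth

/-- Weak Nullstellensatz in algebra form. -/
theorem exists_algHom_of_nontrivial (k B L : Type) [Field k] [CommRing B] [Algebra k B]
    [Nontrivial B] [Algebra.FiniteType k B] [Field L] [IsAlgClosed L] [Algebra k L] :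
    Nonempty (B →ₐ[k] L) := by
  obtain ⟨M, hM⟩ := Ideal.exists_maximal B
  let : Field (B ⧸ M) := Ideal.Quotient.field M
  have hfin : Module.Finite k (B ⧸ M) := finite_of_finite_type_of_isJacobsonRing _ _
  have : Algebra.IsAlgebraic k (B ⧸ M) := Algebra.IsAlgebraic.of_finite k (B ⧸ M)
  let θ : (B ⧸ M) →ₐ[k] L := IsAlgClosed.lift
  exact ⟨θ.comp (Ideal.Quotient.mkₐ k M)⟩

open TensorProduct in
/-- A point of the spectrum in the image of a finite type algebra lifts to any algebraically closed
field. -/
theorem exists_hom_of_mem_range {A T L : Type} [CommRing A] [CommRing T] [Algebra A T]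
    [Algebra.FiniteType A T] [Field L] [IsAlgClosed L] (ψ : A →+* L) (P : PrimeSpectrum A)
    (hP : P.asIdeal = RingHom.ker ψ)
    (h : P ∈ Set.range (PrimeSpectrum.comap (algebraMap A T))) :
    ∃ χ : T →+* L, χ.comp (algebraMap A T) = ψ := by
  have hn : Nontrivial (P.asIdeal.ResidueField ⊗[A] T) :=
    (PrimeSpectrum.nontrivial_iff_mem_rangeComap P).2 h
  let ι : P.asIdeal.ResidueField →+* L := Ideal.ResidueField.lift P.asIdeal ψ (by rw [hP]) (by
    intro x hx
    have hx' : x ∉ P.asIdeal := hx
    rw [hP, RingHom.mem_ker] at hx'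
    exact isUnit_iff_ne_zero.2 hx')
  let : Algebra P.asIdeal.ResidueField L := ι.toAlgebra
  obtain ⟨θ⟩ := exists_algHom_of_nontrivial P.asIdeal.ResidueField
    (P.asIdeal.ResidueField ⊗[A] T) L
  refine ⟨θ.toRingHom.comp
    (Algebra.TensorProduct.includeRight : T →ₐ[A] (P.asIdeal.ResidueField ⊗[A] T)).toRingHom, ?_⟩
  ext x
  have h1 : (Algebra.TensorProduct.includeRight :
      T →ₐ[A] (P.asIdeal.ResidueField ⊗[A] T)) (algebraMap A T x) =
      algebraMap P.asIdeal.ResidueField (P.asIdeal.ResidueField ⊗[A] T)
        (algebraMap A P.asIdeal.ResidueField x) := by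
    rw [AlgHom.commutes, ← IsScalarTower.algebraMap_apply]
  have h2 : θ (algebraMap P.asIdeal.ResidueField _
      (algebraMap A P.asIdeal.ResidueField x)) = ψ x := by
    rw [AlgHom.commutes]
    exact Ideal.ResidueField.lift_algebraMap _ _ _ _ _
  simpa [h1] using h2

/-- **Spreading out.** -/
theorem spread {A : Type} [CommRing A] [IsDomain A] {σ ρ : Type} [Fintype σ] [Fintype ρ]
    [DecidableEq ρ] (v : ρ → MvPolynomial σ A) (D : MvPolynomial σ A) {K : Type} [Field K]
    (φ : A →+* K) (x : σ → K) (hv : ∀ r, eval₂ φ x (v r) = 0) (hD : eval₂ φ x D ≠ 0)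
    (hJ : LinearIndependent K
      (Matrix.of fun (r : ρ) (j : σ) => eval₂ φ x (pderiv j (v r))).row) :
    ∃ G : A, G ≠ 0 ∧ ∀ (L : Type) [Field L] [IsAlgClosed L] (ψ : A →+* L), ψ G ≠ 0 →
      ∃ y : σ → L, (∀ r, eval₂ ψ y (v r) = 0) ∧ eval₂ ψ y D ≠ 0 ∧
        LinearIndependent L
          (Matrix.of fun (r : ρ) (j : σ) => eval₂ ψ y (pderiv j (v r))).row := by
  classical
  obtain ⟨a, ha, hdet⟩ := exists_pivot _ hJ
  set I := Ideal.span (Set.range v) with hI
  set J : MvPolynomial σ A := (Matrix.of fun i j => pderiv (a i) (v j)).det with hJdef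
  set g : MvPolynomial σ A ⧸ I := Ideal.Quotient.mk I (J * D) with hg
  let T := Localization.Away g
  have hss : Algebra.IsStandardSmooth A T := standardSmooth v a ha D T
  have hsm : Algebra.Smooth A T := inferInstance
  have hfl : Module.Flat A T := Algebra.Smooth.flat A T
  have hfp : Algebra.FinitePresentation A T := inferInstance
  have hft : Algebra.FiniteType A T := inferInstance
  have hopen := PrimeSpectrum.isOpenMap_comap_of_hasGoingDown_of_finitePresentation
    (R := A) (S := T)
  -- evaluation of the determinant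
  have hJev : ∀ {L : Type} [Field L] (ψ : A →+* L) (y : σ → L), eval₂ ψ y J =
      ((Matrix.of fun (r : ρ) (j : σ) => eval₂ ψ y (pderiv j (v r))).submatrix id a).det := by
    intro L _ ψ y
    rw [hJdef, ← coe_eval₂Hom, RingHom.map_det, ← Matrix.det_transpose]
    rfl
  -- the map T → K
  have hmapK : ∃ χ : T →+* K, True := by
    let f : (MvPolynomial σ A ⧸ I) →+* K := Ideal.Quotient.lift I (eval₂Hom φ x) (by
      intro z hz
      have : I ≤ RingHom.ker (eval₂Hom φ x) := by
        rw [hI, Ideal.span_le]
        rintro _ ⟨r, rfl⟩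
        exact hv r
      exact this hz)
    have hfg : IsUnit (f g) := by
      rw [isUnit_iff_ne_zero, hg]
      change eval₂Hom φ x (J * D) ≠ 0
      rw [map_mul]
      refine mul_ne_zero ?_ hD
      change eval₂ φ x J ≠ 0
      rw [hJev φ x]
      exact hdet
    exact ⟨IsLocalization.Away.lift g hfg, trivial⟩
  obtain ⟨χ, -⟩ := hmapK
  have hUopen : IsOpen (Set.range (PrimeSpectrum.comap (algebraMap A T))) := by
    rw [← Set.image_univ]
    exact hopen _ isOpen_univ
  let Q0 : PrimeSpectrum T := ⟨RingHom.ker χ, RingHom.ker_isPrime χ⟩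
  obtain ⟨_, ⟨G, rfl⟩, hG1, hG2⟩ := PrimeSpectrum.isTopologicalBasis_basic_opens.exists_subset_of_mem_open
    (Set.mem_range_self Q0) hUopen
  refine ⟨G, ?_, ?_⟩
  · rintro rfl
    simp at hG1
  · intro L _ _ ψ hψ
    let P : PrimeSpectrum A := ⟨RingHom.ker ψ, RingHom.ker_isPrime ψ⟩
    have hPG : P ∈ (PrimeSpectrum.basicOpen G : Set (PrimeSpectrum A)) := hψ
    obtain ⟨ξ, hξ⟩ := exists_hom_of_mem_range (T := T) ψ P rfl (hG2 hPG)
    let y : σ → L := fun j => ξ (algebraMap (MvPolynomial σ A ⧸ I) T (Ideal.Quotient.mk I (X j)))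
    have hy : ∀ z : MvPolynomial σ A, eval₂ ψ y z =
        ξ (algebraMap (MvPolynomial σ A ⧸ I) T (Ideal.Quotient.mk I z)) := by
      intro z
      have : eval₂Hom ψ y = (ξ.comp (algebraMap (MvPolynomial σ A ⧸ I) T)).comp
          (Ideal.Quotient.mk I) := by
        ext z
        · simp only [RingHom.comp_apply, eval₂Hom_C]
          rw [← hξ]
          rfl
        · simp [y]
      exact congrArg (fun f => f z) this
    have hu : IsUnit (eval₂ ψ y (J * D)) := by
      rw [hy]
      exact (IsLocalization.Away.algebraMap_isUnit g).map ξ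
    rw [eval₂_mul, IsUnit.mul_iff] at hu
    refine ⟨y, ?_, hu.2.ne_zero, ?_⟩
    · intro r
      rw [hy]
      have : Ideal.Quotient.mk I (v r) = 0 :=
        Ideal.Quotient.eq_zero_iff_mem.2 (Ideal.subset_span ⟨r, rfl⟩)
      rw [this, map_zero, map_zero]
    · refine rows_of_minor _ a ?_
      rw [← hJev ψ y]
      exact hu.1.ne_zero

end Pool.Agent.MP_04a7d6_ag
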