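import Pool.Agent.MP_04a7d6_ag.Build
import Pool.Agent.MP_04a7d6_ag.Spread

/-!
# From one good solution over some field to good solutions for general points over `ℂ`
-/

open MvPolynomial Finset

namespace Pool.Agent.MP_04a7d6_ag

section jac

variable {K : Type*} [Field K] {κ Pt ι : Type*} [Fintype κ] [Fintype ι] [DecidableEq ι]

/-- The Jacobian matrix of the residue system. -/
def jacMat {R : Type*} [CommRing R] (m : ℕ) (pt : ι → Pt) (p : Pt → κ → R) (c t : ι → R) :
    Matrix (Fin (m + 1) × κ) (ι ⊕ ι) R :=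
  fun r j => Sum.elim (fun a => t a ^ (r.1 : ℕ) * p (pt a) r.2)
    (fun a => c a * (((r.1 : ℕ) : R) * t a ^ ((r.1 : ℕ) - 1)) * p (pt a) r.2) j

omit [Fintype κ] [Fintype ι] [DecidableEq ι] in
theorem eval_eq_sum_fin {m : ℕ} {g : Polynomial K} (hg : g.natDegree ≤ m) (x : K) :
    g.eval x = ∑ e : Fin (m + 1), g.coeff e * x ^ (e : ℕ) := by
  rw [Polynomial.eval_eq_sum_range' (Nat.lt_succ_iff.2 hg), Finset.sum_range]

omit [Fintype κ] [Fintype ι] [DecidableEq ι] in
theorem eval_derivative_eq_sum_fin {m : ℕ} {g : Polynomial K} (hg : g.natDegree ≤ m) (x : K) :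
    (Polynomial.derivative g).eval x =
      ∑ e : Fin (m + 1), g.coeff e * (((e : ℕ) : K) * x ^ ((e : ℕ) - 1)) := by
  rw [← Finset.sum_range (fun e => g.coeff e * (((e : ℕ) : K) * x ^ (e - 1)))]
  conv_lhs => rw [Polynomial.as_sum_range_C_mul_X_pow' g (Nat.lt_succ_iff.2 hg)]
  rw [Polynomial.derivative_sum, Polynomial.eval_finsetSum]
  refine Finset.sum_congr rfl fun e _ => ?_
  rw [Polynomial.derivative_C_mul, Polynomial.derivative_X_pow]
  simp

omit [Fintype ι] [DecidableEq ι] in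
theorem condT_of_li {m : ℕ} {pt : ι → Pt} {p : Pt → κ → K} {c t : ι → K}
    (h : LinearIndependent K (jacMat m pt p c t).row) : CondT m pt p t := by
  intro g hg h1 h2
  rw [Fintype.linearIndependent_iff] at h
  have h3 := h (fun r => (g r.2).coeff r.1) (by
    funext j
    simp only [Finset.sum_apply, Pi.smul_apply, smul_eq_mul, Pi.zero_apply, Matrix.row]
    rw [Fintype.sum_prod_type_right]
    cases j with
    | inl a =>
      rw [← h1 a]
      refine Finset.sum_congr rfl fun k _ => ?_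
      rw [eval_eq_sum_fin (hg k), Finset.sum_mul]
      exact Finset.sum_congr rfl fun e _ => by simp [jacMat]; ring
    | inr a =>
      rw [show (0 : K) = c a * 0 by ring, ← h2 a, Finset.mul_sum]
      refine Finset.sum_congr rfl fun k _ => ?_
      rw [eval_derivative_eq_sum_fin (hg k), Finset.sum_mul, Finset.mul_sum]
      exact Finset.sum_congr rfl fun e _ => by simp [jacMat]; ring)
  funext k
  ext e
  rw [Pi.zero_apply, Polynomial.coeff_zero]
  by_cases he : e < m + 1
  · exact h3 (⟨e, he⟩, k)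
  · exact Polynomial.coeff_eq_zero_of_natDegree_lt (by have := hg k; omega)

omit [Fintype ι] [DecidableEq ι] in
theorem li_of_condT {m : ℕ} {pt : ι → Pt} {p : Pt → κ → K} {c t : ι → K} (hc : ∀ a, c a ≠ 0)
    (h : CondT m pt p t) : LinearIndependent K (jacMat m pt p c t).row := by
  rw [Fintype.linearIndependent_iff]
  intro g hg
  -- the polynomial
  set G : κ → Polynomial K := fun k =>
    ∑ e : Fin (m + 1), Polynomial.C (g (e, k)) * Polynomial.X ^ (e : ℕ) with hG
  have hdeg : ∀ k, (G k).natDegree ≤ m := by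
    intro k
    refine Polynomial.natDegree_sum_le_of_forall_le _ _ fun e _ => ?_
    refine (Polynomial.natDegree_C_mul_X_pow_le _ _).trans ?_
    have := e.2
    omega
  have hcoeff : ∀ k (e : Fin (m + 1)), (G k).coeff e = g (e, k) := by
    intro k e
    rw [hG]
    simp only [Polynomial.finsetSum_coeff, Polynomial.coeff_C_mul_X_pow]
    rw [Finset.sum_eq_single e]
    · simp
    · intro e' _ he'
      rw [if_neg]
      intro h
      exact he' (Fin.ext h.symm)
    · simp
  have h0 : G = 0 := by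
    refine h G hdeg (fun a => ?_) (fun a => ?_)
    · have := congrFun hg (Sum.inl a)
      simp only [Finset.sum_apply, Pi.smul_apply, smul_eq_mul, Pi.zero_apply, Matrix.row] at this
      rw [Fintype.sum_prod_type_right] at this
      rw [← this]
      refine Finset.sum_congr rfl fun k _ => ?_
      rw [eval_eq_sum_fin (hdeg k), Finset.sum_mul]
      exact Finset.sum_congr rfl fun e _ => by rw [hcoeff]; simp [jacMat]; ring
    · have := congrFun hg (Sum.inr a)
      simp only [Finset.sum_apply, Pi.smul_apply, smul_eq_mul, Pi.zero_apply, Matrix.row] at this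
      rw [Fintype.sum_prod_type_right] at this
      refine (mul_eq_zero.1 (?_ : c a * _ = 0)).resolve_left (hc a)
      rw [← this, Finset.mul_sum]
      refine Finset.sum_congr rfl fun k _ => ?_
      rw [eval_derivative_eq_sum_fin (hdeg k), Finset.sum_mul, Finset.mul_sum]
      exact Finset.sum_congr rfl fun e _ => by rw [hcoeff]; simp [jacMat]; ring
  intro r
  rw [← hcoeff r.2 r.1, h0]
  simp

end jac

section adj

variable {R : Type*} [CommRing R] {κ ρ : Type*} [Fintype κ] [DecidableEq κ]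

/-- The matrix with columns the first `card κ` points. -/
def ptMat (p : κ ⊕ ρ → κ → R) : Matrix κ κ R := Matrix.of fun k l => p (Sum.inl l) k

/-- The `i`-th coordinate functional with respect to the points `p (inl l)` (times the
determinant). -/
def xi (p : κ ⊕ ρ → κ → R) (i : κ) : κ → R := fun k => (ptMat p).adjugate i k

theorem xi_inl (p : κ ⊕ ρ → κ → R) (i l : κ) :
    ∑ k, xi p i k * p (Sum.inl l) k = if i = l then (ptMat p).det else 0 := by
  have h := congrFun (congrFun (Matrix.adjugate_mul (ptMat p)) i) l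
  rw [Matrix.mul_apply] at h
  rw [show ∑ k, xi p i k * p (Sum.inl l) k = ∑ k, (ptMat p).adjugate i k * ptMat p k l from rfl, h]
  simp [Matrix.one_apply]

/-- The functional `q_k ξ_i - q_i ξ_k`, where `q = p (inr r)`. -/
def fun2 (p : κ ⊕ ρ → κ → R) (r : ρ) (i k : κ) : κ → R := fun l =>
  (∑ j, xi p k j * p (Sum.inr r) j) * xi p i l - (∑ j, xi p i j * p (Sum.inr r) j) * xi p k l

theorem fun2_inr (p : κ ⊕ ρ → κ → R) (r : ρ) (i k : κ) :
    ∑ l, fun2 p r i k l * p (Sum.inr r) l = 0 := by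
  simp only [fun2, sub_mul, Finset.sum_sub_distrib, mul_assoc, ← Finset.mul_sum]
  ring

theorem fun2_inl (p : κ ⊕ ρ → κ → R) (r : ρ) {i k l : κ} (hi : i ≠ l) (hk : k ≠ l) :
    ∑ j, fun2 p r i k j * p (Sum.inl l) j = 0 := by
  simp only [fun2, sub_mul, Finset.sum_sub_distrib, mul_assoc, ← Finset.mul_sum, xi_inl]
  simp [hi, hk]

theorem map_xi {S : Type*} [CommRing S] (f : R →+* S) (p : κ ⊕ ρ → κ → R) (i k : κ) :
    f (xi p i k) = xi (fun i k => f (p i k)) i k := by
  have h := RingHom.map_adjugate f (ptMat p)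
  have h2 := congrFun (congrFun h i) k
  rw [RingHom.mapMatrix_apply, Matrix.map_apply] at h2
  rw [xi, h2]
  rfl

theorem map_fun2 {S : Type*} [CommRing S] (f : R →+* S) (p : κ ⊕ ρ → κ → R) (r : ρ) (i k l : κ) :
    f (fun2 p r i k l) = fun2 (fun i k => f (p i k)) r i k l := by
  simp [fun2, map_xi]

/-- Active points for the row `(r, i, j, k)`: all `p (inr r')`, `r' ≠ r`, and the three points
`p (inl i)`, `p (inl j)`, `p (inl k)`. -/
def ActivePt (f : ρ × κ × κ × κ) : κ ⊕ ρ → Prop :=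
  Sum.elim (fun l => l = f.2.1 ∨ l = f.2.2.1 ∨ l = f.2.2.2) (fun r => r ≠ f.1)

instance [DecidableEq ρ] (f : ρ × κ × κ × κ) : DecidablePred (ActivePt f) := fun x => by
  cases x <;> unfold ActivePt <;> simp only [Sum.elim_inl, Sum.elim_inr] <;> infer_instance

/-- The active marked points. -/
def actSet [DecidableEq ρ] {ι : Type*} [Fintype ι] (pt : ι → κ ⊕ ρ) (f : ρ × κ × κ × κ) :
    Finset ι := univ.filter fun a => ActivePt f (pt a)

theorem van_fun2_i [DecidableEq ρ] {ι : Type*} [Fintype ι] (pt : ι → κ ⊕ ρ)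
    (p : κ ⊕ ρ → κ → R) (f : ρ × κ × κ × κ) (a : ι) (ha : a ∉ actSet pt f) :
    ∑ l, fun2 p f.1 f.2.1 f.2.2.2 l * p (pt a) l = 0 := by
  simp only [actSet, Finset.mem_filter, Finset.mem_univ, true_and] at ha
  cases h : pt a with
  | inl l =>
    rw [h] at ha
    simp only [ActivePt, Sum.elim_inl, not_or] at ha
    exact fun2_inl p f.1 (Ne.symm ha.1) (Ne.symm ha.2.2)
  | inr r =>
    rw [h] at ha
    simp only [ActivePt, Sum.elim_inr, not_not] at ha
    rw [ha]
    exact fun2_inr p f.1 _ _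

theorem van_fun2_j [DecidableEq ρ] {ι : Type*} [Fintype ι] (pt : ι → κ ⊕ ρ)
    (p : κ ⊕ ρ → κ → R) (f : ρ × κ × κ × κ) (a : ι) (ha : a ∉ actSet pt f) :
    ∑ l, fun2 p f.1 f.2.2.1 f.2.2.2 l * p (pt a) l = 0 := by
  simp only [actSet, Finset.mem_filter, Finset.mem_univ, true_and] at ha
  cases h : pt a with
  | inl l =>
    rw [h] at ha
    simp only [ActivePt, Sum.elim_inl, not_or] at ha
    exact fun2_inl p f.1 (Ne.symm ha.2.1) (Ne.symm ha.2.2)
  | inr r =>
    rw [h] at ha
    simp only [ActivePt, Sum.elim_inr, not_not] at ha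
    rw [ha]
    exact fun2_inr p f.1 _ _

/-- The separation matrix attached to a family of rows. -/
def sepM [DecidableEq ρ] {ι : Type*} [Fintype ι] [DecidableEq ι] {n : ℕ} (pt : ι → κ ⊕ ρ)
    (p : κ ⊕ ρ → κ → R) (c t : ι → R) (fam : Pairs n → ρ × κ × κ × κ) :
    Matrix (Pairs n) (Pairs n) R :=
  sepMatrix pt p c t (fun r => actSet pt (fam r))
    (fun r => fun2 p (fam r).1 (fam r).2.1 (fam r).2.2.2)
    (fun r => fun2 p (fam r).1 (fam r).2.2.1 (fam r).2.2.2)

theorem map_sepM [DecidableEq ρ] {ι : Type*} [Fintype ι] [DecidableEq ι] {n : ℕ}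
    {S : Type*} [CommRing S] (f : R →+* S) (pt : ι → κ ⊕ ρ)
    (p : κ ⊕ ρ → κ → R) (c t : ι → R) (fam : Pairs n → ρ × κ × κ × κ) :
    f (sepM pt p c t fam).det =
      (sepM pt (fun i k => f (p i k)) (fun a => f (c a)) (fun a => f (t a)) fam).det := by
  rw [RingHom.map_det, RingHom.mapMatrix_apply, sepM, map_sepMatrix, sepM]
  simp only [map_fun2]

end adj

/-- A good solution of the residue system. -/
structure Good {K : Type*} [Field K] {κ ρ ι : Type*} [Fintype κ] [DecidableEq κ] [DecidableEq ρ]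
    [Fintype ι] [DecidableEq ι] {n : ℕ} (m : ℕ) (pt : ι → κ ⊕ ρ) (p : κ ⊕ ρ → κ → K)
    (c t : ι → K) (fam : Pairs n → ρ × κ × κ × κ) : Prop where
  inj : Function.Injective t
  ne : ∀ a, c a ≠ 0
  rel : Rel m pt p c t
  condT : CondT m pt p t
  det : (sepM pt p c t fam).det ≠ 0

/-- **Good solutions spread out.** -/
theorem good_spread {K : Type} [Field K] {κ ρ ι : Type} [Fintype κ] [DecidableEq κ]
    [DecidableEq ρ] [Fintype ι] [DecidableEq ι] {n m : ℕ} (pt : ι → κ ⊕ ρ) (p : κ ⊕ ρ → κ → K)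
    (c t : ι → K) (fam : Pairs n → ρ × κ × κ × κ) (h : Good m pt p c t fam) :
    ∃ G : MvPolynomial ((κ ⊕ ρ) × κ) ℤ, G ≠ 0 ∧
      ∀ (L : Type) [Field L] [IsAlgClosed L] (q : κ ⊕ ρ → κ → L),
        aeval (fun x : (κ ⊕ ρ) × κ => q x.1 x.2) G ≠ 0 →
        ∃ c' t' : ι → L, Good m pt q c' t' fam := by
  classical
  set A := MvPolynomial ((κ ⊕ ρ) × κ) ℤ with hA
  let pA : κ ⊕ ρ → κ → MvPolynomial (ι ⊕ ι) A := fun i k => C (X (i, k))
  let cA : ι → MvPolynomial (ι ⊕ ι) A := fun a => X (Sum.inl a)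
  let tA : ι → MvPolynomial (ι ⊕ ι) A := fun a => X (Sum.inr a)
  let v : Fin (m + 1) × κ → MvPolynomial (ι ⊕ ι) A := fun r =>
    ∑ a, cA a * tA a ^ (r.1 : ℕ) * pA (pt a) r.2
  let D : MvPolynomial (ι ⊕ ι) A :=
    (∏ a, cA a) * (∏ a, ∏ b ∈ univ.erase a, (tA a - tA b)) * (sepM pt pA cA tA fam).det
  -- evaluation facts
  have hev : ∀ {L : Type} [Field L] (q : κ ⊕ ρ → κ → L) (y : ι ⊕ ι → L) (ψ : A →+* L),
      (∀ x : (κ ⊕ ρ) × κ, ψ (X x) = q x.1 x.2) →
      (∀ r, eval₂ ψ y (v r) =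
        ∑ a, y (Sum.inl a) * y (Sum.inr a) ^ (r.1 : ℕ) * q (pt a) r.2) ∧
      (eval₂ ψ y D = (∏ a, y (Sum.inl a)) *
        (∏ a, ∏ b ∈ univ.erase a, (y (Sum.inr a) - y (Sum.inr b))) *
        (sepM pt q (fun a => y (Sum.inl a)) (fun a => y (Sum.inr a)) fam).det) ∧
      (Matrix.of fun (r : Fin (m + 1) × κ) (j : ι ⊕ ι) => eval₂ ψ y (pderiv j (v r))) =
        jacMat m pt q (fun a => y (Sum.inl a)) (fun a => y (Sum.inr a)) := by
    intro L _ q y ψ hψ
    have hp1 : ∀ i k, eval₂Hom ψ y (pA i k) = q i k := fun i k => by simp [pA, hψ]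
    have hc1 : ∀ a, eval₂Hom ψ y (cA a) = y (Sum.inl a) := fun a => by simp [cA]
    have ht1 : ∀ a, eval₂Hom ψ y (tA a) = y (Sum.inr a) := fun a => by simp [tA]
    refine ⟨fun r => ?_, ?_, ?_⟩
    · change eval₂Hom ψ y (v r) = _
      simp only [v, map_sum, map_mul, map_pow, hp1, hc1, ht1]
    · change eval₂Hom ψ y D = _
      simp only [D, map_mul, map_prod, map_sub, hc1, ht1, map_sepM, hp1]
    · ext r j
      simp only [Matrix.of_apply]
      change eval₂Hom ψ y (pderiv j (v r)) = _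
      simp only [v, map_sum]
      cases j with
      | inl a =>
        rw [Finset.sum_eq_single a]
        · simp only [Derivation.leibniz, cA, tA, pA, pderiv_C, pderiv_X, Derivation.leibniz_pow,
            jacMat, Sum.elim_inl]
          simp [hψ]
          ring
        · intro b _ hb
          simp [Derivation.leibniz, cA, tA, pA, pderiv_X, Derivation.leibniz_pow, hb]
        · simp
      | inr a =>
        rw [Finset.sum_eq_single a]
        · simp only [Derivation.leibniz, cA, tA, pA, pderiv_C, pderiv_X, Derivation.leibniz_pow,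
            jacMat, Sum.elim_inr]
          simp [hψ]
          ring
        · intro b _ hb
          simp [Derivation.leibniz, cA, tA, pA, pderiv_X, Derivation.leibniz_pow, hb]
        · simp
  obtain ⟨e1, e2, e3⟩ := hev p (Sum.elim c t)
    (aeval (fun x : (κ ⊕ ρ) × κ => p x.1 x.2) : A →ₐ[ℤ] K).toRingHom (fun x => aeval_X _ x)
  obtain ⟨G, hG0, hG⟩ := spread v D
    (aeval (fun x : (κ ⊕ ρ) × κ => p x.1 x.2) : A →ₐ[ℤ] K).toRingHom (Sum.elim c t)
    (fun r => by
      rw [e1 r]
      exact h.rel r.1 r.2)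
    (by
      rw [e2]
      refine mul_ne_zero (mul_ne_zero ?_ ?_) h.det
      · exact Finset.prod_ne_zero_iff.2 fun a _ => h.ne a
      · exact Finset.prod_ne_zero_iff.2 fun a _ => Finset.prod_ne_zero_iff.2 fun b hb =>
          sub_ne_zero.2 fun hab => (Finset.mem_erase.1 hb).1 (h.inj hab).symm)
    (by
      rw [e3]
      exact li_of_condT h.ne h.condT)
  refine ⟨G, hG0, fun L _ _ q hq => ?_⟩
  obtain ⟨y, hy1, hy2, hy3⟩ := hG L
    (aeval (fun x : (κ ⊕ ρ) × κ => q x.1 x.2) : A →ₐ[ℤ] L).toRingHom hq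
  obtain ⟨f1, f2, f3⟩ := hev q y
    (aeval (fun x : (κ ⊕ ρ) × κ => q x.1 x.2) : A →ₐ[ℤ] L).toRingHom (fun x => aeval_X _ x)
  rw [f2] at hy2
  rw [f3] at hy3
  refine ⟨fun a => y (Sum.inl a), fun a => y (Sum.inr a), ?_, ?_, ?_, ?_, ?_⟩
  · intro a b hab
    by_contra hne
    apply hy2
    rw [Finset.prod_eq_zero (i := a) (s := univ) (f := fun a => ∏ b ∈ univ.erase a,
      (y (Sum.inr a) - y (Sum.inr b))) (Finset.mem_univ a)]
    · ring
    · exact Finset.prod_eq_zero (i := b) (Finset.mem_erase.2 ⟨Ne.symm hne, Finset.mem_univ b⟩)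
        (sub_eq_zero.2 hab)
  · intro a ha
    apply hy2
    rw [Finset.prod_eq_zero (i := a) (s := univ) (f := fun a => y (Sum.inl a))
      (Finset.mem_univ a) ha]
    ring
  · intro e k
    rw [← f1 (e, k)]
    exact hy1 (e, k)
  · exact condT_of_li hy3
  · exact right_ne_zero_of_mul hy2

end Pool.Agent.MP_04a7d6_ag
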