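import Pool.Agent.MP_04a7d6_ag.Generic

/-!
# Generic quadrature: adding one point to the configuration
-/

open MvPolynomial Finset

namespace Pool.Agent.MP_04a7d6_ag

theorem double_zeros {K : Type*} [Field K] {ι : Type*} [Fintype ι] {s : ι → K}
    (hs : Function.Injective s) {g : Polynomial K} (hg : g.natDegree < 2 * Fintype.card ι)
    (h1 : ∀ a, g.eval (s a) = 0) (h2 : ∀ a, (Polynomial.derivative g).eval (s a) = 0) : g = 0 := by
  classical
  by_contra h0
  have hdvd : ∀ a, (Polynomial.X - Polynomial.C (s a)) ^ 2 ∣ g := by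
    intro a
    rw [← Polynomial.le_rootMultiplicity_iff h0]
    exact (Polynomial.one_lt_rootMultiplicity_iff_isRoot h0).2 ⟨h1 a, h2 a⟩
  have hprod : ∏ a, (Polynomial.X - Polynomial.C (s a)) ^ 2 ∣ g := by
    refine Finset.prod_dvd_of_coprime ?_ fun a _ => hdvd a
    intro a _ b _ hab
    exact (Polynomial.isCoprime_X_sub_C_of_isUnit_sub
      (isUnit_iff_ne_zero.2 (sub_ne_zero.2 fun h => hab (hs h)))).pow
  have := Polynomial.natDegree_le_of_dvd hprod h0
  rw [Polynomial.natDegree_prod _ _ fun a _ => pow_ne_zero _ (Polynomial.X_sub_C_ne_zero _)] at this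
  simp only [Polynomial.natDegree_pow, Polynomial.natDegree_X_sub_C, mul_one, Finset.sum_const,
    smul_eq_mul, Finset.card_univ] at this
  omega

section quad

variable {K : Type} [Field K] {r k : ℕ}

/-- `(y, ω, s)` is a nondegenerate quadrature for the sequences `L`. -/
structure IsQuad (L : Fin r → ℕ → K) (y : Fin r → K) (ω s : Fin k → K) : Prop where
  inj : Function.Injective s
  ne : ∀ τ, ω τ ≠ 0
  rel : ∀ e < 2 * k, ∑ i, y i * L i e + ∑ τ, ω τ * s τ ^ e = 0

/-- The shifted Hankel matrix. -/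
def hankel {R : Type*} [CommRing R] (k : ℕ) (M : ℕ → R) (σ : R) : Matrix (Fin k) (Fin k) R :=
  fun i j => M (i + j + 1) - σ * M (i + j)

theorem hankel_det {M : ℕ → K} {ω s : Fin k → K} (σ : K)
    (h : ∀ e < 2 * k, M e = ∑ τ, ω τ * s τ ^ e) :
    (hankel k M σ).det = (Matrix.vandermonde s).det * (∏ τ, (ω τ * (s τ - σ))) *
      (Matrix.vandermonde s).det := by
  have : hankel k M σ = (Matrix.vandermonde s).transpose *
      Matrix.diagonal (fun τ => ω τ * (s τ - σ)) * Matrix.vandermonde s := by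
    ext i j
    rw [hankel, h _ (by have := i.2; have := j.2; omega), h _ (by have := i.2; have := j.2; omega),
      Matrix.mul_apply, Finset.mul_sum, ← Finset.sum_sub_distrib]
    refine Finset.sum_congr rfl fun τ _ => ?_
    rw [Matrix.mul_diagonal, Matrix.transpose_apply, Matrix.vandermonde_apply,
      Matrix.vandermonde_apply]
    ring
  rw [this, Matrix.det_mul, Matrix.det_mul, Matrix.det_diagonal, Matrix.det_transpose]

theorem hankel_ne_zero {M : ℕ → K} {ω s : Fin k → K} (σ : K)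
    (h : ∀ e < 2 * k, M e = ∑ τ, ω τ * s τ ^ e) (hs : Function.Injective s) (hω : ∀ τ, ω τ ≠ 0)
    (hσ : ∀ τ, s τ ≠ σ) : (hankel k M σ).det ≠ 0 := by
  rw [hankel_det σ h]
  have hv := Matrix.det_vandermonde_ne_zero_iff.2 hs
  exact mul_ne_zero (mul_ne_zero hv (Finset.prod_ne_zero_iff.2 fun τ _ =>
    mul_ne_zero (hω τ) (sub_ne_zero.2 (hσ τ)))) hv

theorem ne_of_hankel {M : ℕ → K} {ω s : Fin k → K} (σ : K)
    (h : ∀ e < 2 * k, M e = ∑ τ, ω τ * s τ ^ e) (hd : (hankel k M σ).det ≠ 0) (τ : Fin k) :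
    s τ ≠ σ := by
  intro hτ
  apply hd
  rw [hankel_det σ h, Finset.prod_eq_zero (Finset.mem_univ τ)]
  · ring
  · rw [hτ, sub_self, mul_zero]

theorem hankel_poly (L : Fin r → ℕ → K) (σ : K) (y : Fin r → K) :
    eval y (hankel k (fun e => ∑ i, (X i * C (-L i e) : MvPolynomial (Fin r) K)) (C σ)).det =
      (hankel k (fun e => ∑ i, y i * (-L i e)) σ).det := by
  rw [RingHom.map_det]
  congr 1
  ext i j
  simp [hankel]

/-- Generic quadratures exist and avoid any finite set. -/
theorem exists_quad [IsAlgClosed K] (hk : 0 < k) (L : Fin r → ℕ → K) {y0 y1 : Fin r → K}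
    {ω0 s0 ω1 s1 : Fin k → K} (h0 : IsQuad L y0 ω0 s0) (h1 : IsQuad L y1 ω1 s1)
    (h01 : ∀ τ τ', s0 τ ≠ s1 τ') (S : Finset K) :
    ∃ (y : Fin r → K) (ω s : Fin k → K), IsQuad L y ω s ∧ ∀ τ, s τ ∉ S := by
  classical
  set A := MvPolynomial (Fin r) K with hA
  have hMy : ∀ {y : Fin r → K} {ω s : Fin k → K}, IsQuad L y ω s →
      ∀ e < 2 * k, (∑ i, y i * (-L i e)) = ∑ τ, ω τ * s τ ^ e := by
    intro y ω s h e he
    have := h.rel e he
    have h2 : ∑ i, y i * (-L i e) = - ∑ i, y i * L i e := by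
      rw [← Finset.sum_neg_distrib]
      exact Finset.sum_congr rfl fun i _ => by ring
    rw [h2]
    linear_combination -this
  -- the Hankel polynomials are nonzero
  let H : K → A := fun σ => (hankel k (fun e => ∑ i, (X i * C (-L i e) : A)) (C σ)).det
  have hH : ∀ σ, H σ ≠ 0 := by
    intro σ hz
    by_cases hσ : ∃ τ, s0 τ = σ
    · obtain ⟨τ, hτ⟩ := hσ
      have := hankel_ne_zero σ (hMy h1) h1.inj h1.ne (fun τ' h => h01 τ τ' (hτ.trans h.symm))
      apply this
      rw [← hankel_poly, show (hankel k (fun e => ∑ i, (X i * C (-L i e) : A)) (C σ)).det = 0 from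
        hz, map_zero]
    · push Not at hσ
      have := hankel_ne_zero σ (hMy h0) h0.inj h0.ne hσ
      apply this
      rw [← hankel_poly, show (hankel k (fun e => ∑ i, (X i * C (-L i e) : A)) (C σ)).det = 0 from
        hz, map_zero]
  -- the system
  obtain ⟨m, hm⟩ : ∃ m, m + 1 = 2 * k := ⟨2 * k - 1, by omega⟩
  let v : Fin (m + 1) × Unit → MvPolynomial (Fin k ⊕ Fin k) A := fun e =>
    C (∑ i, X i * C (L i e.1)) + ∑ τ, X (Sum.inl τ) * X (Sum.inr τ) ^ (e.1 : ℕ)
  let D : MvPolynomial (Fin k ⊕ Fin k) A :=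
    (∏ τ, X (Sum.inl τ)) * (∏ τ, ∏ τ' ∈ univ.erase τ, (X (Sum.inr τ) - X (Sum.inr τ')))
  have hev : ∀ (y : Fin r → K) (z : Fin k ⊕ Fin k → K),
      (∀ e, eval₂ (eval y) z (v e) = ∑ i, y i * L i e.1 +
        ∑ τ, z (Sum.inl τ) * z (Sum.inr τ) ^ (e.1 : ℕ)) ∧
      (eval₂ (eval y) z D = (∏ τ, z (Sum.inl τ)) *
        (∏ τ, ∏ τ' ∈ univ.erase τ, (z (Sum.inr τ) - z (Sum.inr τ')))) ∧
      (Matrix.of fun (e : Fin (m + 1) × Unit) (j : Fin k ⊕ Fin k) =>
          eval₂ (eval y) z (pderiv j (v e))) =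
        jacMat m (fun _ : Fin k => ()) (fun _ _ => (1 : K)) (fun τ => z (Sum.inl τ))
          (fun τ => z (Sum.inr τ)) := by
    intro y z
    refine ⟨fun e => ?_, ?_, ?_⟩
    · change eval₂Hom (eval y) z (v e) = _
      simp [v]
    · change eval₂Hom (eval y) z D = _
      simp [D, map_mul, map_prod]
    · ext e j
      simp only [Matrix.of_apply]
      change eval₂Hom (eval y) z (pderiv j (v e)) = _
      simp only [v, map_add, pderiv_C, map_sum, zero_add]
      cases j with
      | inl τ =>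
        rw [Finset.sum_eq_single τ]
        · simp only [Derivation.leibniz, pderiv_X, Derivation.leibniz_pow,
            jacMat, Sum.elim_inl]
          simp
        · intro b _ hb
          simp [Derivation.leibniz, pderiv_X, Derivation.leibniz_pow, hb]
        · simp
      | inr τ =>
        rw [Finset.sum_eq_single τ]
        · simp only [Derivation.leibniz, pderiv_X, Derivation.leibniz_pow,
            jacMat, Sum.elim_inr]
          simp
        · intro b _ hb
          simp [Derivation.leibniz, pderiv_X, Derivation.leibniz_pow, hb]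
        · simp
  obtain ⟨e1, e2, e3⟩ := hev y0 (Sum.elim ω0 s0)
  obtain ⟨G, hG0, hG⟩ := spread v D (eval y0) (Sum.elim ω0 s0)
    (fun e => by
      rw [e1 e]
      exact h0.rel e.1 (by have := e.1.2; omega))
    (by
      rw [e2]
      refine mul_ne_zero ?_ ?_
      · exact Finset.prod_ne_zero_iff.2 fun a _ => h0.ne a
      · exact Finset.prod_ne_zero_iff.2 fun a _ => Finset.prod_ne_zero_iff.2 fun b hb =>
          sub_ne_zero.2 fun hab => (Finset.mem_erase.1 hb).1 (h0.inj hab).symm)
    (by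
      rw [e3]
      refine li_of_condT h0.ne ?_
      intro g hg g1 g2
      funext u
      refine double_zeros h0.inj ?_ (fun a => ?_) (fun a => ?_)
      · rw [Fintype.card_fin]
        have := hg u
        omega
      · simpa using g1 a
      · simpa using g2 a)
  have hprod : G * ∏ σ ∈ S, H σ ≠ 0 :=
    mul_ne_zero hG0 (Finset.prod_ne_zero_iff.2 fun σ _ => hH σ)
  obtain ⟨y, hy⟩ : ∃ y : Fin r → K, eval y (G * ∏ σ ∈ S, H σ) ≠ 0 := by
    by_contra hall
    push Not at hall
    exact hprod (MvPolynomial.funext fun y => by rw [hall y, map_zero])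
  rw [map_mul, map_prod] at hy
  obtain ⟨z, hz1, hz2, -⟩ := hG K (eval y) (left_ne_zero_of_mul hy)
  obtain ⟨f1, f2, -⟩ := hev y z
  rw [f2] at hz2
  have hq : IsQuad L y (fun τ => z (Sum.inl τ)) (fun τ => z (Sum.inr τ)) := by
    refine ⟨?_, ?_, ?_⟩
    · intro a b hab
      by_contra hne
      apply hz2
      rw [Finset.prod_eq_zero (i := a) (s := univ) (f := fun a => ∏ b ∈ univ.erase a,
        (z (Sum.inr a) - z (Sum.inr b))) (Finset.mem_univ a)]
      · ring
      · exact Finset.prod_eq_zero (i := b) (Finset.mem_erase.2 ⟨Ne.symm hne, Finset.mem_univ b⟩)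
          (sub_eq_zero.2 hab)
    · intro a ha
      apply hz2
      rw [Finset.prod_eq_zero (i := a) (s := univ) (f := fun a => z (Sum.inl a))
        (Finset.mem_univ a) ha]
      ring
    · intro e he
      have := hz1 (⟨e, by omega⟩, ())
      rw [f1] at this
      exact this
  refine ⟨y, _, _, hq, fun τ hτ => ?_⟩
  have h3 := (Finset.prod_ne_zero_iff.1 (right_ne_zero_of_mul hy)) _ hτ
  have h4 : (hankel k (fun e => ∑ i, y i * (-L i e)) (z (Sum.inr τ))).det ≠ 0 := by
    rw [← hankel_poly]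
    exact h3
  exact ne_of_hankel _ (hMy hq) h4 τ rfl

end quad

end Pool.Agent.MP_04a7d6_ag
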