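import Pool.Agent.MP_04a7d6_ag.Curve

/-!
# Separation of points from one determinant
-/

open MvPolynomial Finset

namespace Pool.Agent.MP_04a7d6_ag

/-- Pairs `x < y` in `Fin n`. -/
abbrev Pairs (n : ℕ) : Type := {q : Fin n × Fin n // q.1 < q.2}

section ring

variable {R : Type*} [CommRing R] {κ Pt ι : Type*} [Fintype κ] [DecidableEq ι]

/-- The value of the active part of the functional `α` on the curve. -/
def uVal (pt : ι → Pt) (p : Pt → κ → R) (c t : ι → R) (s : Finset ι) (α : κ → R) (x : R) : R :=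
  interpVal t s (fun a => c a * ∑ k, α k * p (pt a) k) x

/-- The separation matrix. -/
def sepMatrix {n : ℕ} (pt : ι → Pt) (p : Pt → κ → R) (c t : ι → R)
    (act : Pairs n → Finset ι) (α β : Pairs n → κ → R) : Matrix (Pairs n) (Pairs n) R :=
  fun r q =>
    uVal pt p c t (act r) (α r) ((q.1.1 : ℕ) : R) * uVal pt p c t (act r) (β r) ((q.1.2 : ℕ) : R) -
    uVal pt p c t (act r) (α r) ((q.1.2 : ℕ) : R) * uVal pt p c t (act r) (β r) ((q.1.1 : ℕ) : R)

theorem map_uVal {S : Type*} [CommRing S] (f : R →+* S) (pt : ι → Pt) (p : Pt → κ → R)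
    (c t : ι → R) (s : Finset ι) (α : κ → R) (x : R) :
    f (uVal pt p c t s α x) = uVal pt (fun i k => f (p i k)) (fun a => f (c a))
      (fun a => f (t a)) s (fun k => f (α k)) (f x) := by
  rw [uVal, map_interpVal, uVal]
  simp

theorem map_sepMatrix {S : Type*} [CommRing S] (f : R →+* S) {n : ℕ} (pt : ι → Pt)
    (p : Pt → κ → R) (c t : ι → R)
    (act : Pairs n → Finset ι) (α β : Pairs n → κ → R) :
    (sepMatrix pt p c t act α β).map f =
      sepMatrix pt (fun i k => f (p i k)) (fun a => f (c a)) (fun a => f (t a)) act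
        (fun r k => f (α r k)) (fun r k => f (β r k)) := by
  ext r q
  simp only [Matrix.map_apply, sepMatrix, map_sub, map_mul, map_uVal, map_natCast]

end ring

section field

variable {K : Type*} [Field K] [CharZero K]

/-- homogeneous Lagrange basis -/
noncomputable def lag (b : ℕ) (x : Fin (b + 1)) (z : Fin 2 → K) : K :=
  eval z ((Lagrange.basis (univ : Finset (Fin (b + 1))) (fun i => ((i : ℕ) : K)) x).homogenize b)

theorem nodes_inj (b : ℕ) : Set.InjOn (fun i : Fin (b + 1) => ((i : ℕ) : K))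
    ((univ : Finset (Fin (b + 1))) : Set (Fin (b + 1))) := by
  intro i _ j _ h
  exact Fin.ext (Nat.cast_injective (R := K) h)

theorem eval_homogenize_lag {b : ℕ} {U : Polynomial K} (hU : U.natDegree ≤ b) (z : Fin 2 → K) :
    eval z (U.homogenize b) = ∑ x : Fin (b + 1), U.eval ((x : ℕ) : K) * lag b x z := by
  have h1 : U = Lagrange.interpolate (univ : Finset (Fin (b + 1))) (fun i => ((i : ℕ) : K))
      (fun i => U.eval ((i : ℕ) : K)) := by
    refine Lagrange.eq_interpolate (nodes_inj b) ?_
    rw [Finset.card_univ, Fintype.card_fin]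
    exact lt_of_le_of_lt Polynomial.degree_le_natDegree (by exact_mod_cast Nat.lt_succ_of_le hU)
  conv_lhs => rw [h1]
  rw [Lagrange.interpolate_apply, Polynomial.homogenize_finsetSum, map_sum]
  refine Finset.sum_congr rfl fun x _ => ?_
  rw [Polynomial.homogenize_C_mul, map_mul, eval_C, lag]

omit [CharZero K] in
theorem antisym_sum {n : ℕ} (E L : Fin n → Fin n → K) (hE : ∀ x y, E y x = -E x y)
    (hE0 : ∀ x, E x x = 0) :
    ∑ x, ∑ y, E x y * L x y =
      ∑ q : Pairs n, E q.1.1 q.1.2 * (L q.1.1 q.1.2 - L q.1.2 q.1.1) := by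
  classical
  rw [← Finset.sum_product']
  have h1 : ∀ f : Fin n × Fin n → K, ∑ q : Pairs n, f q.1 =
      ∑ q ∈ (univ : Finset (Fin n × Fin n)).filter (fun q => q.1 < q.2), f q := by
    intro f
    rw [Finset.sum_filter, ← Finset.sum_subtype_eq_sum_filter (s := univ) (f := f)
      (p := fun q : Fin n × Fin n => q.1 < q.2) |>.trans (Finset.sum_filter _ _)]
    exact Finset.sum_congr (by ext q; simp) fun q _ => rfl
  rw [h1 (fun q => E q.1 q.2 * (L q.1 q.2 - L q.2 q.1))]
  have h2 : ∑ q ∈ (univ : Finset (Fin n)) ×ˢ (univ : Finset (Fin n)), E q.1 q.2 * L q.1 q.2 =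
      ∑ q ∈ (univ : Finset (Fin n × Fin n)).filter (fun q => q.1 < q.2), E q.1 q.2 * L q.1 q.2 +
      ∑ q ∈ (univ : Finset (Fin n × Fin n)).filter (fun q => q.2 < q.1), E q.1 q.2 * L q.1 q.2 := by
    rw [Finset.sum_filter, Finset.sum_filter, ← Finset.sum_add_distrib, Finset.univ_product_univ]
    refine Finset.sum_congr rfl fun q _ => ?_
    rcases lt_trichotomy q.1 q.2 with h | h | h
    · simp [h, h.not_gt]
    · rw [h, hE0]; simp
    · simp [h, h.not_gt]
  rw [h2]
  have h3 : ∑ q ∈ (univ : Finset (Fin n × Fin n)).filter (fun q => q.2 < q.1),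
      E q.1 q.2 * L q.1 q.2 =
      ∑ q ∈ (univ : Finset (Fin n × Fin n)).filter (fun q => q.1 < q.2),
        E q.2 q.1 * L q.2 q.1 := by
    refine Finset.sum_nbij' Prod.swap Prod.swap ?_ ?_ ?_ ?_ ?_
    · intro q hq; simpa using hq
    · intro q hq; simpa using hq
    · intro q _; rfl
    · intro q _; rfl
    · intro q _; rfl
  rw [h3, ← Finset.sum_add_distrib]
  refine Finset.sum_congr rfl fun q _ => ?_
  rw [hE q.1 q.2]
  ring

omit [CharZero K] in
theorem cross_zero_of_all {b : ℕ} (hb : b ≠ 0) {z w : Fin 2 → K}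
    (h : ∀ U V : Polynomial K, U.natDegree ≤ b → V.natDegree ≤ b →
      eval z (U.homogenize b) * eval w (V.homogenize b) =
      eval z (V.homogenize b) * eval w (U.homogenize b)) :
    z 0 * w 1 - z 1 * w 0 = 0 := by
  have h1 : eval z ((1 : Polynomial K).homogenize b) = z 1 ^ b := by simp
  have h1' : eval w ((1 : Polynomial K).homogenize b) = w 1 ^ b := by simp
  have h2 : eval z ((Polynomial.X ^ b : Polynomial K).homogenize b) = z 0 ^ b := by
    rw [Polynomial.homogenize_X_pow le_rfl]; simp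
  have h2' : eval w ((Polynomial.X ^ b : Polynomial K).homogenize b) = w 0 ^ b := by
    rw [Polynomial.homogenize_X_pow le_rfl]; simp
  have h3 : eval z ((Polynomial.X : Polynomial K).homogenize b) = z 0 * z 1 ^ (b - 1) := by
    rw [Polynomial.homogenize_X hb]; simp
  have h3' : eval w ((Polynomial.X : Polynomial K).homogenize b) = w 0 * w 1 ^ (b - 1) := by
    rw [Polynomial.homogenize_X hb]; simp
  have e1 := h (Polynomial.X ^ b) 1 (by simp) (by simp)
  have e2 := h Polynomial.X 1 (by rw [Polynomial.natDegree_X]; omega) (by simp)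
  rw [h1, h1', h2, h2'] at e1
  rw [h1, h1', h3, h3'] at e2
  by_cases hz : z 1 = 0
  · rw [hz, zero_pow hb, zero_mul] at e1
    rcases mul_eq_zero.1 e1 with h | h
    · rw [hz, (pow_eq_zero_iff hb).1 h]; ring
    · rw [hz, (pow_eq_zero_iff hb).1 h]; ring
  by_cases hw : w 1 = 0
  · rw [hw, zero_pow hb, mul_zero] at e1
    rcases mul_eq_zero.1 e1.symm with h | h
    · exact absurd ((pow_eq_zero_iff hb).1 h) hz
    · rw [hw, (pow_eq_zero_iff hb).1 h]; ring
  obtain ⟨b', rfl⟩ := Nat.exists_eq_succ_of_ne_zero hb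
  simp only [Nat.succ_eq_add_one, Nat.add_sub_cancel, pow_succ] at e2
  have hz' := pow_ne_zero b' hz
  have hw' := pow_ne_zero b' hw
  have : (z 1 ^ b' * w 1 ^ b') * (z 0 * w 1 - z 1 * w 0) = 0 := by linear_combination e2
  exact (mul_eq_zero.1 this).resolve_left (mul_ne_zero hz' hw')

variable {κ Pt ι : Type*} [Fintype κ] [Fintype ι] [DecidableEq ι]

theorem sep_of_det (pt : ι → Pt) (p : Pt → κ → K) (c t : ι → K) {m δ b : ℕ} (hb : b ≠ 0)
    (hN : Fintype.card ι = m + δ + 2) (hrel : Rel m pt p c t)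
    (act : Pairs (b + 1) → Finset ι) (α β : Pairs (b + 1) → κ → K)
    (hcard : ∀ r, (act r).card = m + b + 2)
    (hα : ∀ r, ∀ a ∉ act r, ∑ k, α r k * p (pt a) k = 0)
    (hβ : ∀ r, ∀ a ∉ act r, ∑ k, β r k * p (pt a) k = 0)
    (hdet : (sepMatrix pt p c t act α β).det ≠ 0)
    {z w : Fin 2 → K} (hzw : z 0 * w 1 - z 1 * w 0 ≠ 0) : ∃ r,
    eval z (uForm pt p c t b (act r) (α r)) * eval w (uForm pt p c t b (act r) (β r)) -
    eval w (uForm pt p c t b (act r) (α r)) * eval z (uForm pt p c t b (act r) (β r)) ≠ 0 := by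
  by_contra hall
  push Not at hall
  have hdeg : ∀ (s : Finset ι) (α : κ → K), s.card = m + b + 2 →
      (∀ a ∉ s, ∑ k, α k * p (pt a) k = 0) →
      (interp t s (fun a => c a * ∑ k, α k * p (pt a) k)).natDegree ≤ b := by
    intro s α hs hα
    have hcard : (univ \ s).card + s.card = m + δ + 2 := by
      rw [Finset.card_sdiff_add_card_eq_card (Finset.subset_univ s), Finset.card_univ, hN]
    have h1 : interp t univ (fun a => c a * ∑ k, α k * p (pt a) k) =
        ∑ k, Polynomial.C (α k) * interp t univ (fun a => c a * p (pt a) k) := by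
      rw [interp_sum]
      congr 1
      funext a
      rw [Finset.mul_sum]
      exact Finset.sum_congr rfl fun k _ => by ring
    have h2 : (interp t univ (fun a => c a * ∑ k, α k * p (pt a) k)).natDegree ≤ δ := by
      rw [h1]
      refine Polynomial.natDegree_sum_le_of_forall_le _ _ fun k _ => ?_
      exact (Polynomial.natDegree_C_mul_le _ _).trans (natDegree_coord pt p c t hN hrel k)
    exact natDegree_interp_of_factor t (Finset.subset_univ s) _
      (fun a _ ha => by rw [hα a ha, mul_zero]) h2 (b := b) (by omega)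
  set D : Pairs (b + 1) → K := fun q =>
    lag b q.1.1 z * lag b q.1.2 w - lag b q.1.2 z * lag b q.1.1 w with hD
  have hD0 : D = 0 := by
    refine Matrix.eq_zero_of_mulVec_eq_zero hdet ?_
    funext r
    have h1 := hall r
    rw [uForm, uForm, eval_homogenize_lag (hdeg _ _ (hcard r) (hα r)),
      eval_homogenize_lag (hdeg _ _ (hcard r) (hα r)),
      eval_homogenize_lag (hdeg _ _ (hcard r) (hβ r)),
      eval_homogenize_lag (hdeg _ _ (hcard r) (hβ r))] at h1
    simp only [eval_interp] at h1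
    rw [Pi.zero_apply, ← h1]
    have h2 := antisym_sum (n := b + 1)
      (fun x y => uVal pt p c t (act r) (α r) ((x : ℕ) : K) * uVal pt p c t (act r) (β r)
          ((y : ℕ) : K) -
        uVal pt p c t (act r) (α r) ((y : ℕ) : K) * uVal pt p c t (act r) (β r) ((x : ℕ) : K))
      (fun x y => lag b x z * lag b y w) (fun x y => by ring) (fun x => by ring)
    have h3 : (sepMatrix pt p c t act α β).mulVec D r = ∑ q : Pairs (b + 1),
        (uVal pt p c t (act r) (α r) ((q.1.1 : ℕ) : K) * uVal pt p c t (act r) (β r)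
          ((q.1.2 : ℕ) : K) -
        uVal pt p c t (act r) (α r) ((q.1.2 : ℕ) : K) * uVal pt p c t (act r) (β r)
          ((q.1.1 : ℕ) : K)) *
        (lag b q.1.1 z * lag b q.1.2 w - lag b q.1.2 z * lag b q.1.1 w) := rfl
    rw [h3, ← h2, Finset.sum_mul_sum, Finset.sum_mul_sum, Finset.sum_comm
      (f := fun (i j : Fin (b + 1)) => interpVal t (act r) (fun a => c a * ∑ k, α r k * p (pt a) k) ((i : ℕ) : K)
        * lag b i w * (interpVal t (act r) (fun a => c a * ∑ k, β r k * p (pt a) k)
          ((j : ℕ) : K) * lag b j z)),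
      ← Finset.sum_sub_distrib]
    refine Finset.sum_congr rfl fun x _ => ?_
    rw [← Finset.sum_sub_distrib]
    refine Finset.sum_congr rfl fun y _ => ?_
    simp only [uVal]
    ring
  have hsym : ∀ x y : Fin (b + 1), lag b x z * lag b y w = lag b y z * lag b x w := by
    intro x y
    rcases lt_trichotomy x y with h | h | h
    · have := congrFun hD0 ⟨(x, y), h⟩
      exact sub_eq_zero.1 this
    · rw [h]
    · have := congrFun hD0 ⟨(y, x), h⟩
      exact (sub_eq_zero.1 this).symm
  apply hzw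
  refine cross_zero_of_all hb fun U V hU hV => ?_
  rw [eval_homogenize_lag hU, eval_homogenize_lag hV, eval_homogenize_lag hU,
    eval_homogenize_lag hV, Finset.sum_mul_sum, Finset.sum_mul_sum, Finset.sum_comm]
  refine Finset.sum_congr rfl fun y _ => Finset.sum_congr rfl fun x _ => ?_
  linear_combination (U.eval ((x : ℕ) : K) * V.eval ((y : ℕ) : K)) * hsym x y

end field

end Pool.Agent.MP_04a7d6_ag
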