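import Pool.Agent.MP_04a7d6_ag.Defs

/-!
# Orbits of the Weyl group
-/

open Finset

namespace Pool.Agent.MP_04a7d6_ag

variable {n s : ℕ}

/-- `δ - ∑_{i ∈ Γ} μ_i`. -/
def tt (Γ : Finset (Fin s)) (c : CurveClass s) : ℤ := c.1 - ∑ i ∈ Γ, c.2 i

theorem cremona_fst (Γ : Finset (Fin s)) (c : CurveClass s) :
    (cremona n Γ c).1 = c.1 + ((n : ℤ) - 1) * tt Γ c := rfl

theorem cremona_snd (Γ : Finset (Fin s)) (c : CurveClass s) (i : Fin s) :
    (cremona n Γ c).2 i = c.2 i + if i ∈ Γ then tt Γ c else 0 := by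
  unfold cremona tt
  by_cases h : i ∈ Γ <;> simp [h]

theorem tt_cremona (Γ Γ' : Finset (Fin s)) (c : CurveClass s) :
    tt Γ' (cremona n Γ c) = tt Γ' c + ((n : ℤ) - 1 - (Γ' ∩ Γ).card) * tt Γ c := by
  unfold tt
  simp only [cremona_snd, cremona_fst, Finset.sum_add_distrib, Finset.sum_ite_mem,
    Finset.sum_const, nsmul_eq_mul]
  unfold tt
  ring

theorem tt_cremona_self {Γ : Finset (Fin s)} (hΓ : Γ.card = n + 1) (c : CurveClass s) :
    tt Γ (cremona n Γ c) = -tt Γ c := by
  rw [tt_cremona, Finset.inter_self, hΓ]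
  push_cast
  ring

theorem class_ext {c c' : CurveClass s} (h1 : c.1 = c'.1) (h2 : ∀ i, c.2 i = c'.2 i) : c = c' :=
  Prod.ext h1 (funext h2)

theorem cremona_cremona {Γ : Finset (Fin s)} (hΓ : Γ.card = n + 1) (c : CurveClass s) :
    cremona n Γ (cremona n Γ c) = c := by
  refine class_ext ?_ fun i => ?_
  · rw [cremona_fst, cremona_fst, tt_cremona_self hΓ]
    ring
  · rw [cremona_snd, cremona_snd, tt_cremona_self hΓ]
    split_ifs <;> ring

theorem cremona_eq_self {Γ : Finset (Fin s)} {c : CurveClass s} (h : tt Γ c = 0) :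
    cremona n Γ c = c := by
  refine class_ext ?_ fun i => ?_
  · rw [cremona_fst, h]; ring
  · rw [cremona_snd, h]; simp

/-! ### The invariant quadratic form -/

/-- `δ² - (n - 1) ∑ μ_i²`. -/
def qf (n : ℕ) (c : CurveClass s) : ℤ := c.1 ^ 2 - ((n : ℤ) - 1) * ∑ i, c.2 i ^ 2

theorem qf_cremona {Γ : Finset (Fin s)} (hΓ : Γ.card = n + 1) (c : CurveClass s) :
    qf n (cremona n Γ c) = qf n c := by
  unfold qf
  have h1 : ∑ i, (cremona n Γ c).2 i ^ 2 =
      ∑ i, c.2 i ^ 2 + 2 * tt Γ c * ∑ i ∈ Γ, c.2 i + ((n : ℤ) + 1) * tt Γ c ^ 2 := by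
    have h2 : ∀ i, (cremona n Γ c).2 i ^ 2 =
        c.2 i ^ 2 + if i ∈ Γ then 2 * tt Γ c * c.2 i + tt Γ c ^ 2 else 0 := by
      intro i
      rw [cremona_snd]
      split_ifs <;> ring
    simp only [h2, Finset.sum_add_distrib, Finset.sum_ite_mem, Finset.univ_inter,
      Finset.sum_const, hΓ, ← Finset.mul_sum, nsmul_eq_mul]
    push_cast
    ring
  rw [h1, cremona_fst]
  have h3 : ∑ i ∈ Γ, c.2 i = c.1 - tt Γ c := by unfold tt; ring
  rw [h3]
  ring

theorem qf_weyl {σ : Equiv.Perm (CurveClass s)} (hσ : σ ∈ weylGroup n s) (c : CurveClass s) :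
    qf n (σ c) = qf n c := by
  revert c
  refine Subgroup.closure_induction (p := fun σ _ => ∀ c, qf n (σ c) = qf n c) ?_ ?_ ?_ ?_ hσ
  · rintro σ ⟨Γ, hΓ, h⟩ c
    rw [h c, qf_cremona hΓ]
  · intro c; rfl
  · intro σ τ _ _ h1 h2 c
    rw [Equiv.Perm.mul_apply, h1, h2]
  · intro σ _ h c
    have := h (σ⁻¹ c)
    rw [show σ (σ⁻¹ c) = c from Equiv.apply_symm_apply σ c] at this
    exact this.symm

theorem qf_line {i j : Fin s} (hij : i ≠ j) : qf n (lineClass i j) = 3 - 2 * (n : ℤ) := by
  unfold qf lineClass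
  have h : ∑ k : Fin s, (if k = i ∨ k = j then (1 : ℤ) else 0) ^ 2 = 2 := by
    have h1 : ∀ k : Fin s, (if k = i ∨ k = j then (1 : ℤ) else 0) ^ 2 =
        (if k = i then 1 else 0) + (if k = j then 1 else 0) := by
      intro k
      by_cases h1 : k = i
      · have : k ≠ j := fun h => hij (h1.symm.trans h)
        simp [h1, hij]
      · by_cases h2 : k = j <;> simp [h1, h2]
        exact fun h => hij h.symm
    simp [h1, Finset.sum_add_distrib]
  simp only [h]
  ring

theorem not_line_of_qf {c : CurveClass s} (h : qf n c ≠ 3 - 2 * (n : ℤ)) : ¬ InLineOrbit n c := by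
  rintro ⟨i, j, hij, σ, hσ, rfl⟩
  exact h (by rw [qf_weyl hσ, qf_line hij])

/-! ### Dominant classes in `n + 4` points -/

/-- permutation of the points -/
def perm (σ : Equiv.Perm (Fin s)) (c : CurveClass s) : CurveClass s := (c.1, fun i => c.2 (σ i))

/-- `v` descends to a permutation of `c` through strictly decreasing reflections. -/
inductive Desc (n : ℕ) {s : ℕ} (c : CurveClass s) : CurveClass s → Prop
  | base (σ : Equiv.Perm (Fin s)) : Desc n c (perm σ c)
  | step (v : CurveClass s) (Γ : Finset (Fin s)) (hΓ : Γ.card = n + 1) (ht : tt Γ v < 0)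
      (h : Desc n c (cremona n Γ v)) : Desc n c v

theorem tt_perm (σ : Equiv.Perm (Fin s)) (Γ : Finset (Fin s)) (c : CurveClass s) :
    tt Γ (perm σ c) = tt (Γ.map σ.toEmbedding) c := by
  unfold tt perm
  simp

theorem perm_cremona (σ : Equiv.Perm (Fin s)) (Γ : Finset (Fin s)) (c : CurveClass s) :
    cremona n Γ (perm σ c) = perm σ (cremona n (Γ.map σ.toEmbedding) c) := by
  refine class_ext ?_ fun i => ?_
  · rw [cremona_fst, tt_perm]
    rfl
  · rw [cremona_snd, tt_perm]
    change _ = (cremona n (Γ.map σ.toEmbedding) c).2 (σ i)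
    rw [cremona_snd]
    simp [perm]

theorem desc_perm {c v : CurveClass s} (h : Desc n c v) (σ : Equiv.Perm (Fin s)) :
    Desc n c (perm σ v) := by
  induction h with
  | base τ => exact Desc.base (σ.trans τ)
  | step v Γ hΓ ht _ ih =>
    have hmap : (Γ.map σ.symm.toEmbedding).map σ.toEmbedding = Γ := by
      ext i; simp
    refine Desc.step _ (Γ.map σ.symm.toEmbedding) (by rw [Finset.card_map, hΓ]) ?_ ?_
    · rw [tt_perm, hmap]; exact ht
    · rw [perm_cremona, hmap]; exact ih

theorem Desc.le (hn : 2 ≤ n) {c v : CurveClass s} (h : Desc n c v) : c.1 ≤ v.1 := by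
  induction h with
  | base τ => exact le_refl _
  | step v Γ hΓ ht _ ih =>
    rw [cremona_fst] at ih
    have : ((n : ℤ) - 1) * tt Γ v < 0 := mul_neg_of_pos_of_neg (by omega) ht
    omega

theorem cremona_lt (hn : 2 ≤ n) {Γ : Finset (Fin s)} {v : CurveClass s} (ht : tt Γ v < 0) :
    (cremona n Γ v).1 < v.1 := by
  rw [cremona_fst]
  have : ((n : ℤ) - 1) * tt Γ v < 0 := mul_neg_of_pos_of_neg (by omega) ht
  omega

/-- The relation for two sets differing in one element. -/
theorem swap_relation {Γ Γ' : Finset (Fin s)} {a b : Fin s} (ha : a ∈ Γ) (ha' : a ∉ Γ')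
    (hb : b ∉ Γ) (hb' : b ∈ Γ') (hother : ∀ i, i ≠ a → i ≠ b → (i ∈ Γ ↔ i ∈ Γ'))
    (hcard : (Γ ∩ Γ').card = n) (v : CurveClass s) :
    cremona n Γ (cremona n Γ' v) = perm (Equiv.swap a b) (cremona n Γ v) := by
  have hab : a ≠ b := fun h => hb (h ▸ ha)
  have hts : tt Γ v - tt Γ' v = v.2 b - v.2 a := by
    unfold tt
    have h1 : Γ = insert a (Γ ∩ Γ') := by
      ext i
      simp only [mem_insert, mem_inter]
      by_cases h1 : i = a
      · simp [h1, ha]
      · by_cases h2 : i = b
        · simp [h2, hb, hab.symm]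
        · have := hother i h1 h2
          simp [h1, this]
    have h2 : Γ' = insert b (Γ ∩ Γ') := by
      ext i
      simp only [mem_insert, mem_inter]
      by_cases h1 : i = b
      · simp [h1, hb']
      · by_cases h2 : i = a
        · simp [h2, ha', hab]
        · have := hother i h2 h1
          simp [h1, this]
    have e1 : ∑ i ∈ Γ, v.2 i = v.2 a + ∑ i ∈ Γ ∩ Γ', v.2 i := by
      conv_lhs => rw [h1]
      rw [Finset.sum_insert (by simp [ha'])]
    have e2 : ∑ i ∈ Γ', v.2 i = v.2 b + ∑ i ∈ Γ ∩ Γ', v.2 i := by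
      conv_lhs => rw [h2]
      rw [Finset.sum_insert (by simp [hb])]
    rw [e1, e2]
    ring
  have ht2 : tt Γ (cremona n Γ' v) = tt Γ v - tt Γ' v := by
    rw [tt_cremona, hcard]
    ring
  refine class_ext ?_ fun i => ?_
  · rw [cremona_fst, ht2, cremona_fst]
    change _ = (cremona n Γ v).1
    rw [cremona_fst]
    ring
  · rw [cremona_snd, cremona_snd, ht2]
    change _ = (cremona n Γ v).2 (Equiv.swap a b i)
    rw [cremona_snd]
    by_cases h1 : i = a
    · subst h1
      rw [Equiv.swap_apply_left, if_pos ha, if_neg ha', if_neg hb]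
      omega
    · by_cases h2 : i = b
      · subst h2
        rw [Equiv.swap_apply_right, if_neg hb, if_pos hb', if_pos ha]
        omega
      · rw [Equiv.swap_apply_of_ne_of_ne h1 h2]
        have := hother i h1 h2
        by_cases h3 : i ∈ Γ
        · rw [if_pos h3, if_pos (this.1 h3), if_pos h3]; ring
        · rw [if_neg h3, if_neg (fun h => h3 (this.2 h)), if_neg h3]; ring

/-- Descent is invariant under all standard Cremona transformations (`n + 4` points). -/
theorem desc_cremona {n : ℕ} (hn : 2 ≤ n) {c : CurveClass (n + 4)}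
    (hc : ∀ Γ : Finset (Fin (n + 4)), Γ.card = n + 1 → 0 ≤ tt Γ c) :
    ∀ (k : ℕ) (v : CurveClass (n + 4)), (v.1 - c.1).toNat < k → Desc n c v →
      ∀ Γ : Finset (Fin (n + 4)), Γ.card = n + 1 → Desc n c (cremona n Γ v) := by
  intro k
  induction k with
  | zero => intro v hv; exact absurd hv (Nat.not_lt_zero _)
  | succ k IH =>
    intro v hv hD Γ hΓ
    rcases lt_trichotomy (tt Γ v) 0 with hneg | h0 | hpos
    swap
    · rw [cremona_eq_self h0]; exact hD
    swap
    · refine Desc.step _ Γ hΓ ?_ ?_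
      · rw [tt_cremona_self hΓ]; omega
      · rw [cremona_cremona hΓ]; exact hD
    -- `Γ` is a strictly decreasing direction
    cases hD with
    | base σ =>
      exfalso
      rw [tt_perm] at hneg
      have := hc (Γ.map σ.toEmbedding) (by rw [Finset.card_map, hΓ])
      omega
    | step _ Γ' hΓ' ht' hD' =>
      have hle' := hD'.le hn
      have hlt' := cremona_lt hn ht'
      have hv' : ((cremona n Γ' v).1 - c.1).toNat < k := by omega
      have IH1 := IH _ hv' hD'
      -- sizes
      have hsum := Finset.card_inter_add_card_union Γ Γ'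
      have hun : (Γ ∪ Γ').card ≤ n + 4 := by
        have := Finset.card_le_univ (Γ ∪ Γ')
        simpa using this
      have hint : (Γ ∩ Γ').card ≤ n + 1 := hΓ ▸ Finset.card_le_card Finset.inter_subset_left
      have hint2 : n - 2 ≤ (Γ ∩ Γ').card := by omega
      have hd1 : (Γ \ Γ').card = n + 1 - (Γ ∩ Γ').card := by
        rw [Finset.card_sdiff, Finset.inter_comm, hΓ]
      have hd2 : (Γ' \ Γ).card = n + 1 - (Γ ∩ Γ').card := by
        rw [Finset.card_sdiff, hΓ']
      have e1 : tt Γ' (cremona n Γ v) =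
          tt Γ' v + ((n : ℤ) - 1 - (Γ ∩ Γ').card) * tt Γ v := by
        rw [tt_cremona, Finset.inter_comm]
      have e2 : tt Γ (cremona n Γ' v) =
          tt Γ v + ((n : ℤ) - 1 - (Γ ∩ Γ').card) * tt Γ' v := by
        rw [tt_cremona]
      obtain hj | hj | hj | hj : (Γ ∩ Γ').card = n + 1 ∨ (Γ ∩ Γ').card = n ∨
          (Γ ∩ Γ').card = n - 1 ∨ (Γ ∩ Γ').card = n - 2 := by omega
      · -- equal sets
        have h1 : Γ ∩ Γ' = Γ := Finset.eq_of_subset_of_card_le Finset.inter_subset_left (by omega)
        have h2 : Γ ∩ Γ' = Γ' := Finset.eq_of_subset_of_card_le Finset.inter_subset_right (by omega)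
        rw [← h1, h2]
        exact hD'
      · -- one element different
        rw [hj] at hd1 hd2
        obtain ⟨a, ha⟩ := Finset.card_eq_one.1 (by omega : (Γ \ Γ').card = 1)
        obtain ⟨b, hb⟩ := Finset.card_eq_one.1 (by omega : (Γ' \ Γ).card = 1)
        have haa := Finset.mem_sdiff.1 (ha ▸ Finset.mem_singleton_self a : a ∈ Γ \ Γ')
        have hbb := Finset.mem_sdiff.1 (hb ▸ Finset.mem_singleton_self b : b ∈ Γ' \ Γ)
        have hother : ∀ i, i ≠ a → i ≠ b → (i ∈ Γ ↔ i ∈ Γ') := by
          intro i hia hib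
          constructor
          · intro h
            by_contra h'
            have : i ∈ Γ \ Γ' := Finset.mem_sdiff.2 ⟨h, h'⟩
            rw [ha] at this
            exact hia (Finset.mem_singleton.1 this)
          · intro h
            by_contra h'
            have : i ∈ Γ' \ Γ := Finset.mem_sdiff.2 ⟨h, h'⟩
            rw [hb] at this
            exact hib (Finset.mem_singleton.1 this)
        have r1 := swap_relation (n := n) haa.1 haa.2 hbb.2 hbb.1 hother hj v
        have r2 := swap_relation (n := n) hbb.1 hbb.2 haa.2 haa.1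
          (fun i h1 h2 => (hother i h2 h1).symm) (by rw [Finset.inter_comm]; exact hj) v
        rw [hj] at e1 e2
        have hcoef : ((n : ℤ) - 1 - (n : ℤ)) = -1 := by ring
        rw [hcoef] at e1 e2
        rcases le_or_gt (tt Γ v) (tt Γ' v) with hle | hgt
        · -- use `s_Γ s_Γ' v`
          have h3 := IH1 Γ hΓ
          rw [r1] at h3
          have h4 := desc_perm h3 (Equiv.swap a b)
          have h5 : perm (Equiv.swap a b) (perm (Equiv.swap a b)
              (cremona n Γ v)) =
              cremona n Γ v := by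
            refine class_ext rfl fun i => ?_
            simp [perm]
          rwa [h5] at h4
        · refine Desc.step _ Γ' hΓ' (by rw [e1]; omega) ?_
          rw [r2]
          exact desc_perm hD' _
      · -- commuting case
        have hcoef : ((n : ℤ) - 1 - ((n - 1 : ℕ) : ℤ)) = 0 := by
          rw [Nat.cast_sub (by omega)]; push_cast; ring
        rw [hj, hcoef, zero_mul, add_zero] at e1 e2
        have h3 := IH1 Γ hΓ
        refine Desc.step _ Γ' hΓ' (by rw [e1]; exact ht') ?_
        have hcomm : cremona n Γ'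
            (cremona n Γ v) =
            cremona n Γ
            (cremona n Γ' v) := by
          refine class_ext ?_ fun i => ?_
          · rw [cremona_fst, cremona_fst, cremona_fst, cremona_fst, e1, e2]; ring
          · rw [cremona_snd, cremona_snd, cremona_snd, cremona_snd, e1, e2]; ring
        rw [hcomm]
        exact h3
      · -- braid case
        have hcoef : ((n : ℤ) - 1 - ((n - 2 : ℕ) : ℤ)) = 1 := by
          rw [Nat.cast_sub (by omega)]; push_cast; ring
        rw [hj, hcoef, one_mul] at e1 e2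
        have h3 := IH1 Γ hΓ
        have hlt2 : (cremona n Γ
            (cremona n Γ' v)).1 <
            (cremona n Γ' v).1 :=
          cremona_lt hn (by rw [e2]; omega)
        have hle2 := h3.le hn
        have h4 := IH _ (by omega) h3 Γ' hΓ'
        refine Desc.step _ Γ' hΓ' (by rw [e1]; omega) ?_
        have f1 : tt Γ (cremona n Γ'
            (cremona n Γ v)) = tt Γ' v := by
          rw [tt_cremona, hj, hcoef, tt_cremona_self hΓ, e1]; ring
        have f2 : tt Γ' (cremona n Γ
            (cremona n Γ' v)) = tt Γ v := by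
          rw [tt_cremona, Finset.inter_comm, hj, hcoef, tt_cremona_self hΓ', e2]; ring
        refine Desc.step _ Γ hΓ (by rw [f1]; exact ht') ?_
        have hbraid : cremona n Γ
            (cremona n Γ'
            (cremona n Γ v)) =
            cremona n Γ'
            (cremona n Γ
            (cremona n Γ' v)) := by
          refine class_ext ?_ fun i => ?_
          · simp only [cremona_fst, f1, f2, e1, e2]; ring
          · simp only [cremona_snd, f1, f2, e1, e2]
            split_ifs <;> ring
        rw [hbraid]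
        exact h4

/-- The orbit of a dominant class in `n + 4` points. -/
theorem not_line_of_dominant {n : ℕ} (hn : 2 ≤ n) {c : CurveClass (n + 4)}
    (hc : ∀ Γ : Finset (Fin (n + 4)), Γ.card = n + 1 → 0 ≤ tt Γ c) (h1 : 1 < c.1) :
    ¬ InLineOrbit n c := by
  rintro ⟨i, j, hij, σ, hσ, hcl⟩
  have key : ∀ τ ∈ weylGroup n (n + 4), ∀ v, Desc n c v ↔ Desc n c (τ v) := by
    intro τ hτ
    refine Subgroup.closure_induction
      (p := fun τ _ => ∀ v, Desc n c v ↔ Desc n c (τ v)) ?_ ?_ ?_ ?_ hτ
    · rintro τ ⟨Γ, hΓ, h⟩ v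
      rw [h v]
      constructor
      · intro hD
        exact desc_cremona hn hc _ v (Nat.lt_succ_self _) hD Γ hΓ
      · intro hD
        have := desc_cremona hn hc _ _ (Nat.lt_succ_self _) hD Γ hΓ
        rwa [cremona_cremona hΓ] at this
    · intro v; rfl
    · intro σ τ _ _ h1 h2 v
      rw [Equiv.Perm.mul_apply, ← h1, ← h2]
    · intro σ _ h v
      rw [h (σ⁻¹ v), show σ (σ⁻¹ v) = v from Equiv.apply_symm_apply σ v]
  have h2 : Desc n c c := Desc.base (Equiv.refl _)
  have h3 : Desc n c (lineClass i j) := by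
    rw [key σ hσ, ← hcl]
    exact h2
  have h4 := h3.le hn
  have h5 : (lineClass i j).1 = 1 := rfl
  omega

end Pool.Agent.MP_04a7d6_ag
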