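import Pool.Agent.MP_04a7d6_ag.BaseQ1
import Pool.Agent.MP_04a7d6_ag.General
import Pool.Agent.MP_04a7d6_ag.Weyl

/-!
# `n + 4` points: existence and position of the curve class
-/

open Finset MvPolynomial

namespace Pool.Agent.MP_04a7d6_ag

instance fact61 : Fact (Nat.Prime BaseQ1.d.P) := ⟨by
  change Nat.Prime 61
  norm_num⟩

/-- Multiplicities: the first `j` points have multiplicity `4`, the others `3`. -/
def mu1 (j : ℕ) : Fin (j + 7) ⊕ Fin 3 → ℕ := Sum.elim (fun i => if i.val < j then 4 else 3) fun _ => 3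

theorem fib1 : ∀ i : Fin BaseQ1.d.n1 ⊕ Fin BaseQ1.d.r,
    (univ.filter fun a => BaseQ1.d.pt a = i).card = 3 := by decide +kernel

theorem stage1_base : Stage (BD.Kbar BaseQ1.d.P) 3 7 6 BaseQ1.d.Lbar 7 30 (mu1 0) := by
  refine BaseQ1.d.stage_base (BaseQ1.d.good_of_ck BaseQ1.ckT BaseQ1.ckC BaseQ1.ckRel BaseQ1.ckJ
    BaseQ1.ckU BaseQ1.ckI) rfl BaseQ1.act fun i => ?_
  rw [fib1 i]
  cases i <;> rfl

theorem stage1 (j : ℕ) :
    Stage (BD.Kbar BaseQ1.d.P) 3 7 6 BaseQ1.d.Lbar (j + 7) (30 + 4 * j) (mu1 j) := by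
  induction j with
  | zero => exact stage1_base
  | succ j ih =>
    have h := ih.extend (k := 4) (by norm_num)
      (fun S => BaseQ1.d.quad_exists (k := 4) (by norm_num) BaseQ1.ckQ1 BaseQ1.ckQ2 BaseQ1.ckD S)
    have hmu : (Sum.elim (Fin.cons 4 (fun l => mu1 j (Sum.inl l))) (fun i => mu1 j (Sum.inr i)) :
        Fin (j + 7 + 1) ⊕ Fin 3 → ℕ) = mu1 (j + 1) := by
      funext x
      cases x with
      | inl i =>
        refine Fin.cases ?_ (fun i => ?_) i
        · simp [mu1]
        · simp [mu1]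
      | inr i => rfl
    rw [hmu] at h
    exact h

/-- Existence of the curve of class `(4 j + 21; 4^j, 3^10)` through `j + 10` general points. -/
theorem exists1 (j : ℕ) :
    ∃ G : MvPolynomial (Fin (j + 10) × Fin (j + 7)) ℂ, G ≠ 0 ∧
      ∀ q : Fin (j + 10) → Fin (j + 7) → ℂ, eval (fun x => q x.1 x.2) G ≠ 0 →
        ∃ F, IsMinusOneCurve (n := j + 6) (s := j + 10) q (4 * j + 21)
          (fun i => if i.val < j then 4 else 3) F := by
  obtain ⟨ι, _, _, pt, q0, c, t, fam, hG, hN, hact, hμ, -⟩ := stage1 j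
  obtain ⟨G, hG0, hG1⟩ := general_curve (n := j + 5) (r := 3) (m := 7) (δ := 4 * j + 21) (b := 6)
    pt (nrm q0) c t fam hG (by norm_num) (by omega) (by rw [hN]; ring) (by ring) hact (mu1 j) hμ
    (by
      intro i
      cases i with
      | inl i => simp only [mu1, Sum.elim_inl]; split_ifs <;> norm_num
      | inr i => simp [mu1])
  refine ⟨G, hG0, fun q hq => ?_⟩
  obtain ⟨F, hF⟩ := hG1 q hq
  refine ⟨F, ?_⟩
  have hmu : (mu1 j ∘ (finSumFinEquiv (m := j + 7) (n := 3)).symm : Fin (j + 7 + 3) → ℕ) =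
      fun i => if i.val < j then 4 else 3 := by
    funext i
    refine Fin.addCases (fun i => ?_) (fun i => ?_) i
    · simp [mu1]
    · simp [mu1]
      omega
  rw [hmu] at hF
  exact hF

/-- The class `(4 j + 21; 4^j, 3^10)` is not in the Weyl orbit of the class of a line. -/
theorem not_line1 (j : ℕ) :
    ¬ InLineOrbit (j + 6) (s := j + 10)
      (((4 * j + 21 : ℕ) : ℤ), fun i => if i.val < j then (4 : ℤ) else 3) := by
  refine not_line_of_dominant (n := j + 6) (by omega) ?_ ?_
  · intro Γ hΓ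
    unfold tt
    simp only
    have h1 : ∀ i : Fin (j + 10), (if i.val < j then (4 : ℤ) else 3) =
        3 + if i.val < j then 1 else 0 := by
      intro i
      split_ifs <;> norm_num
    have h2 : ∑ i ∈ Γ, (if i.val < j then (1 : ℤ) else 0) ≤ j := by
      rw [← Finset.sum_filter, Finset.sum_const, nsmul_eq_mul, mul_one]
      have h3 : (Γ.filter fun i => i.val < j).card ≤ (range j).card := by
        refine Finset.card_le_card_of_injOn (fun i => i.val) ?_ ?_
        · intro i hi
          simp only [Finset.coe_filter, Set.mem_ofPred_eq] at hi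
          simpa using hi.2
        · intro a _ b _ h
          exact Fin.ext h
      rw [Finset.card_range] at h3
      exact_mod_cast h3
    rw [Finset.sum_congr rfl fun i _ => h1 i, Finset.sum_add_distrib, Finset.sum_const, hΓ,
      nsmul_eq_mul]
    have h5 : ((j + 6 + 1 : ℕ) : ℤ) = j + 7 := by push_cast; ring
    have h6 : ((4 * j + 21 : ℕ) : ℤ) = 4 * j + 21 := by push_cast; ring
    rw [h5, h6]
    linarith
  · push_cast
    omega

end Pool.Agent.MP_04a7d6_ag
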