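import Pool.Agent.MP_04a7d6_ag.BaseQ2
import Pool.Agent.MP_04a7d6_ag.General
import Pool.Agent.MP_04a7d6_ag.Weyl

/-!
# `n + 5` points: existence and position of the curve class
-/

open Finset MvPolynomial

namespace Pool.Agent.MP_04a7d6_ag

instance fact17 : Fact (Nat.Prime BaseQ2.d.P) := ⟨by
  change Nat.Prime 17
  norm_num⟩

/-- Multiplicities: the first `j` points have multiplicity `3`, the last one `1`, the others
`2`. -/
def mu2 (j : ℕ) : Fin (j + 5) ⊕ Fin 4 → ℕ :=
  Sum.elim (fun i => if i.val < j then 3 else 2) fun i => if i.val = 3 then 1 else 2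

theorem fib2 : ∀ i : Fin BaseQ2.d.n1 ⊕ Fin BaseQ2.d.r,
    (univ.filter fun a => BaseQ2.d.pt a = i).card =
      Sum.elim (fun _ => 2) (fun i => if i.val = 3 then 1 else 2) i := by decide +kernel

theorem stage2_base : Stage (BD.Kbar BaseQ2.d.P) 4 5 4 BaseQ2.d.Lbar 5 17 (mu2 0) := by
  refine BaseQ2.d.stage_base (BaseQ2.d.good_of_ck BaseQ2.ckT BaseQ2.ckC BaseQ2.ckRel BaseQ2.ckJ
    BaseQ2.ckU BaseQ2.ckI) rfl BaseQ2.act fun i => ?_
  rw [fib2 i]
  cases i <;> rfl

theorem stage2 (j : ℕ) :
    Stage (BD.Kbar BaseQ2.d.P) 4 5 4 BaseQ2.d.Lbar (j + 5) (17 + 3 * j) (mu2 j) := by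
  induction j with
  | zero => exact stage2_base
  | succ j ih =>
    have h := ih.extend (k := 3) (by norm_num)
      (fun S => BaseQ2.d.quad_exists (k := 3) (by norm_num) BaseQ2.ckQ1 BaseQ2.ckQ2 BaseQ2.ckD S)
    have hmu : (Sum.elim (Fin.cons 3 (fun l => mu2 j (Sum.inl l))) (fun i => mu2 j (Sum.inr i)) :
        Fin (j + 5 + 1) ⊕ Fin 4 → ℕ) = mu2 (j + 1) := by
      funext x
      cases x with
      | inl i =>
        refine Fin.cases ?_ (fun i => ?_) i
        · simp [mu2]
        · simp [mu2]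
      | inr i => rfl
    rw [hmu] at h
    exact h

/-- Existence of the curve of class `(3 j + 10; 3^j, 2^8, 1)` through `j + 9` general points. -/
theorem exists2 (j : ℕ) :
    ∃ G : MvPolynomial (Fin (j + 9) × Fin (j + 5)) ℂ, G ≠ 0 ∧
      ∀ q : Fin (j + 9) → Fin (j + 5) → ℂ, eval (fun x => q x.1 x.2) G ≠ 0 →
        ∃ F, IsMinusOneCurve (n := j + 4) (s := j + 9) q (3 * j + 10)
          (fun i => if i.val < j then 3 else if i.val < j + 8 then 2 else 1) F := by
  obtain ⟨ι, _, _, pt, q0, c, t, fam, hG, hN, hact, hμ, -⟩ := stage2 j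
  obtain ⟨G, hG0, hG1⟩ := general_curve (n := j + 3) (r := 4) (m := 5) (δ := 3 * j + 10) (b := 4)
    pt (nrm q0) c t fam hG (by norm_num) (by omega) (by rw [hN]; ring) (by ring) hact (mu2 j) hμ
    (by
      intro i
      cases i with
      | inl i => simp only [mu2, Sum.elim_inl]; split_ifs <;> norm_num
      | inr i => simp only [mu2, Sum.elim_inr]; split_ifs <;> norm_num)
  refine ⟨G, hG0, fun q hq => ?_⟩
  obtain ⟨F, hF⟩ := hG1 q hq
  refine ⟨F, ?_⟩
  have hmu : (mu2 j ∘ (finSumFinEquiv (m := j + 5) (n := 4)).symm : Fin (j + 5 + 4) → ℕ) =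
      fun i => if i.val < j then 3 else if i.val < j + 8 then 2 else 1 := by
    funext i
    refine Fin.addCases (fun i => ?_) (fun i => ?_) i
    · have := i.2
      simp only [Function.comp_apply, finSumFinEquiv_symm_apply_castAdd, mu2, Sum.elim_inl,
        Fin.val_castAdd]
      split_ifs <;> omega
    · have := i.2
      simp only [Function.comp_apply, finSumFinEquiv_symm_apply_natAdd, mu2, Sum.elim_inr,
        Fin.val_natAdd]
      split_ifs <;> omega
  rw [hmu] at hF
  exact hF

/-- The class `(3 j + 10; 3^j, 2^8, 1)` is not in the Weyl orbit of the class of a line. -/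
theorem not_line2 (j : ℕ) :
    ¬ InLineOrbit (j + 4) (s := j + 9)
      (((3 * j + 10 : ℕ) : ℤ),
        fun i => if i.val < j then (3 : ℤ) else if i.val < j + 8 then 2 else 1) := by
  apply not_line_of_qf
  have h1 : ∑ i : Fin (j + 9), (if i.val < j then (3 : ℤ) else if i.val < j + 8 then 2 else 1) ^ 2
      = 9 * j + 33 := by
    rw [Fin.sum_univ_add]
    have e1 : ∀ i : Fin j, (if (Fin.castAdd 9 i).val < j then (3 : ℤ) else
        if (Fin.castAdd 9 i).val < j + 8 then 2 else 1) ^ 2 = 9 := by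
      intro i
      rw [if_pos (by simp)]
      norm_num
    have e2 : ∀ i : Fin 9, (if (Fin.natAdd j i).val < j then (3 : ℤ) else
        if (Fin.natAdd j i).val < j + 8 then 2 else 1) ^ 2 = if i.val < 8 then 4 else 1 := by
      intro i
      rw [if_neg (by simp)]
      by_cases h : i.val < 8
      · rw [if_pos (by simpa using h), if_pos h]; norm_num
      · rw [if_neg (by simpa using h), if_neg h]; norm_num
    rw [Finset.sum_congr rfl fun i _ => e1 i, Finset.sum_congr rfl fun i _ => e2 i]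
    have e3 : ∑ i : Fin 9, (if i.val < 8 then (4 : ℤ) else 1) = 33 := by decide
    rw [e3]
    simp
    ring
  unfold qf
  simp only
  rw [h1]
  push_cast
  intro h
  have : (3 * (j : ℤ) + 10) ^ 2 - ((j : ℤ) + 4 - 1) * (9 * j + 33) = 1 := by ring
  rw [this] at h
  omega

end Pool.Agent.MP_04a7d6_ag
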