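import Pool.Agent.MP_04a7d6_ag.BaseCheck

/-!
# From the computed base solution to all dimensions
-/

open Finset

namespace Pool.Agent.MP_04a7d6_ag

theorem good_map {F K : Type*} [Field F] [Field K] (f : F →+* K) {κ ρ ι : Type*} [Fintype κ]
    [DecidableEq κ] [DecidableEq ρ] [Fintype ι] [DecidableEq ι] {n m : ℕ} {pt : ι → κ ⊕ ρ}
    {p : κ ⊕ ρ → κ → F} {c t : ι → F} {fam : Pairs n → ρ × κ × κ × κ}
    (h : Good m pt p c t fam) :
    Good m pt (fun i k => f (p i k)) (fun a => f (c a)) (fun a => f (t a)) fam := by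
  refine ⟨fun a b hab => h.inj (f.injective hab), fun a ha => h.ne a ?_, ?_, ?_, ?_⟩
  · exact f.injective (by rw [ha, map_zero])
  · intro e k
    have := congrArg f (h.rel e k)
    simpa [map_sum] using this
  · obtain ⟨a, -, hdet⟩ := exists_pivot _ (li_of_condT h.ne h.condT)
    apply condT_of_li (c := fun a => f (c a))
    refine rows_of_minor _ a ?_
    have hm : (jacMat m pt (fun i k => f (p i k)) (fun a => f (c a)) (fun a => f (t a))).submatrix
        id a = ((jacMat m pt p c t).submatrix id a).map f := by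
      ext x y
      simp only [Matrix.submatrix_apply, Matrix.map_apply, jacMat, id]
      cases a y <;> simp
    rw [hm, ← RingHom.mapMatrix_apply, ← RingHom.map_det]
    exact fun h0 => hdet (f.injective (by rw [h0, map_zero]))
  · rw [← map_sepM f]
    exact fun h0 => h.det (f.injective (by rw [h0, map_zero]))

theorem map_nrm {F K : Type*} [Field F] [Field K] (f : F →+* K) {κ ρ : Type*}
    [DecidableEq κ] (q : ρ → κ → F) :
    (fun i k => f (nrm q i k)) = nrm (fun j k => f (q j k)) := by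
  funext i k
  cases i with
  | inl l => simp only [nrm, Sum.elim_inl]; split_ifs <;> simp
  | inr j => rfl

namespace BD

variable (d : BD) [NeZero d.r] [NeZero d.n1]

/-- moment sequences over the further points -/
def L (j : Fin d.r) (e : ℕ) : ZMod d.P := ∑ a, if d.pt a = Sum.inr j then d.c a * d.t a ^ e else 0

/-- quadrature check -/
def ckQ (k : ℕ) (yN wN sN : ℕ → ℕ) : Bool :=
  (allTo k fun i => allTo k fun j => if i = j then true else !(sN i % d.P == sN j % d.P)) &&
  ((allTo k fun i => !(wN i % d.P == 0)) &&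
  (allTo (2 * k) fun e => (sumTo d.r (fun j => yN j * sumTo d.N (fun a =>
    if d.ptN a < d.n1 then 0 else if (d.ptN a - d.n1) % d.r = j then d.cN a * d.tN a ^ e else 0)) +
    sumTo k (fun τ => wN τ * sN τ ^ e)) % d.P == 0))

/-- disjoint nodes -/
def ckD (k : ℕ) (s1 s2 : ℕ → ℕ) : Bool :=
  allTo k fun i => allTo k fun j => !(s1 i % d.P == s2 j % d.P)

omit [NeZero d.n1] in
theorem pt_eq_inr (a : Fin d.N) (j : Fin d.r) :
    d.pt a = Sum.inr j ↔ ¬ d.ptN a < d.n1 ∧ (d.ptN a - d.n1) % d.r = j := by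
  unfold pt
  by_cases h : d.ptN a < d.n1
  · simp [h]
  · simp [h, Fin.ext_iff, Fin.ofNat]

variable [Fact d.P.Prime]

omit [NeZero d.n1] [Fact d.P.Prime] in
theorem isQuad_of_ck {k : ℕ} {yN wN sN : ℕ → ℕ} (hP : Fact d.P.Prime)
    (h : d.ckQ k yN wN sN = true) :
    IsQuad d.L (fun j => (yN j : ZMod d.P)) (fun τ : Fin k => (wN τ : ZMod d.P))
      (fun τ => (sN τ : ZMod d.P)) := by
  rw [ckQ, Bool.and_eq_true, Bool.and_eq_true, allTo_iff, allTo_iff, allTo_iff] at h
  obtain ⟨h1, h2, h3⟩ := h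
  refine ⟨?_, ?_, ?_⟩
  · intro a b hab
    by_contra hne
    have h4 := h1 a a.2
    rw [allTo_iff] at h4
    have h5 := h4 b b.2
    rw [if_neg (fun h => hne (Fin.ext h))] at h5
    rw [ZMod.natCast_eq_natCast_iff'] at hab
    simp [hab] at h5
  · intro a ha
    have h4 := h2 a a.2
    rw [ZMod.natCast_eq_zero_iff] at ha
    simp [Nat.mod_eq_zero_of_dvd ha] at h4
  · intro e he
    have h4 := natCast_eq_zero_of_mod (h3 e he)
    rw [Nat.cast_add, sumTo_eq, sumTo_eq, Finset.sum_range, Finset.sum_range, Nat.cast_sum,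
      Nat.cast_sum] at h4
    rw [← h4]
    congr 1
    · refine Finset.sum_congr rfl fun j _ => ?_
      rw [Nat.cast_mul, sumTo_eq, Finset.sum_range, Nat.cast_sum, L]
      congr 1
      refine Finset.sum_congr rfl fun a _ => ?_
      by_cases h5 : d.ptN a < d.n1
      · rw [if_neg (fun h => ((d.pt_eq_inr a j).1 h).1 h5), if_pos h5, Nat.cast_zero]
      · by_cases h6 : (d.ptN a - d.n1) % d.r = j
        · rw [if_pos ((d.pt_eq_inr a j).2 ⟨h5, h6⟩), if_neg h5, if_pos h6]
          simp [c, t]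
        · rw [if_neg (fun h => h6 ((d.pt_eq_inr a j).1 h).2), if_neg h5, if_neg h6, Nat.cast_zero]
    · exact Finset.sum_congr rfl fun τ _ => by push_cast; ring

/-- The algebraic closure of the prime field. -/
abbrev Kbar (P : ℕ) [Fact P.Prime] : Type := AlgebraicClosure (ZMod P)

/-- The moment sequences in the algebraic closure. -/
noncomputable def Lbar (j : Fin d.r) (e : ℕ) : Kbar d.P := algebraMap (ZMod d.P) (Kbar d.P) (d.L j e)

theorem stage_base {N : ℕ} {μ : Fin d.n1 ⊕ Fin d.r → ℕ}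
    (hG : Good d.m d.pt (nrm d.q) d.c d.t d.fam) (hN : d.N = N)
    (hact : ∀ x, (actSet d.pt (d.fam x)).card = d.m + d.b + 2)
    (hμ : ∀ i, (univ.filter fun a => d.pt a = i).card = μ i) :
    Stage (Kbar d.P) d.r d.m d.b d.Lbar d.n1 N μ := by
  subst hN
  refine ⟨Fin d.N, inferInstance, inferInstance, d.pt,
    fun j k => algebraMap (ZMod d.P) (Kbar d.P) (d.q j k),
    fun a => algebraMap (ZMod d.P) (Kbar d.P) (d.c a),
    fun a => algebraMap (ZMod d.P) (Kbar d.P) (d.t a), d.fam, ?_, ?_, hact, hμ, ?_⟩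
  · rw [← map_nrm]
    exact good_map _ hG
  · rw [Fintype.card_fin]
  · intro j e
    rw [Lbar, L, map_sum]
    refine Finset.sum_congr rfl fun a _ => ?_
    split_ifs <;> simp

omit [NeZero d.n1] in
theorem quad_exists {k : ℕ} (hk : 0 < k) {y1 w1 s1 y2 w2 s2 : ℕ → ℕ}
    (h1 : d.ckQ k y1 w1 s1 = true) (h2 : d.ckQ k y2 w2 s2 = true) (h3 : d.ckD k s1 s2 = true)
    (S : Finset (Kbar d.P)) :
    ∃ (y : Fin d.r → Kbar d.P) (ω s : Fin k → Kbar d.P), IsQuad d.Lbar y ω s ∧ ∀ τ, s τ ∉ S := by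
  have q1 := d.isQuad_of_ck inferInstance h1
  have q2 := d.isQuad_of_ck inferInstance h2
  have hmap : ∀ {y : Fin d.r → ZMod d.P} {ω s : Fin k → ZMod d.P}, IsQuad d.L y ω s →
      IsQuad d.Lbar (fun j => algebraMap (ZMod d.P) (Kbar d.P) (y j))
        (fun τ => algebraMap (ZMod d.P) (Kbar d.P) (ω τ))
        (fun τ => algebraMap (ZMod d.P) (Kbar d.P) (s τ)) := by
    intro y ω s h
    refine ⟨fun a b hab => h.inj ((algebraMap (ZMod d.P) (Kbar d.P)).injective hab),
      fun a ha => h.ne a ((algebraMap (ZMod d.P) (Kbar d.P)).injective (by rw [ha, map_zero])), ?_⟩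
    intro e he
    have := congrArg (algebraMap (ZMod d.P) (Kbar d.P)) (h.rel e he)
    simpa [Lbar, map_sum] using this
  refine exists_quad hk d.Lbar (hmap q1) (hmap q2) (fun τ τ' h => ?_) S
  have h4 := (algebraMap (ZMod d.P) (Kbar d.P)).injective h
  rw [ckD, allTo_iff] at h3
  have h5 := h3 τ τ.2
  rw [allTo_iff] at h5
  have h6 := h5 τ' τ'.2
  rw [ZMod.natCast_eq_natCast_iff'] at h4
  simp [h4] at h6

end BD

end Pool.Agent.MP_04a7d6_ag
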